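import Pool.Agent.V8H67.QR.Spiral

set_option autoImplicit false

namespace Pool.Agent.V8H67.QR

theorem low_same' (i D i' D' n : ℕ) : ((i : ℤ) - i').natAbs + ((D : ℤ) - D').natAbs ≤
    nm ((io (pt i D n) * d3) * (io (pt i' D' n) * d3)⁻¹) := by
  have := low_same i D i' D' n
  simp only [Int.abs_eq_natAbs] at this
  omega

theorem low_next' (i D i' D' n : ℕ) : D + ((i : ℤ) - D').natAbs + i' ≤
    nm ((io (pt i D (n + 1)) * d3) * (io (pt i' D' n) * d3)⁻¹) := by
  have := low_next i D i' D' n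
  simp only [Int.abs_eq_natAbs] at this
  omega

theorem low_start' (s i D n : ℕ) : D + i + ((n : ℤ) - s).natAbs ≤
    nm ((io (pt i D n) * d3) * (a3 ^ s)⁻¹) := by
  have := low_start s i D n
  simp only [Int.abs_eq_natAbs] at this
  omega

theorem up_same' (i D i' D' n : ℕ) : nm ((io (pt i' D' n) * d3) * (io (pt i D n) * d3)⁻¹) ≤
    ((i' : ℤ) - i).natAbs + ((D' : ℤ) - D).natAbs := by
  have := up_same i D i' D' n
  simp only [Int.abs_eq_natAbs] at this
  omega

theorem up_next' (i D i' D' n : ℕ) :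
    nm ((io (pt i' D' n) * d3) * (io (pt i D (n + 1)) * d3)⁻¹) ≤
    i' + ((D' : ℤ) - i).natAbs + 1 + D := by
  have := up_next i D i' D' n
  simp only [Int.abs_eq_natAbs] at this
  omega

/-- the position on the spiral at time `u` -/
def Tri (R u i D n : ℕ) : Prop :=
  (2 ^ R ≤ u ∧ i = 0 ∧ D = 3 * 2 ^ R + u ∧ n = 0) ∨
  ∃ l A : ℕ, A = 2 ^ l ∧ l < R ∧ A ≤ u ∧ u < 2 * A ∧ n + l = R ∧
    ((2 * (u - A) < A ∧ i = 16 * (u - A) ∧ D = 4 * A) ∨
      (A ≤ 2 * (u - A) ∧ i = 8 * A ∧ D + 8 * (u - A) = 8 * A))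

theorem Tri.exists (R : ℕ) {u : ℕ} (hu : 1 ≤ u) : ∃ i D n, Tri R u i D n := by
  rcases Nat.lt_or_ge u (2 ^ R) with h | h
  · have h1 := Nat.pow_log_le_self 2 (show u ≠ 0 by omega)
    have h2 := Nat.lt_pow_succ_log_self (b := 2) (by norm_num) u
    have h3 : Nat.log 2 u < R := by
      by_contra hc
      have := Nat.pow_le_pow_right (show 0 < 2 by norm_num) (show R ≤ Nat.log 2 u by omega)
      omega
    rw [pow_succ] at h2
    rcases Nat.lt_or_ge (2 * (u - 2 ^ Nat.log 2 u)) (2 ^ Nat.log 2 u) with h4 | h4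
    · exact ⟨_, _, R - Nat.log 2 u, Or.inr ⟨_, _, rfl, h3, h1, by omega, by omega,
        Or.inl ⟨h4, rfl, rfl⟩⟩⟩
    · exact ⟨_, 8 * 2 ^ Nat.log 2 u - 8 * (u - 2 ^ Nat.log 2 u), R - Nat.log 2 u,
        Or.inr ⟨_, _, rfl, h3, h1, by omega, by omega, Or.inr ⟨h4, rfl, by omega⟩⟩⟩
  · exact ⟨_, _, _, Or.inl ⟨h, rfl, rfl, rfl⟩⟩

theorem two_pow_cmp {l l' : ℕ} : l = l' ∨ (l' = l + 1 ∧ 2 ^ l' = 2 * 2 ^ l) ∨
    (l + 2 ≤ l' ∧ 4 * 2 ^ l ≤ 2 ^ l') ∨ (l' < l ∧ 2 * 2 ^ l' ≤ 2 ^ l) := by
  rcases lt_trichotomy l l' with h | h | h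
  · rcases Nat.lt_or_ge (l + 1) l' with h2 | h2
    · right; right; left
      refine ⟨h2, ?_⟩
      have := Nat.pow_le_pow_right (show 0 < 2 by norm_num) (show l + 2 ≤ l' from h2)
      rw [pow_add] at this
      omega
    · right; left
      have : l' = l + 1 := by omega
      subst this
      refine ⟨rfl, by rw [pow_succ]; ring⟩
  · left; exact h
  · right; right; right
    refine ⟨h, ?_⟩
    have := Nat.pow_le_pow_right (show 0 < 2 by norm_num) (show l' + 1 ≤ l from h)
    rw [pow_succ] at this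
    omega

/-- distances along the spiral: lower bound -/
theorem Tri.low {R u i D n u' i' D' n' : ℕ} (h : Tri R u i D n) (h' : Tri R u' i' D' n')
    (hu : u ≤ u') : u' - u ≤ nm ((io (pt i D n) * d3) * (io (pt i' D' n') * d3)⁻¹) := by
  rcases h with ⟨h1, h2, h3, h4⟩ | ⟨l, A, h1, h2, h3, h4, h5, h6⟩
  · rcases h' with ⟨h1', h2', h3', h4'⟩ | ⟨l', A', h1', h2', h3', h4', h5', h6'⟩
    · subst h4 h4'
      have := low_same' i D i' D' 0
      omega
    · exfalso
      have : 2 * 2 ^ l' ≤ 2 ^ R := by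
        have := Nat.pow_le_pow_right (show 0 < 2 by norm_num) (show l' + 1 ≤ R from h2')
        rw [pow_succ] at this
        omega
      omega
  · rcases h' with ⟨h1', h2', h3', h4'⟩ | ⟨l', A', h1', h2', h3', h4', h5', h6'⟩
    · rcases Nat.lt_or_ge (l + 1) R with hl | hl
      · have := low_far i D i' D' n n' (by omega)
        omega
      · have hR : R = l + 1 := by omega
        have hn : n = n' + 1 := by omega
        subst hn
        have h2R : 2 ^ R = 2 * A := by rw [hR, pow_succ, h1]; ring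
        have := low_next' i D i' D' n'
        omega
    · rcases two_pow_cmp (l := l) (l' := l') with h | ⟨h, h'⟩ | ⟨h, h'⟩ | ⟨h, h'⟩
      · have hn : n = n' := by omega
        subst h hn
        have hA : A = A' := by rw [h1, h1']
        subst hA
        have := low_same' i D i' D' n
        omega
      · have hn : n = n' + 1 := by omega
        subst hn
        rw [← h1, ← h1'] at h'
        have := low_next' i D i' D' n'
        omega
      · have := low_far i D i' D' n n' (by omega)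
        rw [← h1, ← h1'] at h'
        omega
      · exfalso
        rw [← h1, ← h1'] at h'
        omega

/-- distances along the spiral: upper bound -/
theorem Tri.up {R u i D n i' D' n' : ℕ} (h : Tri R u i D n) (h' : Tri R (u + 1) i' D' n') :
    nm ((io (pt i' D' n') * d3) * (io (pt i D n) * d3)⁻¹) ≤ 16 := by
  rcases h with ⟨h1, h2, h3, h4⟩ | ⟨l, A, h1, h2, h3, h4, h5, h6⟩
  · rcases h' with ⟨h1', h2', h3', h4'⟩ | ⟨l', A', h1', h2', h3', h4', h5', h6'⟩
    · subst h4 h4'
      have := up_same' i D i' D' 0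
      omega
    · exfalso
      have : 2 * 2 ^ l' ≤ 2 ^ R := by
        have := Nat.pow_le_pow_right (show 0 < 2 by norm_num) (show l' + 1 ≤ R from h2')
        rw [pow_succ] at this
        omega
      omega
  · have hA : A = 1 ∨ ∃ B, A = 2 * B := by
      rcases l with _ | l
      · left; rw [h1]; rfl
      · right; exact ⟨2 ^ l, by rw [h1, pow_succ]; ring⟩
    have hpos : 0 < 2 ^ l := by positivity
    rcases h' with ⟨h1', h2', h3', h4'⟩ | ⟨l', A', h1', h2', h3', h4', h5', h6'⟩
    · rcases Nat.lt_or_ge (l + 1) R with hl | hl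
      · exfalso
        have := Nat.pow_le_pow_right (show 0 < 2 by norm_num) (show l + 2 ≤ R by omega)
        rw [pow_add] at this
        omega
      · have hR : R = l + 1 := by omega
        have hn : n = n' + 1 := by omega
        subst hn
        have h2R : 2 ^ R = 2 * A := by rw [hR, pow_succ, h1]; ring
        have := up_next' i D i' D' n'
        rcases hA with hA | ⟨B, hB⟩ <;> omega
    · rcases two_pow_cmp (l := l) (l' := l') with h | ⟨h, h'⟩ | ⟨h, h'⟩ | ⟨h, h'⟩
      · have hn : n = n' := by omega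
        subst h hn
        have hAA : A = A' := by rw [h1, h1']
        subst hAA
        have := up_same' i D i' D' n
        rcases hA with hA | ⟨B, hB⟩
        · omega
        · omega
      · have hn : n = n' + 1 := by omega
        subst hn
        rw [← h1, ← h1'] at h'
        have := up_next' i D i' D' n'
        rcases hA with hA | ⟨B, hB⟩ <;> omega
      · exfalso
        rw [← h1, ← h1'] at h'
        omega
      · exfalso
        rw [← h1, ← h1'] at h'
        omega

/-- the first point of the spiral -/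
theorem Tri.first {R i D n : ℕ} (h : Tri R 1 i D n) : i = 0 ∧ D = 4 ∧ n = R := by
  rcases h with ⟨h1, h2, h3, h4⟩ | ⟨l, A, h1, h2, h3, h4, h5, h6⟩
  · have hR : R = 0 := by
      by_contra hc
      have := Nat.one_lt_two_pow hc
      omega
    subst hR
    refine ⟨h2, by simpa using h3, h4⟩
  · have hl : l = 0 := by
      by_contra hc
      have := Nat.one_lt_two_pow hc
      omega
    subst hl
    refine ⟨?_, ?_, by omega⟩ <;> simp at h1 <;> omega

/-- distance from the initial part -/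
theorem Tri.low_start {R u i D n s : ℕ} (h : Tri R u i D n) (hs : s ≤ R) :
    R - s + u ≤ nm ((io (pt i D n) * d3) * (a3 ^ s)⁻¹) := by
  have key := low_start' s i D n
  have hR := @Nat.lt_two_pow_self R
  rcases h with ⟨h1, h2, h3, h4⟩ | ⟨l, A, h1, h2, h3, h4, h5, h6⟩
  · omega
  · have hl := @Nat.lt_two_pow_self l
    omega

theorem nm_comm (x y : G3) : nm (x * y⁻¹) = nm (y * x⁻¹) := by
  rw [← nm_inv]; congr 1; group

/-- THE SPIRAL. -/
theorem spiral (R : ℕ) : ∃ g : ℕ → G3, (∀ t ≤ R, g t = a3 ^ t) ∧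
    (∃ s t0 : ℕ, 0 < s ∧ ∀ t, t0 ≤ t → g t = a3 ^ (t + s) * d3) ∧
    (∀ t t', t ≤ t' → t' - t ≤ nm (g t * (g t')⁻¹)) ∧
    ∀ t t', t ≤ t' → nm (g t * (g t')⁻¹) ≤ 16 * (t' - t) := by
  classical
  choose i D n hT using fun u : ℕ => Tri.exists R (show 1 ≤ u + 1 by omega)
  -- position at time `R + 1 + u`
  set g : ℕ → G3 := fun t => if t ≤ R then a3 ^ t else
    io (pt (i (t - R - 1)) (D (t - R - 1)) (n (t - R - 1))) * d3 with hg
  have g1 : ∀ t ≤ R, g t = a3 ^ t := fun t ht => by simp [hg, ht]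
  have g2 : ∀ t, R < t → g t = io (pt (i (t - R - 1)) (D (t - R - 1)) (n (t - R - 1))) * d3 :=
    fun t ht => by simp only [hg]; rw [if_neg (by omega)]
  have hR := @Nat.lt_two_pow_self R
  have step : ∀ t, nm (g (t + 1) * (g t)⁻¹) ≤ 16 := by
    intro t
    rcases lt_trichotomy t R with h | h | h
    · rw [g1 t (by omega), g1 (t + 1) (by omega)]
      have : a3 ^ (t + 1) * (a3 ^ t)⁻¹ = a3 ^ (1 : ℤ) := by group
      rw [this]
      have := nm_a 1
      simp at this
      simp only [zpow_one]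
      omega
    · subst h
      rw [g1 t le_rfl, g2 (t + 1) (by omega), show t + 1 - t - 1 = 0 by omega]
      obtain ⟨e1, e2, e3⟩ := (hT 0).first
      rw [e1, e2, e3]
      have : io (pt 0 4 t) * d3 * (a3 ^ t)⁻¹ = a3 ^ (4 : ℤ) * d3 ^ (1 : ℤ) := by
        have h := dan (t : ℤ)
        have h2 : c3 ^ (t : ℤ) * d3 * (a3 ^ (t : ℤ))⁻¹ = d3 := by rw [← h]; group
        simp only [pt, map_mul, map_zpow, io_a, io_b, io_c]
        rw [← zpow_natCast a3 t]
        calc b3 ^ ((0 : ℕ) : ℤ) * a3 ^ ((4 : ℕ) : ℤ) * c3 ^ (t : ℤ) * d3 * (a3 ^ (t : ℤ))⁻¹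
            = a3 ^ ((4 : ℕ) : ℤ) * (c3 ^ (t : ℤ) * d3 * (a3 ^ (t : ℤ))⁻¹) := by
              simp [mul_assoc]
          _ = _ := by rw [h2, zpow_one]; rfl
      rw [this]
      have h1 := nm_mul (a3 ^ (4 : ℤ)) (d3 ^ (1 : ℤ))
      have h2 := nm_a 4
      have h3 := nm_d 1
      simp only [Int.reduceAbs, Int.natAbs_one] at h2 h3
      have h4 : (4 : ℤ).natAbs = 4 := rfl
      omega
    · rw [g2 t h, g2 (t + 1) (by omega), show t + 1 - R - 1 = (t - R - 1) + 1 by omega]
      exact Tri.up (hT _) (hT _)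
  refine ⟨g, g1, ?_, ?_, ?_⟩
  · refine ⟨3 * 2 ^ R - R, R + 1 + 2 ^ R, by omega, ?_⟩
    intro t ht
    rw [g2 t (by omega)]
    rcases hT (t - R - 1) with ⟨h1, h2, h3, h4⟩ | ⟨l, A, h1, h2, h3, h4, h5, h6⟩
    · rw [h2, h3, h4, show 3 * 2 ^ R + (t - R - 1 + 1) = t + (3 * 2 ^ R - R) by omega]
      congr 1
      rw [pt, map_mul, map_mul, map_zpow, map_zpow, map_zpow, io_a]
      rw [Nat.cast_zero, zpow_zero, zpow_zero, one_mul, mul_one, zpow_natCast]
    · exfalso
      have := Nat.pow_le_pow_right (show 0 < 2 by norm_num) (show l + 1 ≤ R from h2)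
      rw [pow_succ] at this
      omega
  · intro t t' htt
    rcases Nat.lt_or_ge R t with h | h
    · rw [g2 t h, g2 t' (by omega)]
      have := Tri.low (hT (t - R - 1)) (hT (t' - R - 1)) (by omega)
      omega
    · rcases Nat.lt_or_ge R t' with h' | h'
      · rw [g1 t h, g2 t' h', nm_comm]
        have := (hT (t' - R - 1)).low_start h
        omega
      · rw [g1 t h, g1 t' h', nm_comm]
        have h3 := lip_tot (p := fun k => a3 ^ k) (fun m => by
          right; left; exact pow_succ' a3 m) htt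
        have h4 : tot (a3 ^ t') - tot (a3 ^ t) = t' - t := by simp
        have h5 := le_wnorm closure_S3 (fun x y => tot x - tot y) (by simp) (by intros; linarith)
          (fun s hs g => by
            rcases hs with h | h | h | h <;> subst h <;> simp)
          (fun s hs g => by
            rcases hs with h | h | h | h <;> subst h <;> simp) (a3 ^ t' * (a3 ^ t)⁻¹) (a3 ^ t)
        simp only [inv_mul_cancel_right] at h5
        rw [h4] at h5
        have : ((t' : ℤ) - t) ≤ nm (a3 ^ t' * (a3 ^ t)⁻¹) := h5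
        omega
  · intro t t' htt
    rw [nm_comm]
    induction t', htt using Nat.le_induction with
    | base => simp
    | succ k hk ih =>
      have h1 := step k
      have h2 := nm_mul (g (k + 1) * (g k)⁻¹) (g k * (g t)⁻¹)
      have e : g (k + 1) * (g k)⁻¹ * (g k * (g t)⁻¹) = g (k + 1) * (g t)⁻¹ := by group
      rw [e] at h2
      omega

end Pool.Agent.V8H67.QR
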