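import Pool.Agent.V8H67.QR.QG
import Pool.Agent.V8H67.QR.Spiral2

set_option autoImplicit false

namespace Pool.Agent.V8H67.QR

open scoped NNReal

theorem nm_a_eq (n : ℤ) : nm (a3 ^ n) = n.natAbs := by
  apply le_antisymm (nm_a n)
  have h1 := le_wnorm closure_S3 (fun x y => tot x - tot y) (by simp) (by intros; linarith)
    (fun s hs g => by rcases hs with h | h | h | h <;> subst h <;> simp)
    (fun s hs g => by rcases hs with h | h | h | h <;> subst h <;> simp) (a3 ^ n) 1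
  have h2 := le_wnorm closure_S3 (fun x y => tot y - tot x) (by simp) (by intros; linarith)
    (fun s hs g => by rcases hs with h | h | h | h <;> subst h <;> simp)
    (fun s hs g => by rcases hs with h | h | h | h <;> subst h <;> simp) (a3 ^ n) 1
  simp at h1 h2
  have h1 : n ≤ nm (a3 ^ n) := h1
  have h2 : -n ≤ nm (a3 ^ n) := h2
  omega

theorem eq_of_nm {g : G3} (h : nm g = 0) : g = 1 := by
  obtain ⟨l, h1, -, h3⟩ := wnorm_spec closure_S3 g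
  have h : wnorm S3 g = 0 := h
  rw [h] at h1
  rw [← h3, List.length_eq_zero_iff.1 h1]
  rfl

section
variable {X : Type} [MetricSpace X] (e : G3 → X)

/-- the rays -/
noncomputable def ray (k : ℕ) (t : ℝ≥0) : X := e (a3 ^ ⌊t⌋₊ * d3 ^ k)

variable {e} (he : ∀ g h, dist (e g) (e h) = nm (g * h⁻¹))
include he

/-- a discrete quasi-geodesic -/
theorem isQG_of_seq {g : ℕ → G3} {M : ℕ} (hM : 1 ≤ M) (h1 : ∀ t t', t ≤ t' → t' - t ≤ nm (g t * (g t')⁻¹))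
    (h2 : ∀ t t', t ≤ t' → nm (g t * (g t')⁻¹) ≤ M * (t' - t)) (k : ℕ) :
    IsQG (M : ℝ) M (fun t : ℝ≥0 => e (g ⌊t⌋₊ * d3 ^ k)) := by
  have hM' : (1 : ℝ) ≤ M := by exact_mod_cast hM
  apply isQG_of_le hM' (by linarith)
  intro s t hst
  have hst' : (0 : ℝ) ≤ (t : ℝ) - s := sub_nonneg.2 (by exact_mod_cast hst)
  have hfl : ⌊s⌋₊ ≤ ⌊t⌋₊ := Nat.floor_mono hst
  have e1 : dist (e (g ⌊s⌋₊ * d3 ^ k)) (e (g ⌊t⌋₊ * d3 ^ k)) = nm (g ⌊s⌋₊ * (g ⌊t⌋₊)⁻¹) := by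
    rw [he]; congr 2; group
  rw [e1]
  have h3 := h1 _ _ hfl
  have h4 := h2 _ _ hfl
  have h3' : ((⌊t⌋₊ : ℝ) - ⌊s⌋₊) ≤ nm (g ⌊s⌋₊ * (g ⌊t⌋₊)⁻¹) := by
    have : ((⌊t⌋₊ - ⌊s⌋₊ : ℕ) : ℝ) ≤ nm (g ⌊s⌋₊ * (g ⌊t⌋₊)⁻¹) := by exact_mod_cast h3
    rwa [Nat.cast_sub hfl] at this
  have h4' : (nm (g ⌊s⌋₊ * (g ⌊t⌋₊)⁻¹) : ℝ) ≤ M * ((⌊t⌋₊ : ℝ) - ⌊s⌋₊) := by
    have : (nm (g ⌊s⌋₊ * (g ⌊t⌋₊)⁻¹) : ℝ) ≤ ((M * (⌊t⌋₊ - ⌊s⌋₊) : ℕ) : ℝ) := by exact_mod_cast h4
    rwa [Nat.cast_mul, Nat.cast_sub hfl] at this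
  have f1 : (⌊s⌋₊ : ℝ) ≤ s := by exact_mod_cast Nat.floor_le (show (0 : ℝ≥0) ≤ s from bot_le)
  have f2 : (⌊t⌋₊ : ℝ) ≤ t := by exact_mod_cast Nat.floor_le (show (0 : ℝ≥0) ≤ t from bot_le)
  have f3 : (s : ℝ) < ⌊s⌋₊ + 1 := by exact_mod_cast Nat.lt_floor_add_one s
  have f4 : (t : ℝ) < ⌊t⌋₊ + 1 := by exact_mod_cast Nat.lt_floor_add_one t
  constructor
  · have h5 : ((t : ℝ) - s) / M ≤ (t : ℝ) - s := div_le_self hst' hM'
    linarith
  · have : (M : ℝ) * ((⌊t⌋₊ : ℝ) - ⌊s⌋₊) ≤ M * ((t : ℝ) - s + 1) :=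
      mul_le_mul_of_nonneg_left (by linarith) (by linarith)
    linarith

theorem ray_QG (k : ℕ) : IsQG 1 1 (ray e k) := by
  have := isQG_of_seq he (g := fun n => a3 ^ n) (M := 1) le_rfl (fun t t' h => by
    have e1 : a3 ^ t * (a3 ^ t')⁻¹ = a3 ^ ((t : ℤ) - t') := by rw [zpow_sub]; simp
    rw [e1, nm_a_eq]; omega) (fun t t' h => by
    have e1 : a3 ^ t * (a3 ^ t')⁻¹ = a3 ^ ((t : ℤ) - t') := by rw [zpow_sub]; simp
    rw [e1, nm_a_eq]; omega) k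
  simp only [Nat.cast_one] at this
  exact this

/-- the ray `k` can be redirected to the ray `k + 1` -/
theorem redirect_succ (k : ℕ) : Redirects (ray e k) (ray e (k + 1)) := by
  refine ⟨16, 16, fun r hr => ?_⟩
  obtain ⟨R, hR⟩ := exists_nat_ge (16 * (r + 16))
  obtain ⟨g, g1, ⟨s, t0, hs, g2⟩, g3, g4⟩ := spiral R
  have hQG := isQG_of_seq he (g := g) (M := 16) (by norm_num) g3 g4 k
  push_cast at hQG
  refine ⟨_, hQG, ?_, s, t0 + 1, by exact_mod_cast hs, by positivity, ?_⟩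
  · intro t ht
    rcases Nat.lt_or_ge R ⌊t⌋₊ with h | h
    · exfalso
      have f2 : (⌊t⌋₊ : ℝ) ≤ t := by exact_mod_cast Nat.floor_le (show (0 : ℝ≥0) ≤ t from bot_le)
      have f3 : (R : ℝ) ≤ ⌊t⌋₊ := by exact_mod_cast h.le
      have h3 := hQG.far (r := r) (t := t) (by linarith)
      have h4 := (ray_QG he k).far (r := r) (t := t) (by linarith)
      have h0 : e (g ⌊(0 : ℝ≥0)⌋₊ * d3 ^ k) = ray e k 0 := by
        simp only [Nat.floor_zero, ray]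
        rw [g1 0 (Nat.zero_le R)]
      rw [h0] at h3
      rcases ht with ht | ht
      · linarith
      · exact absurd ht (not_lt.2 h3)
    · simp only [ray]
      rw [g1 _ h]
  · intro t ht
    have h1 : t0 ≤ ⌊t⌋₊ := by
      apply Nat.le_floor
      calc (t0 : ℝ≥0) ≤ t0 + 1 := by simp
        _ ≤ t := ht
    simp only [ray]
    rw [g2 _ h1, Nat.floor_add_natCast (show (0 : ℝ≥0) ≤ t from bot_le), mul_assoc, pow_succ']

variable (hn : ∀ x, ∃ g, dist (e g) x ≤ 1)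
include hn

/-- no redirection in the other direction -/
theorem not_redirect {j k : ℕ} (hjk : k < j) : ¬ Redirects (ray e j) (ray e k) := by
  rintro ⟨q, Q, h⟩
  -- exact vertices
  have einj : ∀ g h, e g = e h → g = h := by
    intro g h hgh
    have h1 : (nm (g * h⁻¹) : ℝ) = 0 := by rw [← he, hgh, dist_self]
    have h2 : nm (g * h⁻¹) = 0 := by exact_mod_cast h1
    exact mul_inv_eq_one.1 (eq_of_nm h2)
  have hn' : ∀ x, ∃ g, dist (e g) x ≤ 1 ∧ ((∃ h, e h = x) → e g = x) := by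
    intro x
    by_cases hx : ∃ h, e h = x
    · obtain ⟨h, rfl⟩ := hx
      exact ⟨h, by simp, fun _ => rfl⟩
    · obtain ⟨g, hg⟩ := hn x
      exact ⟨g, hg, fun h => absurd h hx⟩
  obtain ⟨q', hq'⟩ := exists_nat_ge q
  obtain ⟨Q', hQ'⟩ := exists_nat_ge Q
  have hq1 : 1 ≤ q := by
    obtain ⟨g₀, hg0, -⟩ := h 1 one_pos
    exact hg0.1
  have hQ0 : 0 ≤ Q := by
    obtain ⟨g₀, hg0, -⟩ := h 1 one_pos
    exact hg0.2.1
  have hq'1 : 1 ≤ q' := by
    have : (1 : ℝ) ≤ q' := hq1.trans hq'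
    exact_mod_cast this
  set K := q' + Q' + 2 with hK
  set A := K * q' with hA
  set B := K * (q' * (K + Q' + 1) + 1) with hB
  set r0 := 8 * A * A + A + B with hr0
  obtain ⟨γ, hγ, hag, tβ, tγ, -, -, hev⟩ := h (r0 + 1) (by positivity)
  choose v hv1 hv2 using hn'
  set w : ℕ → G3 := fun n => v (γ n) * (d3 ^ j)⁻¹ with hw
  have hγ0 : γ 0 = ray e j 0 := hag 0 (Or.inl (by simp; positivity))
  have hγr : γ (r0 : ℝ≥0) = ray e j r0 := by
    apply hag _ (Or.inl _)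
    simp only [ray, Nat.floor_zero, Nat.floor_natCast]
    rw [he]
    have e1 : a3 ^ 0 * d3 ^ j * (a3 ^ r0 * d3 ^ j)⁻¹ = a3 ^ (-(r0 : ℤ)) := by
      rw [zpow_neg, zpow_natCast]; group
    rw [e1, nm_a_eq]
    simp
  have hstep : ∀ n : ℕ, nm (w (n + 1) * (w n)⁻¹) ≤ K := by
    intro n
    have e1 : (nm (w (n + 1) * (w n)⁻¹) : ℝ) = dist (e (v (γ (n + 1 : ℕ)))) (e (v (γ n))) := by
      rw [he]; simp only [hw]; congr 2; group
    have h1 := hv1 (γ (n + 1 : ℕ))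
    have h2 := hv1 (γ n)
    have h3 := (hγ.le (show ((n : ℕ) : ℝ≥0) ≤ ((n + 1 : ℕ) : ℝ≥0) by exact_mod_cast Nat.le_succ n)).2
    push_cast at h3
    have h4 : dist (e (v (γ (n + 1 : ℕ)))) (e (v (γ n))) ≤
        dist (e (v (γ (n + 1 : ℕ)))) (γ (n + 1 : ℕ)) + dist (γ (n + 1 : ℕ)) (γ n) +
          dist (γ n) (e (v (γ n))) := by
      have := dist_triangle (e (v (γ (n + 1 : ℕ)))) (γ (n + 1 : ℕ)) (e (v (γ n)))
      have := dist_triangle (γ (n + 1 : ℕ)) (γ n) (e (v (γ n)))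
      linarith
    rw [dist_comm (γ n) (e (v (γ n))), dist_comm (γ (n + 1 : ℕ)) (γ n)] at h4
    push_cast at h4 h1
    have h5 : (nm (w (n + 1) * (w n)⁻¹) : ℝ) ≤ K := by
      rw [e1, hK]
      push_cast
      linarith
    exact_mod_cast h5
  obtain ⟨p, hp1, hp2, hp3⟩ := path_of_coarse (show 0 < K by omega) w hstep
  have hwn : ∀ n : ℕ, n ≤ q' * (nm (w n) + Q' + 1) := by
    intro n
    have e1 : (nm (w n) : ℝ) = dist (e (v (γ n))) (γ 0) := by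
      rw [hγ0, ray, he]; simp [hw]
    have h2 := hv1 (γ n)
    have h3 := (hγ.le (show (0 : ℝ≥0) ≤ (n : ℝ≥0) from bot_le)).1
    have h4 := dist_triangle (γ 0) (e (v (γ n))) (γ n)
    rw [dist_comm (γ 0) (e (v (γ n)))] at h4
    simp only [NNReal.coe_natCast, NNReal.coe_zero, sub_zero] at h3
    have h5 : (n : ℝ) / q ≤ nm (w n) + Q + 1 := by rw [e1]; linarith
    rw [div_le_iff₀ (by linarith)] at h5
    have h6 : (n : ℝ) ≤ q' * (nm (w n) + Q' + 1) := by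
      calc (n : ℝ) ≤ (nm (w n) + Q + 1) * q := h5
        _ ≤ (nm (w n) + Q' + 1) * q' := by
          apply mul_le_mul (by linarith) hq' (by linarith) (by positivity)
        _ = _ := by ring
    exact_mod_cast h6
  have hlow : ∀ m, K * r0 ≤ m → m ≤ A * nm (p m) + B := by
    intro m _
    have h1 := hwn (m / K)
    have h2 := hp3 m
    have h3 : nm (w (m / K)) ≤ nm (p m) + K := by
      have := nm_mul (p m * (w (m / K))⁻¹)⁻¹ (p m)
      rw [nm_inv] at this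
      have e1 : (p m * (w (m / K))⁻¹)⁻¹ * p m = w (m / K) := by group
      rw [e1] at this
      omega
    have h4 : m ≤ K * (m / K + 1) := by
      have h5 := Nat.div_add_mod m K
      have h6 := Nat.mod_lt m (show 0 < K by omega)
      rw [mul_add]; omega
    have h7 : m / K ≤ q' * (nm (p m) + K + Q' + 1) :=
      h1.trans (Nat.mul_le_mul_left _ (by omega))
    calc m ≤ K * (m / K + 1) := h4
      _ ≤ K * (q' * (nm (p m) + K + Q' + 1) + 1) := Nat.mul_le_mul_left _ (by omega)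
      _ = A * nm (p m) + B := by rw [hA, hB]; ring
  have hApos : 0 < A := by rw [hA]; positivity
  refine no_cross hp2 hApos hlow (m0 := K * r0) (x := r0) ?_ ?_ ?_
  · rw [hp1]
    have h1 := hv2 (γ (r0 : ℕ)) ⟨_, hγr.symm⟩
    rw [hγr] at h1
    have h2 := einj _ _ h1
    simp only [hw]
    rw [hγr, h2, mul_inv_cancel_right, Nat.floor_natCast, zpow_natCast]
  · have h1 : 1 * r0 ≤ K * r0 := Nat.mul_le_mul_right _ (by omega)
    omega
  · obtain ⟨N, hN⟩ := exists_nat_ge tγ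
    refine ⟨K * (N + r0), Nat.mul_le_mul_left _ (by omega), ?_⟩
    rw [hp1]
    have h3 : γ ((N + r0 : ℕ) : ℝ≥0) = ray e k (((N + r0 : ℕ) : ℝ≥0) + tβ) := by
      apply hev
      refine hN.trans ?_
      push_cast
      simp
    have h1 := hv2 (γ ((N + r0 : ℕ) : ℝ≥0)) ⟨_, h3.symm⟩
    rw [h3] at h1
    have h2 := einj _ _ h1
    simp only [hw]
    rw [h3, h2]
    generalize ⌊((N + r0 : ℕ) : ℝ≥0) + tβ⌋₊ = M
    have e1 : a3 ^ M * d3 ^ k * (d3 ^ j)⁻¹ * d3 = a3 ^ (M : ℤ) * d3 ^ ((k : ℤ) - j + 1) := by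
      rw [zpow_add_one, zpow_sub, zpow_natCast, zpow_natCast, zpow_natCast]; group
    rw [e1, (InH.tot_an M).F, F_dn, if_neg (by omega)]

end

end Pool.Agent.V8H67.QR
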