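import Pool.Agent.V8H67.QR.Grp

set_option autoImplicit false

namespace Pool.Agent.V8H67.QR

theorem zpow_add {G : Type*} [Group G] (s : G) (h w : G → ℤ) (H : ∀ g, h (s * g) = h g + w g)
    (W : ∀ g, w (s * g) = w g) (n : ℤ) (g : G) : h (s ^ n * g) = h g + n * w g := by
  have W' : ∀ n : ℤ, ∀ g, w (s ^ n * g) = w g := by
    intro n
    induction n using Int.induction_on with
    | zero => simp
    | succ n ih => intro g; rw [zpow_add_one, mul_assoc, ih, W]
    | pred n ih =>
      intro g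
      rw [zpow_sub_one, mul_assoc, ih]
      conv_rhs => rw [← mul_inv_cancel_left s g, W]
  induction n using Int.induction_on with
  | zero => simp
  | succ n ih =>
    rw [add_comm, _root_.zpow_add, zpow_one, mul_assoc, H, ih, W']
    ring
  | pred n ih =>
    have : s ^ (-(n : ℤ)) * g = s * (s ^ (-(n : ℤ) - 1) * g) := by
      rw [← mul_assoc, ← zpow_one_add]; congr 2; ring
    rw [this, H, W'] at ih
    linarith

/-! ### coordinates on `G2` -/

/-- `(v, m) ↦ (v + [m = k], m)` -/
def sh (k : ℤ) : Equiv.Perm (ℤ × ℤ) where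
  toFun p := (p.1 + if p.2 = k then 1 else 0, p.2)
  invFun p := (p.1 - if p.2 = k then 1 else 0, p.2)
  left_inv p := by simp
  right_inv p := by simp

/-- `(v, m) ↦ (v, m + 1)` -/
def up : Equiv.Perm (ℤ × ℤ) where
  toFun p := (p.1, p.2 + 1)
  invFun p := (p.1, p.2 - 1)
  left_inv p := by simp
  right_inv p := by simp

theorem sh_apply (k : ℤ) (p : ℤ × ℤ) : sh k p = (p.1 + if p.2 = k then 1 else 0, p.2) := rfl
theorem up_apply (p : ℤ × ℤ) : up p = (p.1, p.2 + 1) := rfl

/-- the action of `G2` on `ℤ × ℤ` -/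
def actX : G2 →* Equiv.Perm (ℤ × ℤ) := lift2 (sh 0) (sh 1) up
  (by ext p <;> simp [sh]; ring)
  (by ext p <;> simp [sh, up])

/-- the coordinate function -/
def X (g : G2) : ℤ := (actX g (0, 0)).1

/-- the exponent sum in `c` -/
def lv (g : G2) : ℤ := (actX g (0, 0)).2

@[simp] theorem X_one : X 1 = 0 := by simp [X]
@[simp] theorem lv_one : lv 1 = 0 := by simp [lv]
theorem X_a (g : G2) : X (a2 * g) = X g + if lv g = 0 then 1 else 0 := by
  simp only [X, lv, actX, map_mul, lift2_a, Equiv.Perm.mul_apply, sh_apply]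
  rfl
theorem X_b (g : G2) : X (b2 * g) = X g + if lv g = 1 then 1 else 0 := by
  simp only [X, lv, actX, map_mul, lift2_b, Equiv.Perm.mul_apply, sh_apply]
  rfl
@[simp] theorem X_c (g : G2) : X (c2 * g) = X g := by simp [X, actX, up]
@[simp] theorem lv_a (g : G2) : lv (a2 * g) = lv g := by simp [lv, actX, sh]
@[simp] theorem lv_b (g : G2) : lv (b2 * g) = lv g := by simp [lv, actX, sh]
@[simp] theorem lv_c (g : G2) : lv (c2 * g) = lv g + 1 := by simp [lv, actX, up]

@[simp] theorem lv_an (n : ℤ) (g : G2) : lv (a2 ^ n * g) = lv g := by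
  simpa using zpow_add a2 lv (fun _ => 0) (by simp) (by simp) n g
@[simp] theorem lv_bn (n : ℤ) (g : G2) : lv (b2 ^ n * g) = lv g := by
  simpa using zpow_add b2 lv (fun _ => 0) (by simp) (by simp) n g
@[simp] theorem lv_cn (n : ℤ) (g : G2) : lv (c2 ^ n * g) = lv g + n := by
  simpa using zpow_add c2 lv (fun _ => 1) (by simp) (by simp) n g
theorem X_an (n : ℤ) (g : G2) : X (a2 ^ n * g) = X g + if lv g = 0 then n else 0 := by
  have := zpow_add a2 X (fun g => if lv g = 0 then 1 else 0) X_a (by simp) n g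
  simpa using this
theorem X_bn (n : ℤ) (g : G2) : X (b2 ^ n * g) = X g + if lv g = 1 then n else 0 := by
  have := zpow_add b2 X (fun g => if lv g = 1 then 1 else 0) X_b (by simp) n g
  simpa using this
@[simp] theorem X_cn (n : ℤ) (g : G2) : X (c2 ^ n * g) = X g := by
  simpa using zpow_add c2 X (fun _ => 0) (by simp) (by simp) n g

@[simp] theorem lv_mul (g h : G2) : lv (g * h) = lv g + lv h := by
  induction g using ind2 with
  | h1 => simp
  | ha g => simp [mul_assoc]
  | hb g => simp [mul_assoc]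
  | hc g => rw [mul_assoc, lv_c, lv_c]; constructor <;> intro _ <;> linarith

@[simp] theorem lv_an' (n : ℤ) : lv (a2 ^ n) = 0 := by simpa using lv_an n 1
@[simp] theorem lv_bn' (n : ℤ) : lv (b2 ^ n) = 0 := by simpa using lv_bn n 1
@[simp] theorem lv_cn' (n : ℤ) : lv (c2 ^ n) = n := by simpa using lv_cn n 1
@[simp] theorem X_cn' (n : ℤ) : X (c2 ^ n) = 0 := by simpa using X_cn n 1

/-! ### walls -/

/-- `(g, v) ↦ (t g, v)` -/
def lm {G : Type} [Group G] (t : G) : Equiv.Perm (G × ℤ) where
  toFun p := (t * p.1, p.2)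
  invFun p := (t⁻¹ * p.1, p.2)
  left_inv p := by simp
  right_inv p := by simp

open Classical in
/-- `(g, v) ↦ (t g, v + [g ∈ ⟨s⟩])` -/
noncomputable def cr {G : Type} [Group G] (s t : G) : Equiv.Perm (G × ℤ) where
  toFun p := (t * p.1, p.2 + if p.1 ∈ Subgroup.zpowers s then 1 else 0)
  invFun p := (t⁻¹ * p.1, p.2 - if t⁻¹ * p.1 ∈ Subgroup.zpowers s then 1 else 0)
  left_inv p := by simp
  right_inv p := by simp

theorem mem_zp {G : Type} [Group G] (s g : G) :
    s * g ∈ Subgroup.zpowers s ↔ g ∈ Subgroup.zpowers s :=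
  Subgroup.mul_mem_cancel_left _ (Subgroup.mem_zpowers s)

/-- the action of `G2` recording the crossings of the strip over `⟨a⟩` -/
noncomputable def actf : G2 →* Equiv.Perm (G2 × ℤ) := lift2 (lm a2) (lm b2) (cr a2 c2)
  (by ext p <;> simp [lm, ← mul_assoc, ab2])
  (by ext p <;> simp [lm, cr, ← mul_assoc, ca2, mem_zp])

/-- the side function of the strip over `⟨a⟩` -/
noncomputable def f (g : G2) : ℤ := (actf g (1, 0)).2

theorem actf_fst (g : G2) : (actf g (1, 0)).1 = g := by
  induction g using ind2 with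
  | h1 => simp
  | ha g => simp [actf, lm]
  | hb g => simp [actf, lm]
  | hc g => simp [actf, cr]

@[simp] theorem f_one : f 1 = 0 := by simp [f]
@[simp] theorem f_a (g : G2) : f (a2 * g) = f g := by simp [f, actf, lm]
@[simp] theorem f_b (g : G2) : f (b2 * g) = f g := by simp [f, actf, lm]
open Classical in
theorem f_c (g : G2) : f (c2 * g) = f g + if g ∈ Subgroup.zpowers a2 then 1 else 0 := by
  have := actf_fst g
  simp only [f]
  rw [map_mul, Equiv.Perm.mul_apply]
  conv_lhs => rw [show actf c2 = cr a2 c2 by simp [actf]]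
  simp [cr, this]

@[simp] theorem f_an (n : ℤ) (g : G2) : f (a2 ^ n * g) = f g := by
  simpa using zpow_add a2 f (fun _ => 0) (by simp) (by simp) n g
@[simp] theorem f_bn (n : ℤ) (g : G2) : f (b2 ^ n * g) = f g := by
  simpa using zpow_add b2 f (fun _ => 0) (by simp) (by simp) n g

theorem f_of_mem {g : G2} (h : g ∈ Subgroup.zpowers a2) : f g = 0 := by
  obtain ⟨n, rfl⟩ := Subgroup.mem_zpowers_iff.1 h
  simpa using f_an n 1

theorem f_01 (g : G2) : f g = 0 ∨ f g = 1 := by
  induction g using ind2 with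
  | h1 => simp
  | ha g => simp
  | hb g => simp
  | hc g =>
    rw [f_c]
    by_cases h : g ∈ Subgroup.zpowers a2
    · simp [h, f_of_mem h]
    · simp [h]

/-! ### the automorphism exchanging `a` and `b` -/

/-- the automorphism `a ↦ b`, `b ↦ a`, `c ↦ c⁻¹` -/
def sig : G2 →* G2 := lift2 b2 a2 c2⁻¹ ab2.symm (by
  rw [inv_mul_eq_iff_eq_mul, ← mul_assoc, eq_mul_inv_iff_mul_eq, ca2])

@[simp] theorem sig_a : sig a2 = b2 := by simp [sig]
@[simp] theorem sig_b : sig b2 = a2 := by simp [sig]
@[simp] theorem sig_c : sig c2 = c2⁻¹ := by simp [sig]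

@[simp] theorem sig_sig (g : G2) : sig (sig g) = g := by
  induction g using ind2 with
  | h1 => simp
  | ha g => simp
  | hb g => simp
  | hc g => simp

end Pool.Agent.V8H67.QR
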