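import Pool.Agent.V8H67.QR.Coc

set_option autoImplicit false

namespace Pool.Agent.V8H67.QR

/-! ### the embedding `G2 → G3` and the projection `G3 → G2` -/

/-- the embedding -/
def io : G2 →* G3 := lift2 a3 b3 c3 ab3 ca3

@[simp] theorem io_a : io a2 = a3 := by simp [io]
@[simp] theorem io_b : io b2 = b3 := by simp [io]
@[simp] theorem io_c : io c2 = c3 := by simp [io]

/-- weights -/
def wA (n : ℤ) : G2 := if n = 0 then a2 else if n = -1 then c2 else 1
/-- weights -/
def wB (n : ℤ) : G2 := if n = 0 then b2 else if n = -1 then c2 else 1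
/-- weights -/
def wC (n : ℤ) : G2 := if n = 0 then c2 else if n = 1 then a2 else 1

/-- `(h, n) ↦ (w n h, n)` -/
def tw (w : ℤ → G2) : Equiv.Perm (G2 × ℤ) where
  toFun p := (w p.2 * p.1, p.2)
  invFun p := ((w p.2)⁻¹ * p.1, p.2)
  left_inv p := by simp
  right_inv p := by simp

/-- `(h, n) ↦ (h, n + 1)` -/
def up3 : Equiv.Perm (G2 × ℤ) where
  toFun p := (p.1, p.2 + 1)
  invFun p := (p.1, p.2 - 1)
  left_inv p := by simp
  right_inv p := by simp

theorem tw_apply (w : ℤ → G2) (p : G2 × ℤ) : tw w p = (w p.2 * p.1, p.2) := rfl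
theorem up3_apply (p : G2 × ℤ) : up3 p = (p.1, p.2 + 1) := rfl

theorem wAB (n : ℤ) : wA n * wB n = wB n * wA n := by
  unfold wA wB
  split_ifs <;> simp [ab2]

theorem wCA (n : ℤ) : wC n * wA n = wB n * wC n := by
  unfold wA wB wC
  split_ifs <;> first | (exfalso; omega) | simp [ca2]

theorem wAC (n : ℤ) : wA n = wC (n + 1) := by
  unfold wA wC
  split_ifs <;> first | (exfalso; omega) | rfl

/-- the action of `G3` on `G2 × ℤ` -/
def actP : G3 →* Equiv.Perm (G2 × ℤ) := lift3 (tw wA) (tw wB) (tw wC) up3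
  (by ext p <;> simp [tw_apply, ← mul_assoc, wAB])
  (by ext p <;> simp [tw_apply, ← mul_assoc, wCA])
  (by ext p <;> simp [tw_apply, up3_apply, wAC])

/-- the projection to `G2` -/
def Pr (g : G3) : G2 := (actP g (1, 0)).1

/-- the exponent sum in `d` -/
def lw (g : G3) : ℤ := (actP g (1, 0)).2

@[simp] theorem Pr_one : Pr 1 = 1 := by simp [Pr]
@[simp] theorem lw_one : lw 1 = 0 := by simp [lw]
theorem Pr_a (g : G3) : Pr (a3 * g) = wA (lw g) * Pr g := by
  simp [Pr, lw, actP, tw_apply]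
theorem Pr_b (g : G3) : Pr (b3 * g) = wB (lw g) * Pr g := by
  simp [Pr, lw, actP, tw_apply]
theorem Pr_c (g : G3) : Pr (c3 * g) = wC (lw g) * Pr g := by
  simp [Pr, lw, actP, tw_apply]
@[simp] theorem Pr_d (g : G3) : Pr (d3 * g) = Pr g := by
  simp [Pr, actP, up3_apply]
@[simp] theorem lw_a (g : G3) : lw (a3 * g) = lw g := by simp [lw, actP, tw_apply]
@[simp] theorem lw_b (g : G3) : lw (b3 * g) = lw g := by simp [lw, actP, tw_apply]
@[simp] theorem lw_c (g : G3) : lw (c3 * g) = lw g := by simp [lw, actP, tw_apply]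
@[simp] theorem lw_d (g : G3) : lw (d3 * g) = lw g + 1 := by simp [lw, actP, up3_apply]

@[simp] theorem lw_mul (g h : G3) : lw (g * h) = lw g + lw h := by
  induction g using ind3 with
  | h1 => simp
  | ha g => simp [mul_assoc]
  | hb g => simp [mul_assoc]
  | hc g => simp [mul_assoc]
  | hd g => rw [mul_assoc, lw_d, lw_d]; constructor <;> intro _ <;> linarith

@[simp] theorem lw_inv (g : G3) : lw g⁻¹ = -lw g := by
  have := lw_mul g g⁻¹
  rw [mul_inv_cancel, lw_one] at this
  linarith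

@[simp] theorem lw_dn (n : ℤ) : lw (d3 ^ n) = n := by
  have := zpow_add d3 lw (fun _ => 1) (fun g => lw_d g) (by simp) n 1
  simpa using this

@[simp] theorem lw_a' : lw a3 = 0 := by simpa using lw_a 1
@[simp] theorem lw_b' : lw b3 = 0 := by simpa using lw_b 1
@[simp] theorem lw_c' : lw c3 = 0 := by simpa using lw_c 1
@[simp] theorem lw_d' : lw d3 = 1 := by simpa using lw_d 1

@[simp] theorem lw_io (h : G2) : lw (io h) = 0 := by
  induction h using ind2 with
  | h1 => simp
  | ha g => simp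
  | hb g => simp
  | hc g => simp

theorem Pr_io_mul (h : G2) (g : G3) (hg : lw g = 0) : Pr (io h * g) = h * Pr g := by
  induction h using ind2 with
  | h1 => simp
  | ha h => rw [map_mul, io_a, mul_assoc, Pr_a]; simp [hg, wA, mul_assoc]
  | hb h => rw [map_mul, io_b, mul_assoc, Pr_b]; simp [hg, wB, mul_assoc]
  | hc h => rw [map_mul, io_c, mul_assoc, Pr_c]; simp [hg, wC, mul_assoc]

@[simp] theorem Pr_io (h : G2) : Pr (io h) = h := by
  simpa using Pr_io_mul h 1 (by simp)

theorem io_inj {g h : G2} (e : io g = io h) : g = h := by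
  rw [← Pr_io g, e, Pr_io]

theorem Pr_an (n : ℕ) (g : G3) (hg : lw g = -1) : Pr (a3 ^ n * g) = c2 ^ n * Pr g := by
  induction n with
  | zero => simp
  | succ n ih =>
    have h1 : lw (a3 ^ n * g) = -1 := by
      rw [lw_mul, hg]
      have : lw (a3 ^ n) = 0 := by
        clear ih
        induction n with
        | zero => simp
        | succ n ih => rw [pow_succ, lw_mul, ih]; simp
      linarith
    rw [pow_succ', mul_assoc, Pr_a, ih, h1, pow_succ', mul_assoc]
    simp [wA]

/-! ### strips in `G3` -/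

/-- the action of `G3` recording the crossings of the strip over `⟨a⟩` -/
noncomputable def actF : G3 →* Equiv.Perm (G3 × ℤ) :=
  lift3 (lm a3) (lm b3) (lm c3) (cr a3 d3)
  (by ext p <;> simp [lm, ← mul_assoc, ab3])
  (by ext p <;> simp [lm, ← mul_assoc, ca3])
  (by ext p <;> simp [lm, cr, ← mul_assoc, da3, mem_zp])

/-- the side function of the strip over `⟨a⟩` -/
noncomputable def F (g : G3) : ℤ := (actF g (1, 0)).2

theorem actF_fst (g : G3) : (actF g (1, 0)).1 = g := by
  induction g using ind3 with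
  | h1 => simp
  | ha g => simp [actF, lm]
  | hb g => simp [actF, lm]
  | hc g => simp [actF, lm]
  | hd g => simp [actF, cr]

@[simp] theorem F_one : F 1 = 0 := by simp [F]
@[simp] theorem F_a (g : G3) : F (a3 * g) = F g := by simp [F, actF, lm]
@[simp] theorem F_b (g : G3) : F (b3 * g) = F g := by simp [F, actF, lm]
@[simp] theorem F_c (g : G3) : F (c3 * g) = F g := by simp [F, actF, lm]
open Classical in
theorem F_d (g : G3) : F (d3 * g) = F g + if g ∈ Subgroup.zpowers a3 then 1 else 0 := by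
  have := actF_fst g
  simp only [F]
  rw [map_mul, Equiv.Perm.mul_apply]
  conv_lhs => rw [show actF d3 = cr a3 d3 by simp [actF]]
  simp [cr, this]

@[simp] theorem F_io (h : G2) (g : G3) : F (io h * g) = F g := by
  induction h using ind2 with
  | h1 => simp
  | ha h => simp [mul_assoc]
  | hb h => simp [mul_assoc]
  | hc h => simp [mul_assoc]

theorem F_of_mem {g : G3} (h : g ∈ Subgroup.zpowers a3) : F g = 0 := by
  obtain ⟨n, rfl⟩ := Subgroup.mem_zpowers_iff.1 h
  have : a3 ^ n = io (a2 ^ n) * 1 := by simp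
  rw [this, F_io, F_one]

theorem F_01 (g : G3) : F g = 0 ∨ F g = 1 := by
  induction g using ind3 with
  | h1 => simp
  | ha g => simp
  | hb g => simp
  | hc g => simp
  | hd g =>
    rw [F_d]
    by_cases h : g ∈ Subgroup.zpowers a3
    · simp [h, F_of_mem h]
    · simp [h]

theorem lw_zp {g : G3} (h : g ∈ Subgroup.zpowers a3) : lw g = 0 := by
  obtain ⟨n, rfl⟩ := Subgroup.mem_zpowers_iff.1 h
  have : a3 ^ n = io (a2 ^ n) := by simp
  rw [this, lw_io]

theorem F_dn_pos (n : ℕ) : F (d3 ^ ((n : ℤ) + 1)) = 1 := by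
  induction n with
  | zero =>
    have h : (1 : G3) ∈ Subgroup.zpowers a3 := Subgroup.one_mem _
    have := F_d 1
    simp only [h, if_true, F_one, mul_one] at this
    simpa using this
  | succ n ih =>
    rw [Nat.cast_succ, add_comm ((n : ℤ) + 1) 1, zpow_one_add, F_d, ih]
    have : ¬ (d3 ^ ((n : ℤ) + 1)) ∈ Subgroup.zpowers a3 := by
      intro h
      have := lw_zp h
      rw [lw_dn] at this
      omega
    simp [this]

theorem F_dn_neg (n : ℕ) : F (d3 ^ (-(n : ℤ))) = 0 := by
  induction n with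
  | zero => simp
  | succ n ih =>
    have h1 : d3 ^ (-(n : ℤ)) = d3 * d3 ^ (-((n + 1 : ℕ) : ℤ)) := by
      rw [← zpow_one_add]; congr 1; push_cast; ring
    rw [h1, F_d] at ih
    have : ¬ (d3 ^ (-((n + 1 : ℕ) : ℤ))) ∈ Subgroup.zpowers a3 := by
      intro h
      have := lw_zp h
      rw [lw_dn] at this
      omega
    rw [if_neg this, add_zero] at ih
    exact ih

theorem F_dn (n : ℤ) : F (d3 ^ n) = if 0 < n then 1 else 0 := by
  split_ifs with h
  · obtain ⟨m, rfl⟩ : ∃ m : ℕ, n = m + 1 := ⟨(n - 1).toNat, by omega⟩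
    exact F_dn_pos m
  · obtain ⟨m, rfl⟩ : ∃ m : ℕ, n = -m := ⟨(-n).toNat, by omega⟩
    exact F_dn_neg m

/-! ### consequences in `G2` -/

theorem f_cn_pos (n : ℕ) : f (c2 ^ ((n : ℤ) + 1)) = 1 := by
  induction n with
  | zero =>
    have h : (1 : G2) ∈ Subgroup.zpowers a2 := Subgroup.one_mem _
    have := f_c 1
    simp only [h, if_true, f_one, mul_one] at this
    simpa using this
  | succ n ih =>
    rw [Nat.cast_succ, add_comm ((n : ℤ) + 1) 1, zpow_one_add, f_c, ih]
    have : ¬ (c2 ^ ((n : ℤ) + 1)) ∈ Subgroup.zpowers a2 := by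
      intro h
      obtain ⟨m, hm⟩ := Subgroup.mem_zpowers_iff.1 h
      have := congrArg lv hm
      rw [lv_an', lv_cn'] at this
      omega
    simp [this]

theorem f_cn_neg (n : ℕ) : f (c2 ^ (-(n : ℤ))) = 0 := by
  induction n with
  | zero => simp
  | succ n ih =>
    have h1 : c2 ^ (-(n : ℤ)) = c2 * c2 ^ (-((n + 1 : ℕ) : ℤ)) := by
      rw [← zpow_one_add]; congr 1; push_cast; ring
    rw [h1, f_c] at ih
    have : ¬ (c2 ^ (-((n + 1 : ℕ) : ℤ))) ∈ Subgroup.zpowers a2 := by
      intro h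
      obtain ⟨m, hm⟩ := Subgroup.mem_zpowers_iff.1 h
      have := congrArg lv hm
      rw [lv_an', lv_cn'] at this
      omega
    rw [if_neg this, add_zero] at ih
    exact ih

theorem f_cn (n : ℤ) : f (c2 ^ n) = if 0 < n then 1 else 0 := by
  split_ifs with h
  · obtain ⟨m, rfl⟩ : ∃ m : ℕ, n = m + 1 := ⟨(n - 1).toNat, by omega⟩
    exact f_cn_pos m
  · obtain ⟨m, rfl⟩ : ∃ m : ℕ, n = -m := ⟨(-n).toNat, by omega⟩
    exact f_cn_neg m

/-- the total exponent of `a, b, c` -/
def ph : G3 →* Multiplicative ℤ :=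
  lift3 (Multiplicative.ofAdd 1) (Multiplicative.ofAdd 1) (Multiplicative.ofAdd 1) 1 rfl rfl
    (by simp)

end Pool.Agent.V8H67.QR
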