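import Mathlib

/-!
Definitions: the group, word norms, Cayley graphs, divergence, quasi-geodesic rays and
quasi-redirecting.

Author: helper67.
-/

set_option autoImplicit false

namespace Pool.Agent.V8H67.QR

open scoped NNReal ENNReal

/-! ### the group -/

/-- Four generators. -/
inductive Gn | a | b | c | d

/-- The relators of `⟨a, b, c, d | a b = b a, c a = b c, d a = c d⟩`. -/
def rels3 : Set (FreeGroup Gn) :=
  {FreeGroup.of Gn.a * FreeGroup.of Gn.b * (FreeGroup.of Gn.a)⁻¹ * (FreeGroup.of Gn.b)⁻¹,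
   FreeGroup.of Gn.c * FreeGroup.of Gn.a * (FreeGroup.of Gn.c)⁻¹ * (FreeGroup.of Gn.b)⁻¹,
   FreeGroup.of Gn.d * FreeGroup.of Gn.a * (FreeGroup.of Gn.d)⁻¹ * (FreeGroup.of Gn.c)⁻¹}

/-- The group `⟨a, b, c, d | a b = b a, c a = b c, d a = c d⟩`. -/
abbrev G3 : Type := PresentedGroup rels3

/-- the generator `a` -/
def a3 : G3 := PresentedGroup.of Gn.a
/-- the generator `b` -/
def b3 : G3 := PresentedGroup.of Gn.b
/-- the generator `c` -/
def c3 : G3 := PresentedGroup.of Gn.c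
/-- the generator `d` -/
def d3 : G3 := PresentedGroup.of Gn.d

/-- the generating set `{a, b, c, d}` -/
def S3 : Set G3 := {a3, b3, c3, d3}

/-! ### Cayley graphs -/

/-- `g` is a product of `n` elements of `S ∪ S⁻¹` -/
def IsWord {G : Type} [Group G] (S : Set G) (n : ℕ) (g : G) : Prop :=
  ∃ l : List G, l.length = n ∧ (∀ x ∈ l, x ∈ S ∨ x⁻¹ ∈ S) ∧ l.prod = g

/-- the word norm of `g` with respect to `S` -/
noncomputable def wnorm {G : Type} [Group G] (S : Set G) (g : G) : ℕ := sInf {n | IsWord S n g}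

/-- every two points `x, y` are joined by a geodesic, parametrised on `[0, d(x, y)]` -/
def IsGeodesic (X : Type) [MetricSpace X] : Prop :=
  ∀ x y : X, ∃ c : ℝ → X, c 0 = x ∧ c (dist x y) = y ∧
    ∀ s t, 0 ≤ s → s ≤ t → t ≤ dist x y → dist (c s) (c t) = t - s

/-- `X`, with the vertices `ι g`, is the Cayley graph of `G` with respect to `S`, a metric graph with
edges of length one: the distance of the vertices `ι g`, `ι h` is the word norm of `g⁻¹ h`, every point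
lies on an edge from a vertex `ι g` to a vertex `ι (g s)`, `s ∈ S`, and every two points are joined by a
geodesic. -/
def IsCayleyGraph {G : Type} [Group G] (S : Set G) {X : Type} [MetricSpace X] (ι : G → X) : Prop :=
  (∀ g h, dist (ι g) (ι h) = wnorm S (g⁻¹ * h)) ∧
    (∀ x, ∃ g, ∃ s ∈ S, dist (ι g) x + dist x (ι (g * s)) = 1) ∧ IsGeodesic X

/-! ### divergence -/

/-- there is a path of length at most `L` from `x` to `y` in the complement of `A` (a `1`-Lipschitz map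
on `[0, L]`) -/
def PathAvoid {X : Type} [MetricSpace X] (A : Set X) (L : ℝ) (x y : X) : Prop :=
  0 ≤ L ∧ ∃ c : ℝ → X, c 0 = x ∧ c L = y ∧
    (∀ s t, 0 ≤ s → s ≤ t → t ≤ L → dist (c s) (c t) ≤ t - s) ∧ ∀ t, 0 ≤ t → t ≤ L → c t ∉ A

/-- `div_γ(x, y, c; δ)`: the infimum of the lengths of the paths from `x` to `y` avoiding the open ball
`B(c, δ r - γ)`, `r = min {d(c, x), d(c, y)}` (`∞` if there are none) -/
noncomputable def dv {X : Type} [MetricSpace X] (γ δ : ℝ) (x y c : X) : ℝ≥0∞ :=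
  ⨅ (L : ℝ) (_ : PathAvoid (Metric.ball c (δ * min (dist c x) (dist c y) - γ)) L x y),
    ENNReal.ofReal L

/-- `Div_γ(n, δ)`: the supremum of `div_γ(x, y, c; δ)` over all `x, y, c` with
`min {d(c, x), d(c, y)} > 0` and `d(x, y) ≤ n` -/
noncomputable def Dv (X : Type) [MetricSpace X] (γ δ : ℝ) (n : ℕ) : ℝ≥0∞ :=
  ⨆ (x : X) (y : X) (c : X) (_ : 0 < min (dist c x) (dist c y)) (_ : dist x y ≤ n), dv γ δ x y c

/-- `f ⪯ g`: `f(n) ≤ C g(C n + C) + C n + C` for some `C` and all `n` -/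
def Dom (f g : ℕ → ℝ≥0∞) : Prop :=
  ∃ C : ℕ, ∀ n : ℕ, f n ≤ C * g (C * n + C) + C * n + C

/-! ### quasi-redirecting -/

/-- `α : [0, ∞) → X` is a `(q, Q)`-quasi-geodesic ray, `q ≥ 1`, `Q ≥ 0` -/
def IsQG {X : Type} [MetricSpace X] (q Q : ℝ) (α : ℝ≥0 → X) : Prop :=
  1 ≤ q ∧ 0 ≤ Q ∧ ∀ s t : ℝ≥0, |(s : ℝ) - t| / q - Q ≤ dist (α s) (α t) ∧
    dist (α s) (α t) ≤ q * |(s : ℝ) - t| + Q

/-- `α ≼ β`: there are `q, Q` such that for every `r > 0` there is a `(q, Q)`-quasi-geodesic ray `γ`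
which agrees with `α` inside the ball `B(α(0), r)` and eventually coincides with `β`. -/
def Redirects {X : Type} [MetricSpace X] (α β : ℝ≥0 → X) : Prop :=
  ∃ q Q : ℝ, ∀ r : ℝ, 0 < r → ∃ γ : ℝ≥0 → X, IsQG q Q γ ∧
    (∀ t, dist (α 0) (α t) < r ∨ dist (α 0) (γ t) < r → γ t = α t) ∧
    ∃ tβ tγ : ℝ≥0, 0 < tβ ∧ 0 < tγ ∧ ∀ t, tγ ≤ t → γ t = β (t + tβ)

/-- the quasi-geodesic rays of `X` -/
def Ray (X : Type) [MetricSpace X] : Type := {α : ℝ≥0 → X // ∃ q Q : ℝ, IsQG q Q α}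

/-- the height of a poset: the supremum of the cardinalities of its chains -/
noncomputable def height (P : Type) [PartialOrder P] : ℕ∞ :=
  ⨆ t : {t : Set P // IsChain (· ≤ ·) t}, t.val.encard

end Pool.Agent.V8H67.QR
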