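import Pool.Agent.V8H67.QR.Defs

/-!
Divergence.

Author: helper67.
-/

set_option autoImplicit false

namespace Pool.Agent.V8H67.QR

open scoped NNReal ENNReal

section
variable {X : Type} [MetricSpace X]

theorem PathAvoid.mono {A A' : Set X} {L : ℝ} {x y : X} (h : PathAvoid A L x y) (hA : A' ⊆ A) :
    PathAvoid A' L x y := by
  obtain ⟨h0, c, h1, h2, h3, h4⟩ := h
  exact ⟨h0, c, h1, h2, h3, fun t a b hc => h4 t a b (hA hc)⟩

theorem PathAvoid.symm {A : Set X} {L : ℝ} {x y : X} (h : PathAvoid A L x y) :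
    PathAvoid A L y x := by
  obtain ⟨h0, c, h1, h2, h3, h4⟩ := h
  refine ⟨h0, fun t => c (L - t), by simpa using h2, by simpa using h1, ?_, ?_⟩
  · intro s t hs hst ht
    rw [dist_comm]
    have := h3 (L - t) (L - s) (by linarith) (by linarith) (by linarith)
    linarith
  · intro t ht ht'
    exact h4 _ (by linarith) (by linarith)

theorem PathAvoid.trans {A : Set X} {L L' : ℝ} {x y z : X} (h : PathAvoid A L x y)
    (h' : PathAvoid A L' y z) : PathAvoid A (L + L') x z := by
  obtain ⟨h0, c, h1, h2, h3, h4⟩ := h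
  obtain ⟨h0', c', h1', h2', h3', h4'⟩ := h'
  refine ⟨by linarith, fun t => if t ≤ L then c t else c' (t - L), ?_, ?_, ?_, ?_⟩
  · simp only [if_pos h0, h1]
  · rcases h0'.lt_or_eq with h | h
    · simp only [if_neg (show ¬ L + L' ≤ L by linarith), add_sub_cancel_left, h2']
    · simp only [← h, add_zero, le_refl, if_true, h2]
      rw [← h] at h2'
      rw [← h2', h1']
  · intro s t hs hst ht
    by_cases a : t ≤ L
    · simp only [if_pos a, if_pos (hst.trans a)]
      exact h3 s t hs hst a
    · by_cases b : s ≤ L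
      · simp only [if_neg a, if_pos b]
        have e1 := h3 s L hs b le_rfl
        have e2 := h3' 0 (t - L) le_rfl (by linarith) (by linarith)
        rw [h2] at e1
        rw [h1'] at e2
        have := dist_triangle (c s) y (c' (t - L))
        linarith
      · simp only [if_neg a, if_neg b]
        have := h3' (s - L) (t - L) (by linarith) (by linarith) (by linarith)
        linarith
  · intro t ht ht'
    by_cases a : t ≤ L
    · simp only [if_pos a]
      exact h4 t ht a
    · simp only [if_neg a]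
      exact h4' _ (by linarith) (by linarith)

/-- geodesics are paths -/
theorem path_of_geo (hX : IsGeodesic X) {A : Set X} (x y : X)
    (hA : ∀ z, dist x z + dist z y = dist x y → z ∉ A) : PathAvoid A (dist x y) x y := by
  obtain ⟨c, h1, h2, h3⟩ := hX x y
  refine ⟨dist_nonneg, c, h1, h2, fun s t a b d => (h3 s t a b d).le, fun t ht ht' => ?_⟩
  apply hA
  have e1 := h3 0 t le_rfl ht ht'
  have e2 := h3 t (dist x y) ht ht' le_rfl
  rw [h1] at e1
  rw [h2] at e2
  rw [e1, e2]
  ring

theorem dv_le {γ δ : ℝ} {x y c : X} {L : ℝ}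
    (h : PathAvoid (Metric.ball c (δ * min (dist c x) (dist c y) - γ)) L x y) :
    dv γ δ x y c ≤ ENNReal.ofReal L := iInf₂_le L h

theorem le_Dv {γ δ : ℝ} {x y c : X} {n : ℕ} (h : 0 < min (dist c x) (dist c y))
    (hn : dist x y ≤ n) : dv γ δ x y c ≤ Dv X γ δ n :=
  le_iSup_of_le x (le_iSup_of_le y (le_iSup_of_le c (le_iSup_of_le h (le_iSup_of_le hn le_rfl))))

theorem Dv_mono {γ δ : ℝ} {n m : ℕ} (h : n ≤ m) : Dv X γ δ n ≤ Dv X γ δ m := by
  refine iSup_le fun x => iSup_le fun y => iSup_le fun c => iSup_le fun h1 => iSup_le fun h2 => ?_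
  exact le_Dv h1 (h2.trans (by exact_mod_cast h))

end

end Pool.Agent.V8H67.QR
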