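import Pool.Agent.V8H67.QR.Wall

set_option autoImplicit false

namespace Pool.Agent.V8H67.QR

theorem dan (n : ℤ) : d3 * a3 ^ n = c3 ^ n * d3 := by
  have h : d3 * a3 * d3⁻¹ = c3 := by rw [da3]; group
  have h2 : d3 * a3 ^ n * d3⁻¹ = c3 ^ n := by
    rw [← conj_zpow, h]
  rw [← h2]; group

/-- an edge of the Cayley graph of `G3`, or nothing -/
def St3 (x y : G3) : Prop :=
  y = x ∨ y = a3 * x ∨ x = a3 * y ∨ y = b3 * x ∨ x = b3 * y ∨ y = c3 * x ∨ x = c3 * y ∨
    y = d3 * x ∨ x = d3 * y

theorem St3.mul {x y : G3} (h : St3 x y) (u : G3) : St3 (x * u) (y * u) := by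
  rcases h with h | h | h | h | h | h | h | h | h <;> subst h <;> unfold St3 <;>
    simp [mul_assoc]

theorem St3.symm {x y : G3} (h : St3 x y) : St3 y x := by
  rcases h with h | h | h | h | h | h | h | h | h <;> subst h <;> unfold St3 <;> simp

theorem F_up {x y : G3} (h : St3 x y) (hx : F x = 0) (hy : F y = 1) :
    ∃ n : ℤ, x = a3 ^ n ∧ y = d3 * a3 ^ n := by
  rcases h with h | h | h | h | h | h | h | h | h <;> subst h
  · rw [hx] at hy; exact absurd hy (by norm_num)
  · rw [F_a, hx] at hy; exact absurd hy (by norm_num)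
  · rw [F_a, hy] at hx; exact absurd hx (by norm_num)
  · rw [F_b, hx] at hy; exact absurd hy (by norm_num)
  · rw [F_b, hy] at hx; exact absurd hx (by norm_num)
  · rw [F_c, hx] at hy; exact absurd hy (by norm_num)
  · rw [F_c, hy] at hx; exact absurd hx (by norm_num)
  · rw [F_d, hx] at hy
    have hm : x ∈ Subgroup.zpowers a3 := by
      by_contra hc
      rw [if_neg hc] at hy
      norm_num at hy
    obtain ⟨n, rfl⟩ := Subgroup.mem_zpowers_iff.1 hm
    exact ⟨n, rfl, rfl⟩
  · rw [F_d, hy] at hx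
    split_ifs at hx <;> norm_num at hx

theorem F_down {x y : G3} (h : St3 x y) (hx : F x = 1) (hy : F y = 0) :
    ∃ n : ℤ, y = a3 ^ n ∧ x = d3 * a3 ^ n := F_up h.symm hy hx

theorem wA_cases (n : ℤ) : wA n = a2 ∨ wA n = c2 ∨ wA n = 1 := by
  unfold wA; split_ifs <;> simp
theorem wB_cases (n : ℤ) : wB n = b2 ∨ wB n = c2 ∨ wB n = 1 := by
  unfold wB; split_ifs <;> simp
theorem wC_cases (n : ℤ) : wC n = c2 ∨ wC n = a2 ∨ wC n = 1 := by
  unfold wC; split_ifs <;> simp

theorem St3.pr {x y : G3} (h : St3 x y) : St2 (Pr x) (Pr y) := by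
  rcases h with h | h | h | h | h | h | h | h | h <;> subst h <;> unfold St2
  · simp
  · rw [Pr_a]; rcases wA_cases (lw x) with e | e | e <;> simp [e]
  · rw [Pr_a]; rcases wA_cases (lw y) with e | e | e <;> simp [e]
  · rw [Pr_b]; rcases wB_cases (lw x) with e | e | e <;> simp [e]
  · rw [Pr_b]; rcases wB_cases (lw y) with e | e | e <;> simp [e]
  · rw [Pr_c]; rcases wC_cases (lw x) with e | e | e <;> simp [e]
  · rw [Pr_c]; rcases wC_cases (lw y) with e | e | e <;> simp [e]
  · simp
  · simp

/-- the total exponent of `a, b, c` -/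
def tot (g : G3) : ℤ := (ph g).toAdd

@[simp] theorem tot_one : tot 1 = 0 := by simp [tot]
@[simp] theorem tot_mul (g h : G3) : tot (g * h) = tot g + tot h := by simp [tot]
@[simp] theorem tot_a : tot a3 = 1 := by simp [tot, ph]
@[simp] theorem tot_b : tot b3 = 1 := by simp [tot, ph]
@[simp] theorem tot_c : tot c3 = 1 := by simp [tot, ph]
@[simp] theorem tot_d : tot d3 = 0 := by simp [tot, ph]
@[simp] theorem tot_zpow (g : G3) (n : ℤ) : tot (g ^ n) = n * tot g := by simp [tot]
@[simp] theorem tot_pow (g : G3) (n : ℕ) : tot (g ^ n) = n * tot g := by simp [tot]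
@[simp] theorem tot_inv (g : G3) : tot g⁻¹ = - tot g := by simp [tot]

theorem St3.tot {x y : G3} (h : St3 x y) : |tot y - tot x| ≤ 1 := by
  rcases h with h | h | h | h | h | h | h | h | h <;> subst h <;> simp

theorem lip_tot {p : ℕ → G3} (hp : ∀ m, St3 (p m) (p (m + 1))) {m n : ℕ} (hmn : m ≤ n) :
    |tot (p n) - tot (p m)| ≤ n - m := by
  induction n, hmn using Nat.le_induction with
  | base => simp
  | succ n hmn ih =>
    have := (hp n).tot
    rw [abs_le] at this ih ⊢
    push_cast
    constructor <;> linarith [this.1, this.2, ih.1, ih.2]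

theorem first_change (P : ℕ → Prop) {m m' : ℕ} (h : m < m') (h0 : ¬ P m) (h1 : P m') :
    ∃ k, m ≤ k ∧ k < m' ∧ (∀ j, m ≤ j → j ≤ k → ¬ P j) ∧ P (k + 1) := by
  classical
  have hex : ∃ n, P (m + n) := ⟨m' - m, by rwa [show m + (m' - m) = m' by omega]⟩
  have hpos : Nat.find hex ≠ 0 := by
    intro h
    have := Nat.find_spec hex
    rw [h] at this
    exact h0 (by simpa using this)
  have hle : Nat.find hex ≤ m' - m := Nat.find_min' hex (by rwa [show m + (m' - m) = m' by omega])
  refine ⟨m + Nat.find hex - 1, by omega, by omega, ?_, ?_⟩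
  · intro j hj1 hj2 hPj
    have := Nat.find_min hex (m := j - m) (by omega)
    rw [show m + (j - m) = j by omega] at this
    exact this hPj
  · have := Nat.find_spec hex
    rwa [show m + Nat.find hex - 1 + 1 = m + Nat.find hex by omega]

/-- being in the vertex group -/
def InH (g : G3) : Prop := g ∈ io.range

theorem InH.of (h : G2) : InH (io h) := ⟨h, rfl⟩

theorem InH.mul {g h : G3} (hg : InH g) (hh : InH h) : InH (g * h) := io.range.mul_mem hg hh
theorem InH.inv {g : G3} (hg : InH g) : InH g⁻¹ := io.range.inv_mem hg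
theorem InH.a : InH a3 := ⟨a2, by simp⟩
theorem InH.b : InH b3 := ⟨b2, by simp⟩
theorem InH.c : InH c3 := ⟨c2, by simp⟩

theorem InH.eq {g : G3} (h : InH g) : g = io (Pr g) := by
  obtain ⟨x, rfl⟩ := h
  simp

theorem InH.lw {g : G3} (h : InH g) : lw g = 0 := by
  obtain ⟨x, rfl⟩ := h
  simp

theorem InH.F {g : G3} (h : InH g) (u : G3) : F (g * u) = F u := by
  obtain ⟨x, rfl⟩ := h
  simp

theorem InH.tot_an (n : ℤ) : InH (a3 ^ n) := ⟨a2 ^ n, by simp⟩
theorem InH.tot_cn (n : ℤ) : InH (c3 ^ n) := ⟨c2 ^ n, by simp⟩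

theorem Pr_mul_of {g h : G3} (hg : InH g) (hh : lw h = 0) : Pr (g * h) = Pr g * Pr h := by
  obtain ⟨x, rfl⟩ := hg
  rw [Pr_io_mul x h hh, Pr_io]

theorem Fd3 : F d3 = 1 := by
  have := F_dn 1
  simpa using this

/-- THE EXCURSIONS. -/
theorem excursion {p : ℕ → G3} (hp : ∀ m, St3 (p m) (p (m + 1))) {m m' : ℕ} (hmm : m < m')
    (hV : InH (p m)) (hV' : InH (p m')) (hno : ∀ k, m < k → k < m' → ¬ InH (p k))
    (hF : ∀ k, m ≤ k → k ≤ m' → F (p k * d3) = 1) :
    Mv (Pr (p m)) (Pr (p m')) (m' - m) := by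
  have hPa : Pr a3 = a2 := by simpa using Pr_io a2
  have hPb : Pr b3 = b2 := by simpa using Pr_io b2
  have hPc : Pr c3 = c2 := by simpa using Pr_io c2
  rcases Nat.lt_or_ge (m + 1) m' with hlt | hge
  · -- a real excursion
    have hout : ¬ InH (p (m + 1)) := hno (m + 1) (by omega) hlt
    have hst := hp m
    rcases hst with h | h | h | h | h | h | h | h | h
    · exact absurd (h ▸ hV) hout
    · exact absurd (h ▸ InH.a.mul hV) hout
    · exact absurd (by rw [show p (m + 1) = a3⁻¹ * p m by rw [h]; group]; exact InH.a.inv.mul hV) hout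
    · exact absurd (h ▸ InH.b.mul hV) hout
    · exact absurd (by rw [show p (m + 1) = b3⁻¹ * p m by rw [h]; group]; exact InH.b.inv.mul hV) hout
    · exact absurd (h ▸ InH.c.mul hV) hout
    · exact absurd (by rw [show p (m + 1) = c3⁻¹ * p m by rw [h]; group]; exact InH.c.inv.mul hV) hout
    · -- leaving through `d`
      have hG1 : ¬ (F (p (m + 1) * (p m)⁻¹) = 0) := by
        rw [h, mul_inv_cancel_right, Fd3]; norm_num
      have hG2 : F (p m' * (p m)⁻¹) = 0 := by
        rw [hV'.F]
        have := hV.inv.F 1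
        simpa using this
      obtain ⟨k, hk1, hk2, hk3, hk4⟩ := first_change (fun k => F (p k * (p m)⁻¹) = 0) hlt hG1 hG2
      have hk5 : F (p k * (p m)⁻¹) = 1 := by
        rcases F_01 (p k * (p m)⁻¹) with h | h
        · exact absurd h (hk3 k hk1 le_rfl)
        · exact h
      obtain ⟨n, hn, -⟩ := F_down ((hp k).mul (p m)⁻¹) hk5 hk4
      have hn' : p (k + 1) = a3 ^ n * p m := by rw [← hn]; group
      have hin : InH (p (k + 1)) := by rw [hn']; exact (InH.tot_an n).mul hV
      have hkm : k + 1 = m' := by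
        by_contra hne
        exact hno (k + 1) (by omega) (by omega) hin
      rw [hkm] at hn'
      left
      refine ⟨n, ?_, Or.inl ?_⟩
      · have := lip_tot hp hmm.le
        rw [hn', tot_mul, tot_zpow, tot_a, add_sub_cancel_right, mul_one, abs_le] at this
        omega
      · rw [hn', Pr_mul_of (InH.tot_an n) hV.lw]
        congr 1
        have : a3 ^ n = io (a2 ^ n) := by simp
        rw [this, Pr_io]
    · -- leaving through `d⁻¹`
      set u := p (m + 1) with hu
      have hG1 : ¬ (F (p (m + 1) * u⁻¹) = 1) := by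
        rw [mul_inv_cancel, F_one]; norm_num
      have hG2 : F (p m' * u⁻¹) = 1 := by
        have : p m' * u⁻¹ = (p m' * (p m)⁻¹) * d3 := by rw [h]; group
        rw [this, (hV'.mul hV.inv).F, Fd3]
      obtain ⟨k, hk1, hk2, hk3, hk4⟩ := first_change (fun k => F (p k * u⁻¹) = 1) hlt hG1 hG2
      have hk5 : F (p k * u⁻¹) = 0 := by
        rcases F_01 (p k * u⁻¹) with h | h
        · exact h
        · exact absurd h (hk3 k hk1 le_rfl)
      obtain ⟨n, -, hn⟩ := F_up ((hp k).mul u⁻¹) hk5 hk4
      have hn' : p (k + 1) = c3 ^ n * p m := by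
        rw [h, ← mul_assoc, ← dan, ← hn]; group
      have hin : InH (p (k + 1)) := by rw [hn']; exact (InH.tot_cn n).mul hV
      have hkm : k + 1 = m' := by
        by_contra hne
        exact hno (k + 1) (by omega) (by omega) hin
      rw [hkm] at hn'
      right; right
      refine ⟨n, ?_, ?_, ?_⟩
      · have := lip_tot hp hmm.le
        rw [hn', tot_mul, tot_zpow, tot_c, add_sub_cancel_right, mul_one, abs_le] at this
        omega
      · rw [hn', Pr_mul_of (InH.tot_cn n) hV.lw]
        congr 1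
        have : c3 ^ n = io (c2 ^ n) := by simp
        rw [this, Pr_io]
      · intro hc
        obtain ⟨i, hi⟩ := Subgroup.mem_zpowers_iff.1 hc
        have hpm : p m = c3 ^ i := by
          rw [hV.eq, ← hi]; simp
        have hud : u * d3 = a3 ^ i := by
          have : u = d3⁻¹ * c3 ^ i := by rw [← hpm, h]; group
          rw [this, mul_assoc, ← dan]; group
        have := hF (m + 1) (by omega) (by omega)
        rw [← hu, hud] at this
        have h2 := (InH.tot_an i).F 1
        simp at h2
        rw [h2] at this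
        norm_num at this
  · -- a single step
    have hm' : m' = m + 1 := by omega
    subst hm'
    rcases hp m with h | h | h | h | h | h | h | h | h
    · left; exact ⟨0, by simp, Or.inl (by rw [h]; simp)⟩
    · left; exact ⟨1, by simp, Or.inl (by rw [h, Pr_mul_of InH.a hV.lw, hPa]; simp)⟩
    · left
      refine ⟨-1, by simp, Or.inl (by rw [h, Pr_mul_of InH.a hV'.lw, hPa]; simp)⟩
    · left; exact ⟨1, by simp, Or.inr (by rw [h, Pr_mul_of InH.b hV.lw, hPb]; simp)⟩
    · left
      refine ⟨-1, by simp, Or.inr (by rw [h, Pr_mul_of InH.b hV'.lw, hPb]; simp)⟩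
    · right; left; left; rw [h, Pr_mul_of InH.c hV.lw, hPc]
    · right; left; right; rw [h, Pr_mul_of InH.c hV'.lw, hPc]
    · exfalso
      have := hV'.lw
      rw [h, lw_d, hV.lw] at this
      norm_num at this
    · exfalso
      have := hV.lw
      rw [h, lw_d, hV'.lw] at this
      norm_num at this

end Pool.Agent.V8H67.QR
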