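import Pool.Agent.V8H67.QR.Defs

/-!
The group `⟨a, b, c, d | a b = b a, c a = b c, d a = c d⟩` and its subgroup `⟨a, b, c⟩`: homomorphisms,
cocycles and coordinates, all by the universal property.

Author: helper67.
-/

set_option autoImplicit false

namespace Pool.Agent.V8H67.QR

/-- Three generators. -/
inductive Gm | a | b | c

/-- relators of `G2` -/
def rels2 : Set (FreeGroup Gm) :=
  {FreeGroup.of Gm.a * FreeGroup.of Gm.b * (FreeGroup.of Gm.a)⁻¹ * (FreeGroup.of Gm.b)⁻¹,
   FreeGroup.of Gm.c * FreeGroup.of Gm.a * (FreeGroup.of Gm.c)⁻¹ * (FreeGroup.of Gm.b)⁻¹}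

/-- `⟨a, b, c | a b = b a, c a = b c⟩` -/
abbrev G2 : Type := PresentedGroup rels2

/-- generator -/
def a2 : G2 := PresentedGroup.of Gm.a
/-- generator -/
def b2 : G2 := PresentedGroup.of Gm.b
/-- generator -/
def c2 : G2 := PresentedGroup.of Gm.c
section
variable {K : Type*} [Group K]

theorem rel_eq {x y z w : K} (h : x * y = z * w) : x * y * w⁻¹ * z⁻¹ = 1 := by
  rw [h]; group

theorem rel_eq' {x y z w : K} (h : x * y * w⁻¹ * z⁻¹ = 1) : x * y = z * w := by
  have : x * y = (x * y * w⁻¹ * z⁻¹) * z * w := by group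
  rw [this, h, one_mul]

theorem ab2 : a2 * b2 = b2 * a2 := by
  apply rel_eq'
  have : (PresentedGroup.mk rels2) (FreeGroup.of Gm.a * FreeGroup.of Gm.b * (FreeGroup.of Gm.a)⁻¹ *
    (FreeGroup.of Gm.b)⁻¹) = 1 := PresentedGroup.one_of_mem (by simp [rels2])
  simpa [a2, b2, PresentedGroup.of] using this

theorem ca2 : c2 * a2 = b2 * c2 := by
  apply rel_eq'
  have : (PresentedGroup.mk rels2) (FreeGroup.of Gm.c * FreeGroup.of Gm.a * (FreeGroup.of Gm.c)⁻¹ *
    (FreeGroup.of Gm.b)⁻¹) = 1 := PresentedGroup.one_of_mem (by simp [rels2])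
  simpa [a2, b2, c2, PresentedGroup.of] using this

theorem ab3 : a3 * b3 = b3 * a3 := by
  apply rel_eq'
  have : (PresentedGroup.mk rels3) (FreeGroup.of Gn.a * FreeGroup.of Gn.b * (FreeGroup.of Gn.a)⁻¹ *
    (FreeGroup.of Gn.b)⁻¹) = 1 := PresentedGroup.one_of_mem (by simp [rels3])
  simpa [a3, b3, PresentedGroup.of] using this

theorem ca3 : c3 * a3 = b3 * c3 := by
  apply rel_eq'
  have : (PresentedGroup.mk rels3) (FreeGroup.of Gn.c * FreeGroup.of Gn.a * (FreeGroup.of Gn.c)⁻¹ *
    (FreeGroup.of Gn.b)⁻¹) = 1 := PresentedGroup.one_of_mem (by simp [rels3])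
  simpa [a3, b3, c3, PresentedGroup.of] using this

theorem da3 : d3 * a3 = c3 * d3 := by
  apply rel_eq'
  have : (PresentedGroup.mk rels3) (FreeGroup.of Gn.d * FreeGroup.of Gn.a * (FreeGroup.of Gn.d)⁻¹ *
    (FreeGroup.of Gn.c)⁻¹) = 1 := PresentedGroup.one_of_mem (by simp [rels3])
  simpa [a3, d3, c3, PresentedGroup.of] using this

/-- the universal property of `G2` -/
def lift2 (A B C : K) (h1 : A * B = B * A) (h2 : C * A = B * C) : G2 →* K :=
  PresentedGroup.toGroup (f := fun x => match x with | .a => A | .b => B | .c => C) (by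
    intro r hr
    rcases hr with rfl | rfl
    · simpa using rel_eq h1
    · simpa using rel_eq h2)

variable (A B C D : K) (h1 : A * B = B * A) (h2 : C * A = B * C) (h3 : D * A = C * D)

@[simp] theorem lift2_a : lift2 A B C h1 h2 a2 = A := by simp [lift2, a2]
@[simp] theorem lift2_b : lift2 A B C h1 h2 b2 = B := by simp [lift2, b2]
@[simp] theorem lift2_c : lift2 A B C h1 h2 c2 = C := by simp [lift2, c2]

/-- the universal property of `G3` -/
def lift3 (A B C D : K) (h1 : A * B = B * A) (h2 : C * A = B * C) (h3 : D * A = C * D) : G3 →* K :=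
  PresentedGroup.toGroup (f := fun x => match x with | .a => A | .b => B | .c => C | .d => D) (by
    intro r hr
    rcases hr with rfl | rfl | rfl
    · simpa using rel_eq h1
    · simpa using rel_eq h2
    · simpa using rel_eq h3)

@[simp] theorem lift3_a : lift3 A B C D h1 h2 h3 a3 = A := by simp [lift3, a3]
@[simp] theorem lift3_b : lift3 A B C D h1 h2 h3 b3 = B := by simp [lift3, b3]
@[simp] theorem lift3_c : lift3 A B C D h1 h2 h3 c3 = C := by simp [lift3, c3]
@[simp] theorem lift3_d : lift3 A B C D h1 h2 h3 d3 = D := by simp [lift3, d3]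

end

/-- induction over `G2` by left multiplication by generators -/
theorem ind2 {P : G2 → Prop} (h1 : P 1) (ha : ∀ g, P g ↔ P (a2 * g)) (hb : ∀ g, P g ↔ P (b2 * g))
    (hc : ∀ g, P g ↔ P (c2 * g)) (g : G2) : P g := by
  have key : ∀ w : FreeGroup Gm, ∀ g : G2, P g ↔ P (PresentedGroup.mk rels2 w * g) := by
    intro w
    induction w using FreeGroup.induction_on with
    | C1 => intro g; simp
    | of x =>
      intro g
      cases x with
      | a => exact ha g
      | b => exact hb g
      | c => exact hc g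
    | inv_of x ih =>
      intro g
      have := ih (PresentedGroup.mk rels2 (FreeGroup.of x)⁻¹ * g)
      rw [← mul_assoc, ← map_mul, mul_inv_cancel, map_one, one_mul] at this
      exact this.symm
    | mul x y hx hy =>
      intro g
      rw [map_mul, mul_assoc]
      exact (hy g).trans (hx _)
  obtain ⟨w, rfl⟩ := PresentedGroup.mk_surjective rels2 g
  have := (key w 1).1 h1
  simpa using this

/-- induction over `G3` by left multiplication by generators -/
theorem ind3 {P : G3 → Prop} (h1 : P 1) (ha : ∀ g, P g ↔ P (a3 * g)) (hb : ∀ g, P g ↔ P (b3 * g))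
    (hc : ∀ g, P g ↔ P (c3 * g)) (hd : ∀ g, P g ↔ P (d3 * g)) (g : G3) : P g := by
  have key : ∀ w : FreeGroup Gn, ∀ g : G3, P g ↔ P (PresentedGroup.mk rels3 w * g) := by
    intro w
    induction w using FreeGroup.induction_on with
    | C1 => intro g; simp
    | of x =>
      intro g
      cases x with
      | a => exact ha g
      | b => exact hb g
      | c => exact hc g
      | d => exact hd g
    | inv_of x ih =>
      intro g
      have := ih (PresentedGroup.mk rels3 (FreeGroup.of x)⁻¹ * g)
      rw [← mul_assoc, ← map_mul, mul_inv_cancel, map_one, one_mul] at this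
      exact this.symm
    | mul x y hx hy =>
      intro g
      rw [map_mul, mul_assoc]
      exact (hy g).trans (hx _)
  obtain ⟨w, rfl⟩ := PresentedGroup.mk_surjective rels3 g
  have := (key w 1).1 h1
  simpa using this

end Pool.Agent.V8H67.QR
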