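import Pool.Agent.V8H67.QR.Main

set_option autoImplicit false

namespace Pool.Agent.V8H67.QR

open scoped NNReal ENNReal

/-- the preorder `≼` on the quasi-geodesic rays -/
instance (X : Type) [MetricSpace X] : Preorder (Ray X) where
  le α β := Redirects α.1 β.1
  le_refl α := by
    obtain ⟨q, Q, h⟩ := α.2
    exact Redirects.refl h
  le_trans α β δ h1 h2 := Redirects.trans β.2 h1 h2

/-- the QR-poset: the classes of the quasi-geodesic rays for the relation `α ≼ β ∧ β ≼ α`, ordered by `≼` -/
abbrev QRPoset (X : Type) [MetricSpace X] : Type := Antisymmetrization (Ray X) (· ≤ ·)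

theorem height_top {P : Type} [PartialOrder P] (c : ℕ → P) (hc : StrictMono c) : height P = ⊤ := by
  rw [eq_top_iff]
  have h : IsChain (· ≤ ·) (Set.range c) := by
    rintro _ ⟨i, rfl⟩ _ ⟨j, rfl⟩ _
    rcases le_total i j with h | h
    · exact Or.inl (hc.monotone h)
    · exact Or.inr (hc.monotone h)
  have h2 : (Set.range c).encard = ⊤ := (Set.infinite_range_of_injective hc.injective).encard_eq
  rw [← h2]
  exact le_iSup (fun t : {t : Set P // IsChain (· ≤ ·) t} => t.val.encard) ⟨_, h⟩

theorem height_X {X : Type} [MetricSpace X] {e : G3 → X}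
    (he : ∀ g h, dist (e g) (e h) = nm (g * h⁻¹)) (hn : ∀ x, ∃ g, dist (e g) x ≤ 1) :
    height (QRPoset X) = ⊤ := by
  set c : ℕ → Ray X := fun k => ⟨ray e k, 1, 1, ray_QG he k⟩ with hc
  have hmono : StrictMono c := by
    apply strictMono_nat_of_lt_succ
    intro k
    rw [lt_iff_le_not_ge]
    exact ⟨redirect_succ he k, not_redirect he hn (Nat.lt_succ_self k)⟩
  apply height_top (fun k => toAntisymmetrization (· ≤ ·) (c k))
  intro i j hij
  exact toAntisymmetrization_lt_toAntisymmetrization_iff.2 (hmono hij)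

end Pool.Agent.V8H67.QR
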