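import Pool.Agent.V8H67.QR.Norm

set_option autoImplicit false

namespace Pool.Agent.V8H67.QR

theorem St2.sig {x y : G2} (h : St2 x y) : St2 (sig x) (sig y) := by
  rcases h with h | h | h | h | h | h | h <;> subst h <;> unfold St2 <;> simp

theorem zp_sig {x : G2} (h : sig x ∈ Subgroup.zpowers c2) : x ∈ Subgroup.zpowers c2 := by
  obtain ⟨n, hn⟩ := Subgroup.mem_zpowers_iff.1 h
  have := congrArg sig hn
  rw [sig_sig, map_zpow, sig_c] at this
  rw [← this]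
  exact Subgroup.zpow_mem _ (Subgroup.inv_mem _ (Subgroup.mem_zpowers c2)) n

theorem Mv.sig {x y : G2} {t : ℕ} (h : Mv x y t) : Mv (sig x) (sig y) t := by
  rcases h with ⟨n, hn, h | h⟩ | (h | h) | ⟨n, hn, h, hc⟩
  · left; exact ⟨n, hn, Or.inr (by rw [h]; simp)⟩
  · left; exact ⟨n, hn, Or.inl (by rw [h]; simp)⟩
  · right; left; right; rw [h]; simp
  · right; left; left; rw [h]; simp
  · right; right
    refine ⟨-n, by simpa using hn, by rw [h]; simp, fun h => hc (zp_sig h)⟩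

theorem nm_word (k : ℕ) (n : ℤ) (l : ℕ) :
    nm (io (c2 ^ (k : ℤ) * b2 ^ n * c2 ^ ((l : ℤ) + 1))) ≤ k + n.natAbs + l + 1 := by
  have h1 := nm_c k
  have h2 := nm_b n
  have h3 := nm_c ((l : ℤ) + 1)
  have h4 := nm_mul (c3 ^ (k : ℤ)) (b3 ^ n)
  have h5 := nm_mul (c3 ^ (k : ℤ) * b3 ^ n) (c3 ^ ((l : ℤ) + 1))
  have e : io (c2 ^ (k : ℤ) * b2 ^ n * c2 ^ ((l : ℤ) + 1)) =
    c3 ^ (k : ℤ) * b3 ^ n * c3 ^ ((l : ℤ) + 1) := by
    rw [map_mul, map_mul, map_zpow, map_zpow, map_zpow, io_c, io_b]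
  rw [e]
  omega

theorem nm_word' (k : ℕ) (n : ℤ) (l : ℕ) :
    nm (io (sig (c2 ^ (k : ℤ) * b2 ^ n * c2 ^ ((l : ℤ) + 1)))) ≤ k + n.natAbs + l + 1 := by
  have h1 := nm_c (-(k : ℤ))
  have h2 := nm_a n
  have h3 := nm_c (-((l : ℤ) + 1))
  have h4 := nm_mul (c3 ^ (-(k : ℤ))) (a3 ^ n)
  have h5 := nm_mul (c3 ^ (-(k : ℤ)) * a3 ^ n) (c3 ^ (-((l : ℤ) + 1)))
  have e : io (sig (c2 ^ (k : ℤ) * b2 ^ n * c2 ^ ((l : ℤ) + 1))) =
    c3 ^ (-(k : ℤ)) * a3 ^ n * c3 ^ (-((l : ℤ) + 1)) := by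
    rw [map_mul, map_mul, map_mul, map_mul, map_zpow, map_zpow, map_zpow, map_zpow, map_zpow,
      map_zpow, sig_c, sig_b, map_inv, io_a, io_c, inv_zpow', inv_zpow']
  rw [e]
  omega

/-- THE WALLS IN `G3`. -/
theorem walls3 {p : ℕ → G3} (hp : ∀ m, St3 (p m) (p (m + 1))) {m0 m1 : ℕ} {x y : ℤ} (hm : m0 ≤ m1)
    (h0 : p m0 = a3 ^ x) (h1 : p m1 = c3 ^ y)
    (hF : ∀ k, m0 ≤ k → k ≤ m1 → F (p k * d3) = 1) :
    ∃ T : ℕ → ℕ, ∀ l < y.natAbs, m0 ≤ T l ∧ T l ≤ m1 ∧ ∃ n k : ℕ, nm (p (T l)) ≤ k + n + l + 1 ∧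
      (l + 1 < y.natAbs → T l + n ≤ T (l + 1) ∧ T l + k ≤ T (l + 1)) := by
  have V0 : InH (p m0) := by rw [h0]; exact InH.tot_an x
  have V1 : InH (p m1) := by rw [h1]; exact InH.tot_cn y
  have e0 : Pr (p m0) = a2 ^ x := by
    rw [h0]
    have : a3 ^ x = io (a2 ^ x) := by simp
    rw [this, Pr_io]
  have e1 : Pr (p m1) = c2 ^ y := by
    rw [h1]
    have : c3 ^ y = io (c2 ^ y) := by simp
    rw [this, Pr_io]
  have hV : ∀ m m', m0 ≤ m → m < m' → m' ≤ m1 → InH (p m) → InH (p m') →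
      (∀ k, m < k → k < m' → ¬ InH (p k)) → Mv (Pr (p m)) (Pr (p m')) (m' - m) := by
    intro m m' h2 h3 h4 h5 h6 h7
    exact excursion hp h3 h5 h6 h7 (fun k hk hk' => hF k (by omega) (by omega))
  rcases le_total 0 y with hy | hy
  · obtain ⟨w, rfl⟩ : ∃ w : ℕ, y = w := ⟨y.toNat, by omega⟩
    obtain ⟨T, hT⟩ := walls (z := fun m => Pr (p m)) (V := fun m => InH (p m)) (y := w)
      (fun m => (hp m).pr) hm V0 V1 hV (by
        intro l
        show f (Pr (p m0) * c2 ^ (-(l : ℤ))) = 0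
        rw [e0, f_an, f_cn, if_neg (by omega)]) e1
    refine ⟨T, fun l hl => ?_⟩
    obtain ⟨i1, i2, i3, n, k, i4, i5⟩ := hT l (by simpa using hl)
    refine ⟨i2, i3, n.natAbs, k, ?_, ?_⟩
    · rw [i1.eq]
      have : Pr (p (T l)) = _ := i4
      rw [this]
      exact nm_word k n l
    · intro hl1
      exact i5 (by simpa using hl1)
  · obtain ⟨w, rfl⟩ : ∃ w : ℕ, y = -w := ⟨(-y).toNat, by omega⟩
    obtain ⟨T, hT⟩ := walls (z := fun m => sig (Pr (p m))) (V := fun m => InH (p m)) (y := w)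
      (fun m => (hp m).pr.sig) hm V0 V1 (fun m m' a1 a2 a3 a4 a5 a6 => (hV m m' a1 a2 a3 a4 a5 a6).sig)
      (by
        intro l
        show f (sig (Pr (p m0)) * c2 ^ (-(l : ℤ))) = 0
        rw [e0, map_zpow, sig_a, f_bn, f_cn, if_neg (by omega)]) (by
        show sig (Pr (p m1)) = _
        rw [e1, map_zpow, sig_c, inv_zpow', neg_neg])
    refine ⟨T, fun l hl => ?_⟩
    obtain ⟨i1, i2, i3, n, k, i4, i5⟩ := hT l (by simpa using hl)
    refine ⟨i2, i3, n.natAbs, k, ?_, ?_⟩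
    · rw [i1.eq]
      have : sig (Pr (p (T l))) = _ := i4
      rw [← sig_sig (Pr (p (T l))), this]
      exact nm_word' k n l
    · intro hl1
      exact i5 (by simpa using hl1)

/-- the quadratic lower bound -/
theorem quad_lower {p : ℕ → G3} (hp : ∀ m, St3 (p m) (p (m + 1))) {k0 k1 r : ℕ} {x y : ℤ}
    (hk : k0 ≤ k1) (h0 : p k0 = c3 ^ y) (h1 : p k1 = a3 ^ x)
    (hF : ∀ k, k0 ≤ k → k ≤ k1 → F (p k * d3) = 1) (hr : ∀ k, k0 ≤ k → k ≤ k1 → r ≤ nm (p k)) :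
    r * r ≤ 8 * (k1 - k0) + 1 := by
  -- the reversed path
  set q : ℕ → G3 := fun m => p (k1 - m) with hq
  have hq' : ∀ m, St3 (q m) (q (m + 1)) := by
    intro m
    simp only [hq]
    rcases Nat.lt_or_ge m k1 with h | h
    · have := (hp (k1 - (m + 1))).symm
      rwa [show k1 - (m + 1) + 1 = k1 - m by omega] at this
    · rw [show k1 - m = 0 by omega, show k1 - (m + 1) = 0 by omega]
      exact Or.inl rfl
  obtain ⟨T, hT⟩ := walls3 hq' (m0 := 0) (m1 := k1 - k0) (x := x) (y := y) (Nat.zero_le _)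
    (by simp [hq, h1]) (by simp only [hq]; rw [show k1 - (k1 - k0) = k0 by omega, h0])
    (fun k _ hk' => hF _ (by omega) (by omega))
  have hy : r ≤ y.natAbs := by
    have := hr k0 le_rfl hk
    rw [h0] at this
    exact this.trans (nm_c y)
  have key : ∀ l, l < r → l * (r - l) ≤ 2 * T l := by
    intro l
    induction l with
    | zero => simp
    | succ l ih =>
      intro hl
      have ih := ih (by omega)
      obtain ⟨i1, i2, n, k, i3, i4⟩ := hT l (by omega)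
      have i4 := i4 (by omega)
      have h5 := hr (k1 - T l) (by omega) (by omega)
      have h6 : r ≤ k + n + l + 1 := h5.trans i3
      have h7 : r ≤ 2 * (T (l + 1) - T l) + l + 1 := by omega
      obtain ⟨s, rfl⟩ : ∃ s, r = l + 1 + s := ⟨r - (l + 1), by omega⟩
      rw [show l + 1 + s - (l + 1) = s by omega]
      rw [show l + 1 + s - l = s + 1 by omega] at ih
      nlinarith
  rcases Nat.eq_zero_or_pos r with h | h
  · subst h; simp
  · have h2 := key (r / 2) (by omega)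
    obtain ⟨-, h3, -⟩ := hT (r / 2) (by omega)
    have h4 : r * r ≤ 4 * (r / 2 * (r - r / 2)) + 1 := by
      rcases Nat.even_or_odd' r with ⟨s, h | h⟩
      · subst h
        rw [show 2 * s / 2 = s by omega, show 2 * s - s = s by omega]
        nlinarith
      · subst h
        rw [show (2 * s + 1) / 2 = s by omega, show 2 * s + 1 - s = s + 1 by omega]
        nlinarith
    omega

end Pool.Agent.V8H67.QR
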