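import Pool.Agent.V8H67.QR.Lower

set_option autoImplicit false

namespace Pool.Agent.V8H67.QR

/-- no quasi-geodesic crosses the strip below -/
theorem no_cross {p : ℕ → G3} (hp : ∀ m, St3 (p m) (p (m + 1))) {A B m0 : ℕ} (hA : 0 < A)
    (hlow : ∀ m, m0 ≤ m → m ≤ A * nm (p m) + B) {x : ℤ} (h0 : p m0 = a3 ^ x)
    (hbig : 8 * A * A + A + B ≤ m0) (hend : ∃ m, m0 ≤ m ∧ F (p m * d3) = 0) : False := by
  obtain ⟨m', hm', hF'⟩ := hend
  have hF0 : F (p m0 * d3) = 1 := by rw [h0, (InH.tot_an x).F, Fd3]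
  have hlt : m0 < m' := by
    rcases hm'.lt_or_eq with h | h
    · exact h
    · rw [← h, hF0] at hF'
      exact absurd hF' (by norm_num)
  obtain ⟨E, hE1, hE2, hE3, hE4⟩ := first_change (fun k => F (p k * d3) = 0) hlt
    (by rw [hF0]; norm_num) hF'
  have hF : ∀ k, m0 ≤ k → k ≤ E → F (p k * d3) = 1 := by
    intro k hk hk'
    rcases F_01 (p k * d3) with h | h
    · exact absurd h (hE3 k hk hk')
    · exact h
  obtain ⟨y, hy1, hy2⟩ := F_down ((hp E).mul d3) (hF E hE1 le_rfl) hE4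
  have hy : p E = c3 ^ y := by
    have : p E * d3 = c3 ^ y * d3 := by rw [hy2, dan]
    exact mul_right_cancel this
  obtain ⟨T, hT⟩ := walls3 hp hE1 h0 hy hF
  have key : ∀ l, l < y.natAbs → 4 * A * l + (8 * A * A + A + B) ≤ T l := by
    intro l
    induction l with
    | zero =>
      intro hl
      obtain ⟨i1, -⟩ := hT 0 hl
      omega
    | succ l ih =>
      intro hl
      have ih := ih (by omega)
      obtain ⟨i1, i2, n, k, i3, i4⟩ := hT l (by omega)
      obtain ⟨i4, i5⟩ := i4 hl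
      have h5 := hlow (T l) i1
      have h6 : A * nm (p (T l)) ≤ A * (k + n + l + 1) := Nat.mul_le_mul_left _ i3
      -- 2A (T' - T) ≥ A (k + n)
      obtain ⟨w, hw⟩ : ∃ w, T (l + 1) = T l + w := ⟨T (l + 1) - T l, by omega⟩
      rw [hw] at i4 i5 ⊢
      have hwn : n ≤ w := by omega
      have hwk : k ≤ w := by omega
      have h7 : A * (k + n + l + 1) ≤ A * (2 * w + l + 1) := Nat.mul_le_mul_left _ (by omega)
      have h8 : 4 * A ≤ w := by
        by_contra hc
        have : w + 1 ≤ 4 * A := by omega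
        have h9 : A * (2 * w + l + 1) + A ≤ A * (8 * A + l) + A * 0 + A * 0 + 0 := by nlinarith
        nlinarith
      nlinarith
  have h9 := hlow E hE1
  rw [hy] at h9
  have h10 : A * nm (c3 ^ y) ≤ A * y.natAbs := Nat.mul_le_mul_left _ (nm_c y)
  rcases Nat.eq_zero_or_pos y.natAbs with h | h
  · rw [h] at h10
    nlinarith
  · have h11 := key (y.natAbs - 1) (by omega)
    obtain ⟨-, h12, -⟩ := hT (y.natAbs - 1) (by omega)
    obtain ⟨w, hw⟩ : ∃ w, y.natAbs = w + 1 := ⟨y.natAbs - 1, by omega⟩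
    rw [hw] at h10 h11 h12
    simp only [Nat.add_sub_cancel] at h11 h12
    nlinarith

theorem dn_eq (i j : ℤ) : d3 ^ i * d3 ^ j = d3 ^ (i + j) := (_root_.zpow_add _ _ _).symm

/-- the cubic lower bound -/
theorem cubic_lower {p : ℕ → G3} (hp : ∀ m, St3 (p m) (p (m + 1))) {L n r : ℕ}
    (h0 : p 0 = d3 ^ (-(n : ℤ))) (h1 : p L = d3 ^ (n : ℤ)) (hrn : r ≤ n)
    (hr : ∀ k ≤ L, r ≤ nm (p k)) : (r / 2) * ((r / 2) * (r / 2)) ≤ 8 * L := by
  classical
  set s := r / 2 with hs
  rcases Nat.eq_zero_or_pos s with h | hspos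
  · rw [h]; simp
  set E : ℕ → ℕ := fun i => Nat.findGreatest (fun k => F (p k * d3 ^ (1 - (i : ℤ))) = 0) L with hE
  have hstart : ∀ i : ℕ, F (p 0 * d3 ^ (1 - (i : ℤ))) = 0 := by
    intro i
    rw [h0, dn_eq, F_dn, if_neg (by omega)]
  have hend : ∀ i : ℕ, i ≤ n → F (p L * d3 ^ (1 - (i : ℤ))) = 1 := by
    intro i hi
    rw [h1, dn_eq, F_dn, if_pos (by omega)]
  have E1 : ∀ i : ℕ, F (p (E i) * d3 ^ (1 - (i : ℤ))) = 0 := by
    intro i
    exact Nat.findGreatest_spec (P := fun k => F (p k * d3 ^ (1 - (i : ℤ))) = 0) (Nat.zero_le L) (hstart i)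
  have E2 : ∀ i : ℕ, i ≤ n → E i < L := by
    intro i hi
    have h2 := Nat.findGreatest_le (P := fun k => F (p k * d3 ^ (1 - (i : ℤ))) = 0) L
    rcases h2.lt_or_eq with h | h
    · exact h
    · exfalso
      have := E1 i
      have e : E i = L := h
      rw [e, hend i hi] at this
      norm_num at this
  have E3 : ∀ i k : ℕ, E i < k → k ≤ L → F (p k * d3 ^ (1 - (i : ℤ))) = 1 := by
    intro i k hk hk'
    have := Nat.findGreatest_is_greatest hk hk'
    rcases F_01 (p k * d3 ^ (1 - (i : ℤ))) with h | h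
    · exact absurd h this
    · exact h
  have step : ∀ i : ℕ, i + 1 ≤ s → s * s + 8 * E i ≤ 8 * E (i + 1) := by
    intro i hi
    have hin : i ≤ n := by omega
    have hin1 : i + 1 ≤ n := by omega
    obtain ⟨x, -, hx⟩ := F_up ((hp (E i)).mul (d3 ^ (1 - (i : ℤ)))) (E1 i)
      (E3 i (E i + 1) (by omega) (E2 i hin))
    -- entering the piece
    have hpe : p (E i + 1) * d3 ^ (-(i : ℤ)) = c3 ^ x := by
      have : p (E i + 1) * d3 ^ (1 - (i : ℤ)) = c3 ^ x * d3 := by rw [hx, dan]
      have e : d3 ^ (1 - (i : ℤ)) = d3 ^ (-(i : ℤ)) * d3 := by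
        rw [show (1 : ℤ) - i = -i + 1 by ring, zpow_add_one]
      rw [e, ← mul_assoc] at this
      exact mul_right_cancel this
    have hlt : E i + 1 < L := by
      rcases Nat.lt_or_ge (E i + 1) L with h | h
      · exact h
      · exfalso
        have he : E i + 1 = L := le_antisymm (E2 i hin) h
        rw [he, h1, dn_eq] at hpe
        have := congrArg lw hpe
        have h3 : lw (c3 ^ x) = 0 := (InH.tot_cn x).lw
        rw [lw_dn, h3] at this
        omega
    have hF0 : ¬ F (p (E i + 1) * d3 ^ (-(i : ℤ))) = 1 := by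
      rw [hpe]
      have := (InH.tot_cn x).F 1
      rw [mul_one, F_one] at this
      rw [this]; norm_num
    have hF1 : F (p L * d3 ^ (-(i : ℤ))) = 1 := by
      have := hend (i + 1) hin1
      rwa [show (1 : ℤ) - ((i + 1 : ℕ) : ℤ) = -(i : ℤ) by push_cast; ring] at this
    obtain ⟨k, hk1, hk2, hk3, hk4⟩ := first_change (fun k => F (p k * d3 ^ (-(i : ℤ))) = 1) hlt hF0 hF1
    have hk5 : F (p k * d3 ^ (-(i : ℤ))) = 0 := by
      rcases F_01 (p k * d3 ^ (-(i : ℤ))) with h | h
      · exact h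
      · exact absurd h (hk3 k hk1 le_rfl)
    obtain ⟨x', hx', -⟩ := F_up ((hp k).mul (d3 ^ (-(i : ℤ)))) hk5 hk4
    have hkE : k ≤ E (i + 1) := by
      by_contra hc
      have := E3 (i + 1) k (by omega) (by omega)
      rw [show (1 : ℤ) - ((i + 1 : ℕ) : ℤ) = -(i : ℤ) by push_cast; ring, hk5] at this
      norm_num at this
    have hq := quad_lower (p := fun k => p k * d3 ^ (-(i : ℤ))) (fun m => (hp m).mul _)
      (r := r - i) hk1 hpe hx' (by
        intro j hj1 hj2
        have := E3 i j (by omega) (by omega)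
        rw [mul_assoc, ← zpow_add_one]
        rwa [show (1 : ℤ) - i = -i + 1 by ring] at this)
      (by
        intro j hj1 hj2
        have h3 := hr j (by omega)
        have h4 := nm_mul (p j * d3 ^ (-(i : ℤ))) (d3 ^ (i : ℤ))
        have e : p j * d3 ^ (-(i : ℤ)) * d3 ^ (i : ℤ) = p j := by group
        rw [e] at h4
        have h5 := nm_d i
        simp only [Int.natAbs_natCast] at h5
        show r - i ≤ nm (p j * d3 ^ (-(i : ℤ)))
        omega)
    have h6 : s * s ≤ (r - i) * (r - i) := Nat.mul_le_mul (by omega) (by omega)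
    omega
  have main : ∀ i : ℕ, i ≤ s → i * (s * s) ≤ 8 * E i := by
    intro i
    induction i with
    | zero => simp
    | succ i ih =>
      intro hi
      have h2 := ih (by omega)
      have h3 := step i hi
      nlinarith
  have h4 := main s le_rfl
  have h5 := E2 s (by omega)
  omega

end Pool.Agent.V8H67.QR
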