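import Pool.Agent.V8H67.QR.Upper

set_option autoImplicit false

namespace Pool.Agent.V8H67.QR

open scoped NNReal ENNReal

theorem nm_d_eq (n : ℤ) : nm (d3 ^ n) = n.natAbs := by
  apply le_antisymm (nm_d n)
  have h1 := le_wnorm closure_S3 (fun x y => lw x - lw y) (by simp) (by intros; linarith)
    (fun s hs g => by rcases hs with h | h | h | h <;> subst h <;> simp)
    (fun s hs g => by rcases hs with h | h | h | h <;> subst h <;> simp) (d3 ^ n) 1
  have h2 := le_wnorm closure_S3 (fun x y => lw y - lw x) (by simp) (by intros; linarith)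
    (fun s hs g => by rcases hs with h | h | h | h <;> subst h <;> simp)
    (fun s hs g => by rcases hs with h | h | h | h <;> subst h <;> simp) (d3 ^ n) 1
  simp at h1 h2
  have h1 : n ≤ nm (d3 ^ n) := h1
  have h2 : -n ≤ nm (d3 ^ n) := h2
  omega

section
variable {X : Type} [MetricSpace X] {e : G3 → X}
  (he : ∀ g h, dist (e g) (e h) = nm (g * h⁻¹)) (hn : ∀ x, ∃ g, dist (e g) x ≤ 1)
include he hn

/-- the cubic lower bound in the Cayley graph -/
theorem lower {ρ L : ℝ} {n r : ℕ} (hr : r + 4 ≤ ρ) (hrn : r ≤ n)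
    (h : PathAvoid (Metric.ball (e 1) ρ) L (e (d3 ^ (-(n : ℤ)))) (e (d3 ^ (n : ℤ)))) :
    (((r / 2 : ℕ) : ℝ)) ^ 3 ≤ 24 * (L + 1) := by
  obtain ⟨h0, c, h1, h2, h3, h4⟩ := h
  have einj : ∀ g h, e g = e h → g = h := by
    intro g h hgh
    have h1 : (nm (g * h⁻¹) : ℝ) = 0 := by rw [← he, hgh, dist_self]
    have h2 : nm (g * h⁻¹) = 0 := by exact_mod_cast h1
    exact mul_inv_eq_one.1 (eq_of_nm h2)
  have hn' : ∀ x, ∃ g, dist (e g) x ≤ 1 ∧ ((∃ h, e h = x) → e g = x) := by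
    intro x
    by_cases hx : ∃ h, e h = x
    · obtain ⟨h, rfl⟩ := hx
      exact ⟨h, by simp, fun _ => rfl⟩
    · obtain ⟨g, hg⟩ := hn x
      exact ⟨g, hg, fun h => absurd h hx⟩
  choose v hv1 hv2 using hn'
  set N := ⌈L⌉₊ with hN
  have hLN : L ≤ N := Nat.le_ceil L
  have hNL : (N : ℝ) ≤ L + 1 := (Nat.ceil_lt_add_one h0).le
  set g : ℕ → G3 := fun k => v (c (min (k : ℝ) L)) with hg
  have hmin : ∀ k : ℕ, 0 ≤ min (k : ℝ) L ∧ min (k : ℝ) L ≤ L := by
    intro k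
    exact ⟨le_min (by positivity) h0, min_le_right _ _⟩
  have hstep : ∀ k, nm (g (k + 1) * (g k)⁻¹) ≤ 3 := by
    intro k
    have e1 : (nm (g (k + 1) * (g k)⁻¹) : ℝ) = dist (e (g (k + 1))) (e (g k)) := (he _ _).symm
    have i1 := hv1 (c (min ((k + 1 : ℕ) : ℝ) L))
    have i2 := hv1 (c (min (k : ℝ) L))
    have hle : min (k : ℝ) L ≤ min ((k + 1 : ℕ) : ℝ) L := by
      apply min_le_min_right
      push_cast; linarith
    have i3 := h3 _ _ (hmin k).1 hle (hmin (k + 1)).2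
    have hdiff : min ((k + 1 : ℕ) : ℝ) L - min (k : ℝ) L ≤ 1 := by
      push_cast
      rcases le_total (k : ℝ) L with h | h
      · rw [min_eq_left h]
        have := min_le_left ((k : ℝ) + 1) L
        linarith
      · rw [min_eq_right h]
        have := min_le_right ((k : ℝ) + 1) L
        linarith
    have i4 := dist_triangle (e (g (k + 1))) (c (min ((k + 1 : ℕ) : ℝ) L)) (e (g k))
    have i5 := dist_triangle (c (min ((k + 1 : ℕ) : ℝ) L)) (c (min (k : ℝ) L)) (e (g k))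
    rw [dist_comm (c (min (k : ℝ) L)) (e (g k)),
      dist_comm (c (min ((k + 1 : ℕ) : ℝ) L)) (c (min (k : ℝ) L))] at i5
    have : (nm (g (k + 1) * (g k)⁻¹) : ℝ) ≤ 3 := by
      rw [e1]
      linarith
    exact_mod_cast this
  obtain ⟨p, hp1, hp2, hp3⟩ := path_of_coarse (show 0 < 3 by norm_num) g hstep
  have hp0 : p 0 = d3 ^ (-(n : ℤ)) := by
    have := hp1 0
    rw [mul_zero] at this
    rw [this]
    have e1 : c (min ((0 : ℕ) : ℝ) L) = e (d3 ^ (-(n : ℤ))) := by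
      rw [Nat.cast_zero, min_eq_left h0, h1]
    have := hv2 (c (min ((0 : ℕ) : ℝ) L)) ⟨_, e1.symm⟩
    simp only [hg]
    rw [e1] at this ⊢
    exact einj _ _ this
  have hpN : p (3 * N) = d3 ^ (n : ℤ) := by
    rw [hp1]
    have e1 : c (min ((N : ℕ) : ℝ) L) = e (d3 ^ (n : ℤ)) := by
      rw [min_eq_right hLN, h2]
    have := hv2 (c (min ((N : ℕ) : ℝ) L)) ⟨_, e1.symm⟩
    simp only [hg]
    rw [e1] at this ⊢
    exact einj _ _ this
  have hav : ∀ k ≤ 3 * N, r ≤ nm (p k) := by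
    intro k _
    have i1 := hp3 k
    have i2 : nm (g (k / 3)) ≤ nm (p k) + 3 := by
      have := nm_mul (p k * (g (k / 3))⁻¹)⁻¹ (p k)
      rw [nm_inv] at this
      have e1 : (p k * (g (k / 3))⁻¹)⁻¹ * p k = g (k / 3) := by group
      rw [e1] at this
      omega
    have i3 : (nm (g (k / 3)) : ℝ) = dist (e (g (k / 3))) (e 1) := by rw [he]; simp
    have i4 := hv1 (c (min ((k / 3 : ℕ) : ℝ) L))
    have i5 := h4 _ (hmin (k / 3)).1 (hmin (k / 3)).2
    rw [Metric.mem_ball, not_lt] at i5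
    have i6 := dist_triangle (c (min ((k / 3 : ℕ) : ℝ) L)) (e (g (k / 3))) (e 1)
    rw [dist_comm (c (min ((k / 3 : ℕ) : ℝ) L)) (e (g (k / 3)))] at i6
    have i7 : (nm (g (k / 3)) : ℝ) ≤ nm (p k) + 3 := by exact_mod_cast i2
    have i8 : (r : ℝ) ≤ nm (p k) := by
      have : dist (e (g (k / 3))) (c (min ((k / 3 : ℕ) : ℝ) L)) ≤ 1 := i4
      linarith
    exact_mod_cast i8
  have hmain := cubic_lower hp2 hp0 hpN hrn hav
  have hmain' : (((r / 2) * ((r / 2) * (r / 2)) : ℕ) : ℝ) ≤ ((8 * (3 * N) : ℕ) : ℝ) := by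
    exact_mod_cast hmain
  simp only [Nat.cast_mul, Nat.cast_ofNat] at hmain'
  have e3 : (((r / 2 : ℕ) : ℝ)) ^ 3 = ((r / 2 : ℕ) : ℝ) * (((r / 2 : ℕ) : ℝ) * ((r / 2 : ℕ) : ℝ)) := by
    ring
  rw [e3]
  linarith

/-- the divergence is at least cubic -/
theorem div_lower {γ δ : ℝ} (hγ : 2 ≤ γ) (hδ : 0 < δ) (hδ' : δ ≤ 1 / 2) :
    Dom (fun n => (n : ℝ≥0∞) ^ 3) (Dv X γ δ) := by
  obtain ⟨A, hA⟩ := exists_nat_ge ((γ + 6) / δ)
  have hA' : γ + 6 ≤ A * δ := by
    rwa [div_le_iff₀ hδ] at hA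
  have hApos : 1 ≤ A := by
    by_contra hc
    have : A = 0 := by omega
    rw [this] at hA'
    simp at hA'
    linarith
  -- key estimate
  have key : ∀ m : ℕ, ((m : ℝ≥0∞)) ^ 3 ≤ 24 * Dv X γ δ (2 * (A * (m + 1))) + 24 := by
    intro m
    set n := A * (m + 1) with hn'
    have hnpos : 1 ≤ n := by
      have : 1 * 1 ≤ A * (m + 1) := Nat.mul_le_mul hApos (by omega)
      omega
    have hd1 : dist (e 1) (e (d3 ^ (-(n : ℤ)))) = n := by
      rw [dist_comm, he, inv_one, mul_one, nm_d_eq]; simp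
    have hd2 : dist (e 1) (e (d3 ^ (n : ℤ))) = n := by
      rw [dist_comm, he, inv_one, mul_one, nm_d_eq]; simp
    have hd3 : dist (e (d3 ^ (-(n : ℤ)))) (e (d3 ^ (n : ℤ))) = 2 * n := by
      rw [he]
      have e1 : d3 ^ (-(n : ℤ)) * (d3 ^ (n : ℤ))⁻¹ = d3 ^ (-(2 * n : ℤ)) := by
        rw [← zpow_neg, ← _root_.zpow_add]; congr 1; ring
      rw [e1, nm_d_eq]
      have : (-(2 * (n : ℤ))).natAbs = 2 * n := by omega
      rw [this]; push_cast; ring
    have hle : dv γ δ (e (d3 ^ (-(n : ℤ)))) (e (d3 ^ (n : ℤ))) (e 1) ≤ Dv X γ δ (2 * n) := by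
      apply le_Dv
      · rw [hd1, hd2, min_self]
        exact_mod_cast hnpos
      · rw [hd3]; push_cast; exact le_rfl
    have hge : (m : ℝ≥0∞) ^ 3 ≤ 24 * dv γ δ (e (d3 ^ (-(n : ℤ)))) (e (d3 ^ (n : ℤ))) (e 1) + 24 := by
      have h24 : (24 : ℝ≥0∞) ≠ 0 := by norm_num
      have h24' : (24 : ℝ≥0∞) ≠ ⊤ := by norm_num
      -- for every path
      have hp : ∀ L : ℝ, PathAvoid (Metric.ball (e 1) (δ * min (dist (e 1) (e (d3 ^ (-(n : ℤ)))))
          (dist (e 1) (e (d3 ^ (n : ℤ)))) - γ)) L (e (d3 ^ (-(n : ℤ)))) (e (d3 ^ (n : ℤ))) →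
          ((m : ℝ≥0∞) ^ 3 - 24) / 24 ≤ ENNReal.ofReal L := by
        intro L hL
        rw [hd1, hd2, min_self] at hL
        have hm0 : (0 : ℝ) ≤ m := by positivity
        have hbig : ((min (2 * m) n : ℕ) : ℝ) + 4 ≤ δ * n - γ := by
          have h1 : ((min (2 * m) n : ℕ) : ℝ) ≤ 2 * m := by
            have : min (2 * m) n ≤ 2 * m := min_le_left _ _
            exact_mod_cast this
          have h2 : δ * (n : ℝ) = (A * δ) * (m + 1) := by rw [hn']; push_cast; ring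
          rw [h2]
          nlinarith
        have h3 := lower he hn hbig (min_le_right _ _) hL
        have h4 : (m : ℝ) ^ 3 ≤ 24 * (L + 1) := by
          rcases le_total (2 * m) n with h | h
          · rw [min_eq_left h] at h3
            have : 2 * m / 2 = m := by omega
            rwa [this] at h3
          · -- `n ≤ 2 m` is impossible unless the bound is trivial
            exfalso
            have h5 : ((min (2 * m) n : ℕ) : ℝ) = n := by rw [min_eq_right h]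
            rw [h5] at hbig
            have : δ * n ≤ 1 * n := mul_le_mul_of_nonneg_right (by linarith) (by positivity)
            linarith
        have hL0 := hL.1
        rw [ENNReal.div_le_iff h24 h24']
        rw [tsub_le_iff_right]
        have e1 : ENNReal.ofReal L * 24 + 24 = ENNReal.ofReal (24 * (L + 1)) := by
          rw [show 24 * (L + 1) = L * 24 + 24 by ring, ENNReal.ofReal_add (by positivity) (by norm_num),
            ENNReal.ofReal_mul hL0]
          norm_num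
        rw [e1]
        have e2 : (m : ℝ≥0∞) ^ 3 = ENNReal.ofReal ((m : ℝ) ^ 3) := by
          rw [ENNReal.ofReal_pow hm0, ENNReal.ofReal_natCast]
        rw [e2]
        exact ENNReal.ofReal_le_ofReal h4
      have hdv : ((m : ℝ≥0∞) ^ 3 - 24) / 24 ≤ dv γ δ (e (d3 ^ (-(n : ℤ)))) (e (d3 ^ (n : ℤ))) (e 1) :=
        le_iInf₂ hp
      rw [ENNReal.div_le_iff h24 h24', tsub_le_iff_right] at hdv
      rwa [mul_comm] at hdv
    refine hge.trans ?_
    gcongr
  refine ⟨24 + 2 * A, fun m => ?_⟩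
  refine (key m).trans ?_
  have h1 : Dv X γ δ (2 * (A * (m + 1))) ≤ Dv X γ δ ((24 + 2 * A) * m + (24 + 2 * A)) := by
    apply Dv_mono
    nlinarith
  have h2 : (24 : ℝ≥0∞) ≤ ((24 + 2 * A : ℕ) : ℝ≥0∞) := by
    push_cast
    exact le_self_add
  calc 24 * Dv X γ δ (2 * (A * (m + 1))) + 24
      ≤ ((24 + 2 * A : ℕ) : ℝ≥0∞) * Dv X γ δ ((24 + 2 * A) * m + (24 + 2 * A)) +
        ((24 + 2 * A : ℕ) : ℝ≥0∞) := by gcongr
    _ ≤ _ := by
      gcongr
      exact le_self_add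

/-- the divergence is at most cubic -/
theorem div_upper (hX : IsGeodesic X) {γ δ : ℝ} (hγ : 2 ≤ γ) (hδ : δ ≤ 1 / 2) :
    Dom (Dv X γ δ) (fun n => (n : ℝ≥0∞) ^ 3) := by
  refine ⟨500, fun n => ?_⟩
  have h1 : Dv X γ δ n ≤ ENNReal.ofReal (500 * ((n : ℝ) + 1) ^ 3) := by
    refine iSup_le fun x => iSup_le fun y => iSup_le fun c => iSup_le fun h1 => iSup_le fun h2 => ?_
    exact dv_le (upper he hX hn hγ hδ h1 h2)
  have h2 : ENNReal.ofReal (500 * ((n : ℝ) + 1) ^ 3) = 500 * ((n + 1 : ℕ) : ℝ≥0∞) ^ 3 := by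
    rw [ENNReal.ofReal_mul (by norm_num), ENNReal.ofReal_pow (by positivity)]
    congr 1
    · norm_num
    · congr 1
      rw [← ENNReal.ofReal_natCast]
      push_cast
      rfl
  rw [h2] at h1
  refine h1.trans ?_
  have h3 : ((n + 1 : ℕ) : ℝ≥0∞) ≤ ((500 * n + 500 : ℕ) : ℝ≥0∞) := by
    exact_mod_cast (by omega : n + 1 ≤ 500 * n + 500)
  calc (500 : ℝ≥0∞) * ((n + 1 : ℕ) : ℝ≥0∞) ^ 3 ≤ 500 * ((500 * n + 500 : ℕ) : ℝ≥0∞) ^ 3 := by gcongr
    _ ≤ _ := by
      push_cast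
      rw [add_assoc]
      exact le_self_add

end

end Pool.Agent.V8H67.QR
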