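import Pool.Agent.V8H67.QR.Exc

set_option autoImplicit false

namespace Pool.Agent.V8H67.QR

section general
variable {G : Type} [Group G]

theorem wnorm_le {S : Set G} {n : ℕ} {g : G} (h : IsWord S n g) : wnorm S g ≤ n := Nat.sInf_le h

theorem IsWord.one (S : Set G) : IsWord S 0 1 := ⟨[], rfl, by simp, rfl⟩

theorem IsWord.of {S : Set G} {s : G} (h : s ∈ S) : IsWord S 1 s := ⟨[s], rfl, by simp [h], by simp⟩

theorem IsWord.mul {S : Set G} {n m : ℕ} {g h : G} (hg : IsWord S n g) (hh : IsWord S m h) :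
    IsWord S (n + m) (g * h) := by
  obtain ⟨l, h1, h2, h3⟩ := hg
  obtain ⟨l', h1', h2', h3'⟩ := hh
  refine ⟨l ++ l', by simp [h1, h1'], ?_, by simp [h3, h3']⟩
  intro x hx
  rcases List.mem_append.1 hx with h | h
  · exact h2 x h
  · exact h2' x h

theorem IsWord.inv {S : Set G} {n : ℕ} {g : G} (hg : IsWord S n g) : IsWord S n g⁻¹ := by
  obtain ⟨l, h1, h2, h3⟩ := hg
  refine ⟨(l.map (·⁻¹)).reverse, by simp [h1], ?_, ?_⟩
  · intro x hx
    simp only [List.mem_reverse, List.mem_map] at hx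
    obtain ⟨y, hy, rfl⟩ := hx
    rcases h2 y hy with h | h
    · right; simpa using h
    · left; exact h
  · rw [← h3, List.prod_inv_reverse]

theorem IsWord.exists {S : Set G} (hS : Subgroup.closure S = ⊤) (g : G) : ∃ n, IsWord S n g := by
  have : g ∈ Subgroup.closure S := by rw [hS]; trivial
  induction this using Subgroup.closure_induction with
  | mem x hx => exact ⟨1, IsWord.of hx⟩
  | one => exact ⟨0, IsWord.one S⟩
  | mul x y _ _ hx hy =>
    obtain ⟨n, hn⟩ := hx
    obtain ⟨m, hm⟩ := hy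
    exact ⟨_, hn.mul hm⟩
  | inv x _ hx =>
    obtain ⟨n, hn⟩ := hx
    exact ⟨n, hn.inv⟩

theorem wnorm_spec {S : Set G} (hS : Subgroup.closure S = ⊤) (g : G) : IsWord S (wnorm S g) g :=
  Nat.sInf_mem (s := {n | IsWord S n g}) (IsWord.exists hS g)

@[simp] theorem wnorm_one (S : Set G) : wnorm S 1 = 0 := Nat.le_zero.1 (wnorm_le (IsWord.one S))

theorem wnorm_mul {S : Set G} (hS : Subgroup.closure S = ⊤) (g h : G) :
    wnorm S (g * h) ≤ wnorm S g + wnorm S h := wnorm_le ((wnorm_spec hS g).mul (wnorm_spec hS h))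

theorem wnorm_inv {S : Set G} (hS : Subgroup.closure S = ⊤) (g : G) : wnorm S g⁻¹ = wnorm S g := by
  apply le_antisymm
  · exact wnorm_le (wnorm_spec hS g).inv
  · have := wnorm_le (wnorm_spec hS g⁻¹).inv
    simpa using this

theorem wnorm_of {S : Set G} {s : G} (h : s ∈ S) : wnorm S s ≤ 1 := wnorm_le (IsWord.of h)

theorem wnorm_pow {S : Set G} (hS : Subgroup.closure S = ⊤) {s : G} (h : s ∈ S) (n : ℕ) :
    wnorm S (s ^ n) ≤ n := by
  induction n with
  | zero => simp
  | succ n ih =>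
    rw [pow_succ]
    have := wnorm_mul hS (s ^ n) s
    have := wnorm_of h
    omega

theorem wnorm_zpow {S : Set G} (hS : Subgroup.closure S = ⊤) {s : G} (h : s ∈ S) (n : ℤ) :
    wnorm S (s ^ n) ≤ n.natAbs := by
  rcases le_total 0 n with hn | hn
  · obtain ⟨m, rfl⟩ : ∃ m : ℕ, n = m := ⟨n.toNat, by omega⟩
    simpa using wnorm_pow hS h m
  · obtain ⟨m, rfl⟩ : ∃ m : ℕ, n = -m := ⟨(-n).toNat, by omega⟩
    rw [zpow_neg, wnorm_inv hS]
    simpa using wnorm_pow hS h m

/-- lower bounds for the word norm -/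
theorem le_wnorm {S : Set G} (hS : Subgroup.closure S = ⊤) (D : G → G → ℤ) (D0 : ∀ g, D g g ≤ 0)
    (tri : ∀ x y z, D x z ≤ D x y + D y z)
    (h1 : ∀ s ∈ S, ∀ g, D (s * g) g ≤ 1) (h2 : ∀ s ∈ S, ∀ g, D g (s * g) ≤ 1) (g y : G) :
    D (g * y) y ≤ wnorm S g := by
  obtain ⟨l, e1, e2, e3⟩ := wnorm_spec hS g
  have key : ∀ l : List G, (∀ x ∈ l, x ∈ S ∨ x⁻¹ ∈ S) → D (l.prod * y) y ≤ l.length := by
    intro l
    induction l with
    | nil => intro _; simpa using D0 y
    | cons x l ih =>
      intro hl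
      have ih := ih (fun y hy => hl y (List.mem_cons_of_mem _ hy))
      have hx : D (x * (l.prod * y)) (l.prod * y) ≤ 1 := by
        rcases hl x (List.mem_cons_self ..) with h | h
        · exact h1 x h _
        · have := h2 _ h (x * (l.prod * y))
          simpa using this
      have := tri (x * (l.prod * y)) (l.prod * y) y
      rw [List.prod_cons, mul_assoc, List.length_cons]
      push_cast
      linarith
  have := key l e2
  rw [e3, e1] at this
  exact this

end general

theorem a3_mem : a3 ∈ S3 := by simp [S3]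
theorem b3_mem : b3 ∈ S3 := by simp [S3]
theorem c3_mem : c3 ∈ S3 := by simp [S3]
theorem d3_mem : d3 ∈ S3 := by simp [S3]

theorem closure_S3 : Subgroup.closure S3 = ⊤ := by
  rw [eq_top_iff]
  intro g hg
  clear hg
  induction g using ind3 with
  | h1 => exact one_mem _
  | ha g => exact (Subgroup.mul_mem_cancel_left _ (Subgroup.subset_closure a3_mem)).symm
  | hb g => exact (Subgroup.mul_mem_cancel_left _ (Subgroup.subset_closure b3_mem)).symm
  | hc g => exact (Subgroup.mul_mem_cancel_left _ (Subgroup.subset_closure c3_mem)).symm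
  | hd g => exact (Subgroup.mul_mem_cancel_left _ (Subgroup.subset_closure d3_mem)).symm

/-- the norm on `G3` -/
noncomputable def nm (g : G3) : ℕ := wnorm S3 g

@[simp] theorem nm_one : nm 1 = 0 := wnorm_one _
theorem nm_mul (g h : G3) : nm (g * h) ≤ nm g + nm h := wnorm_mul closure_S3 g h
theorem nm_inv (g : G3) : nm g⁻¹ = nm g := wnorm_inv closure_S3 g
theorem nm_a (n : ℤ) : nm (a3 ^ n) ≤ n.natAbs := wnorm_zpow closure_S3 a3_mem n
theorem nm_b (n : ℤ) : nm (b3 ^ n) ≤ n.natAbs := wnorm_zpow closure_S3 b3_mem n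
theorem nm_c (n : ℤ) : nm (c3 ^ n) ≤ n.natAbs := wnorm_zpow closure_S3 c3_mem n
theorem nm_d (n : ℤ) : nm (d3 ^ n) ≤ n.natAbs := wnorm_zpow closure_S3 d3_mem n

theorem St3.nm {x y : G3} (h : St3 x y) : nm (y * x⁻¹) ≤ 1 := by
  have ha := wnorm_of a3_mem
  have hb := wnorm_of b3_mem
  have hc := wnorm_of c3_mem
  have hd := wnorm_of d3_mem
  have ha' := (nm_inv a3).trans_le ha
  have hb' := (nm_inv b3).trans_le hb
  have hc' := (nm_inv c3).trans_le hc
  have hd' := (nm_inv d3).trans_le hd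
  rcases h with h | h | h | h | h | h | h | h | h <;> subst h <;> simp <;> assumption

theorem lip_nm {p : ℕ → G3} (hp : ∀ m, St3 (p m) (p (m + 1))) {m n : ℕ} (hmn : m ≤ n) :
    nm (p n * (p m)⁻¹) ≤ n - m := by
  induction n, hmn using Nat.le_induction with
  | base => simp
  | succ n hmn ih =>
    have h1 := (hp n).nm
    have h2 := nm_mul (p (n + 1) * (p n)⁻¹) (p n * (p m)⁻¹)
    have e : p (n + 1) * (p n)⁻¹ * (p n * (p m)⁻¹) = p (n + 1) * (p m)⁻¹ := by group
    rw [e] at h2
    omega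

/-- a word of length `n` gives an edge path -/
theorem path_of_word {n : ℕ} {g : G3} (h : IsWord S3 n g) (x : G3) :
    ∃ q : ℕ → G3, q 0 = x ∧ (∀ i, n ≤ i → q i = g * x) ∧ ∀ i, St3 (q i) (q (i + 1)) := by
  obtain ⟨l, h1, h2, h3⟩ := h
  subst h1 h3
  induction l with
  | nil => exact ⟨fun _ => x, rfl, by simp, fun i => Or.inl rfl⟩
  | cons s l ih =>
    obtain ⟨q, q0, q1, q2⟩ := ih (fun y hy => h2 y (List.mem_cons_of_mem _ hy))
    refine ⟨fun i => if i ≤ l.length then q i else s * (l.prod * x), ?_, ?_, ?_⟩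
    · simp [q0]
    · intro i hi
      simp only [List.length_cons] at hi
      simp only [List.prod_cons, mul_assoc]
      rw [if_neg (by omega)]
    · intro i
      rcases lt_trichotomy i l.length with hi | hi | hi
      · simp only
        rw [if_pos (by omega), if_pos (by omega)]
        exact q2 i
      · simp only
        rw [if_pos (by omega), if_neg (by omega), q1 i (by omega)]
        rcases h2 s (List.mem_cons_self ..) with h | h
        · rcases h with h | h | h | h <;> subst h <;> unfold St3 <;> simp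
        · rcases h with h | h | h | h <;>
            · have hs : s = s⁻¹⁻¹ := (inv_inv s).symm
              rw [hs, h]; unfold St3; simp
      · simp only
        rw [if_neg (by omega), if_neg (by omega)]
        exact Or.inl rfl

/-- an edge path between two points at distance at most `n` -/
theorem path_of_nm {n : ℕ} (x y : G3) (h : nm (y * x⁻¹) ≤ n) :
    ∃ q : ℕ → G3, q 0 = x ∧ (∀ i, n ≤ i → q i = y) ∧ ∀ i, St3 (q i) (q (i + 1)) := by
  obtain ⟨q, q0, q1, q2⟩ := path_of_word (wnorm_spec closure_S3 (y * x⁻¹)) x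
  refine ⟨q, q0, ?_, q2⟩
  intro i hi
  rw [q1 i (le_trans h hi)]
  group

/-- from coarse paths to edge paths -/
theorem path_of_coarse {K : ℕ} (hK : 0 < K) (g : ℕ → G3) (h : ∀ k, nm (g (k + 1) * (g k)⁻¹) ≤ K) :
    ∃ p : ℕ → G3, (∀ k, p (K * k) = g k) ∧ (∀ m, St3 (p m) (p (m + 1))) ∧
      ∀ m, nm (p m * (g (m / K))⁻¹) ≤ K := by
  choose q q0 q1 q2 using fun k => path_of_nm (g k) (g (k + 1)) (h k)
  refine ⟨fun m => q (m / K) (m % K), ?_, ?_, ?_⟩
  · intro k
    simp [hK, q0]
  · intro m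
    rcases Nat.lt_or_ge (m % K + 1) K with h | h
    · have e1 : (m + 1) / K = m / K := by
        conv_lhs => rw [← Nat.div_add_mod m K, add_assoc, Nat.mul_add_div hK, Nat.div_eq_of_lt h]
        rfl
      have e2 : (m + 1) % K = m % K + 1 := by
        have h1 := Nat.div_add_mod m K
        have h2 := Nat.div_add_mod (m + 1) K
        rw [e1] at h2
        omega
      show St3 (q (m / K) (m % K)) (q ((m + 1) / K) ((m + 1) % K))
      rw [e1, e2]
      exact q2 _ _
    · have hm : m % K + 1 = K := by have := Nat.mod_lt m hK; omega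
      have e0 : m + 1 = K * (m / K + 1) := by
        have := Nat.div_add_mod m K
        rw [mul_add]; omega
      have e1 : (m + 1) / K = m / K + 1 := by rw [e0, Nat.mul_div_cancel_left _ hK]
      have e2 : (m + 1) % K = 0 := by rw [e0, Nat.mul_mod_right]
      show St3 (q (m / K) (m % K)) (q ((m + 1) / K) ((m + 1) % K))
      rw [e1, e2, q0, ← q1 (m / K) (m % K + 1) (by omega)]
      exact q2 _ _
  · intro m
    have := lip_nm (q2 (m / K)) (Nat.zero_le (m % K))
    rw [q0] at this
    have h2 := Nat.mod_lt m hK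
    show nm (q (m / K) (m % K) * (g (m / K))⁻¹) ≤ K
    omega

end Pool.Agent.V8H67.QR
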