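import Pool.Agent.V8H67.QR.Defs

/-!
Quasi-geodesic rays and quasi-redirecting.

Author: helper67.
-/

set_option autoImplicit false

namespace Pool.Agent.V8H67.QR

open scoped NNReal

section
variable {X : Type} [MetricSpace X]

theorem IsQG.mono {q Q q' Q' : ℝ} {α : ℝ≥0 → X} (h : IsQG q Q α) (hq : q ≤ q') (hQ : Q ≤ Q') :
    IsQG q' Q' α := by
  obtain ⟨h1, h2, h3⟩ := h
  refine ⟨h1.trans hq, h2.trans hQ, fun s t => ?_⟩
  obtain ⟨h4, h5⟩ := h3 s t
  have h6 : |(s : ℝ) - t| / q' ≤ |(s : ℝ) - t| / q :=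
    div_le_div_of_nonneg_left (abs_nonneg _) (by linarith) hq
  have h7 : q * |(s : ℝ) - t| ≤ q' * |(s : ℝ) - t| := mul_le_mul_of_nonneg_right hq (abs_nonneg _)
  constructor <;> linarith

/-- a criterion for quasi-geodesics: only pairs `s ≤ t` matter -/
theorem isQG_of_le {q Q : ℝ} {α : ℝ≥0 → X} (hq : 1 ≤ q) (hQ : 0 ≤ Q)
    (h : ∀ s t : ℝ≥0, s ≤ t → ((t : ℝ) - s) / q - Q ≤ dist (α s) (α t) ∧
      dist (α s) (α t) ≤ q * ((t : ℝ) - s) + Q) : IsQG q Q α := by
  refine ⟨hq, hQ, fun s t => ?_⟩
  rcases le_total s t with hst | hst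
  · have : |(s : ℝ) - t| = t - s := by
      rw [abs_sub_comm, abs_of_nonneg]
      exact sub_nonneg.2 (by exact_mod_cast hst)
    rw [this]
    exact h s t hst
  · have : |(s : ℝ) - t| = s - t := by
      rw [abs_of_nonneg]
      exact sub_nonneg.2 (by exact_mod_cast hst)
    rw [this, dist_comm]
    exact h t s hst

theorem IsQG.le {q Q : ℝ} {α : ℝ≥0 → X} (h : IsQG q Q α) {s t : ℝ≥0} (hst : s ≤ t) :
    ((t : ℝ) - s) / q - Q ≤ dist (α s) (α t) ∧ dist (α s) (α t) ≤ q * ((t : ℝ) - s) + Q := by
  have := h.2.2 s t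
  rwa [abs_sub_comm, abs_of_nonneg (sub_nonneg.2 (by exact_mod_cast hst))] at this

theorem IsQG.far {q Q r : ℝ} {α : ℝ≥0 → X} (h : IsQG q Q α) {t : ℝ≥0} (ht : q * (r + Q) ≤ t) :
    r ≤ dist (α 0) (α t) := by
  have h1 := (h.le (show (0 : ℝ≥0) ≤ t from bot_le)).1
  have h2 : r + Q ≤ t / q := by
    rw [le_div_iff₀ (by linarith [h.1])]
    linarith
  simp only [NNReal.coe_zero, sub_zero] at h1
  linarith

/-- reflexivity -/
theorem Redirects.refl {q Q : ℝ} {α : ℝ≥0 → X} (h : IsQG q Q α) : Redirects α α := by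
  refine ⟨q, Q + q, fun r hr => ?_⟩
  have hq := h.1
  have hQ := h.2.1
  have hT0 : 0 ≤ q * (r + Q) := by positivity
  set T : ℝ≥0 := ⟨q * (r + Q), hT0⟩ with hT
  have hTc : (T : ℝ) = q * (r + Q) := rfl
  refine ⟨fun t => if t ≤ T then α t else α (t + 1), ?_, ?_, 1, T + 1, one_pos, by positivity, ?_⟩
  · apply isQG_of_le hq (by linarith)
    intro s t hst
    have hst' : (0 : ℝ) ≤ (t : ℝ) - s := sub_nonneg.2 (by exact_mod_cast hst)
    by_cases h1 : t ≤ T
    · have h2 : s ≤ T := hst.trans h1
      simp only [if_pos h1, if_pos h2]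
      have := h.le hst
      constructor
      · linarith [this.1]
      · linarith [this.2]
    · by_cases h2 : s ≤ T
      · simp only [if_neg h1, if_pos h2]
        have := h.le (show s ≤ t + 1 from hst.trans (by simp))
        push_cast at this
        constructor
        · have h3 : ((t : ℝ) - s) / q ≤ ((t : ℝ) + 1 - s) / q := by
            apply div_le_div_of_nonneg_right _ (by linarith)
            linarith
          linarith [this.1]
        · linarith [this.2]
      · simp only [if_neg h1, if_neg h2]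
        have := h.le (show s + 1 ≤ t + 1 by gcongr)
        push_cast at this
        constructor
        · have h3 : ((t : ℝ) - s) / q = ((t : ℝ) + 1 - (s + 1)) / q := by ring_nf
          linarith [this.1]
        · linarith [this.2]
  · intro t ht
    by_cases h1 : t ≤ T
    · simp only [if_pos h1]
    · exfalso
      simp only [if_neg h1] at ht
      have h2 : (T : ℝ) ≤ t := by exact_mod_cast (not_le.1 h1).le
      have h3 := h.far (r := r) (t := t) (by linarith)
      have h4 := h.far (r := r) (t := t + 1) (by push_cast; linarith)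
      rcases ht with ht | ht <;> linarith
  · intro t ht
    have : ¬ t ≤ T := not_le.2 (lt_of_lt_of_le (by simp) ht)
    simp only [if_neg this]

/-- transitivity -/
theorem Redirects.trans {α β δ : ℝ≥0 → X} (hβ : ∃ q Q : ℝ, IsQG q Q β) (h1 : Redirects α β)
    (h2 : Redirects β δ) : Redirects α δ := by
  obtain ⟨q₁, Q₁, h1⟩ := h1
  obtain ⟨q₂, Q₂, h2⟩ := h2
  obtain ⟨qb, Qb, hβ⟩ := hβ
  refine ⟨2 * (q₁ + q₂), Q₁ + Q₂, fun r hr => ?_⟩
  obtain ⟨g₁, hg₁, ha₁, s₁, t₁, hs₁, -, he₁⟩ := h1 r hr
  have hq₁ := hg₁.1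
  have hQ₁ := hg₁.2.1
  -- dummy use to know `1 ≤ q₂`
  obtain ⟨g₀, hg0, -⟩ := h2 1 one_pos
  have hq₂ := hg0.1
  have hQ₂ := hg0.2.1
  set q := 2 * (q₁ + q₂) with hq
  set Q := Q₁ + Q₂ with hQ
  have hT0 : 0 ≤ (t₁ : ℝ) + 2 * t₁ * (1 + q₁ * q₂) + q * (r + Q) + q₁ * (r + Q₁) := by
    have := t₁.2
    have hq0 : 0 ≤ q := by linarith
    have hQ0 : 0 ≤ Q := by linarith
    positivity
  set T : ℝ≥0 := ⟨_, hT0⟩ with hT
  have hTc : (T : ℝ) = (t₁ : ℝ) + 2 * t₁ * (1 + q₁ * q₂) + q * (r + Q) + q₁ * (r + Q₁) := rfl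
  have hp1 : 0 ≤ 2 * (t₁ : ℝ) * (1 + q₁ * q₂) := by
    have := t₁.2; positivity
  have hp2 : 0 ≤ q * (r + Q) := by
    have hq0 : 0 ≤ q := by linarith
    have hQ0 : 0 ≤ Q := by linarith
    positivity
  have hp3 : 0 ≤ q₁ * (r + Q₁) := by positivity
  have ht₁T : t₁ ≤ T := by
    rw [← NNReal.coe_le_coe, hTc]; linarith
  obtain ⟨g₂, hg₂, ha₂, s₂, t₂, hs₂, -, he₂⟩ := h2 (qb * (T + s₁) + Qb + 1) (by
    have := hβ.1; have := hβ.2.1; have := T.2; have := s₁.2; positivity)
  have hag : ∀ u : ℝ≥0, u ≤ T + s₁ → g₂ u = β u := by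
    intro u hu
    apply ha₂
    left
    have h3 := (hβ.le (show (0 : ℝ≥0) ≤ u from bot_le)).2
    have h4 : (u : ℝ) ≤ T + s₁ := by exact_mod_cast hu
    have h5 : qb * ((u : ℝ) - (0 : ℝ≥0)) ≤ qb * (T + s₁) := by
      apply mul_le_mul_of_nonneg_left _ (by linarith [hβ.1])
      simpa using h4
    linarith
  have hag' : ∀ u : ℝ≥0, t₁ ≤ u → u ≤ T → g₁ u = g₂ (u + s₁) := by
    intro u hu hu'
    rw [he₁ u hu, hag (u + s₁) (by gcongr)]
  have hQG : IsQG q Q (fun t => if t ≤ T then g₁ t else g₂ (t + s₁)) := by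
    apply isQG_of_le (by linarith) (by linarith)
    intro s t hst
    have hst' : (0 : ℝ) ≤ (t : ℝ) - s := sub_nonneg.2 (by exact_mod_cast hst)
    have hd1 : ((t : ℝ) - s) / q ≤ ((t : ℝ) - s) / q₁ :=
      div_le_div_of_nonneg_left hst' (by linarith) (by linarith)
    have hd2 : ((t : ℝ) - s) / q ≤ ((t : ℝ) - s) / q₂ :=
      div_le_div_of_nonneg_left hst' (by linarith) (by linarith)
    have hm1 : q₁ * ((t : ℝ) - s) ≤ q * ((t : ℝ) - s) :=
      mul_le_mul_of_nonneg_right (by linarith) hst'
    have hm2 : q₂ * ((t : ℝ) - s) ≤ q * ((t : ℝ) - s) :=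
      mul_le_mul_of_nonneg_right (by linarith) hst'
    by_cases h1 : t ≤ T
    · have h2 : s ≤ T := hst.trans h1
      simp only [if_pos h1, if_pos h2]
      have := hg₁.le hst
      constructor
      · linarith [this.1]
      · linarith [this.2]
    · have h1' : T ≤ t := (not_le.1 h1).le
      have h1r : (T : ℝ) ≤ t := by exact_mod_cast h1'
      by_cases h2 : s ≤ T
      · simp only [if_neg h1, if_pos h2]
        have h2r : (s : ℝ) ≤ T := by exact_mod_cast h2
        constructor
        · -- lower bound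
          by_cases h3 : t₁ ≤ s
          · rw [hag' s h3 h2]
            have := (hg₂.le (show s + s₁ ≤ t + s₁ by gcongr)).1
            push_cast at this
            rw [show (t : ℝ) + s₁ - (s + s₁) = t - s by ring] at this
            linarith
          · have h3' : s ≤ t₁ := (not_le.1 h3).le
            have h3r : (s : ℝ) ≤ t₁ := by exact_mod_cast h3'
            have h4 := (hg₂.le (show t₁ + s₁ ≤ t + s₁ by gcongr; exact ht₁T.trans h1')).1
            have h5 := (hg₁.le h3').2
            rw [← hag' t₁ le_rfl ht₁T] at h4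
            push_cast at h4
            rw [show (t : ℝ) + s₁ - (t₁ + s₁) = t - t₁ by ring] at h4
            have h6 := dist_triangle (g₁ t₁) (g₁ s) (g₂ (t + s₁))
            rw [dist_comm (g₁ t₁) (g₁ s)] at h6
            have h7 : ((t : ℝ) - s) / q ≤ t / (2 * q₂) := by
              rw [div_le_div_iff₀ (by linarith) (by linarith)]
              have := s.2
              have ht0 := t.2
              have : ((t : ℝ) - s) * (2 * q₂) ≤ t * (2 * q₂) := by
                apply mul_le_mul_of_nonneg_right _ (by linarith)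
                linarith [NNReal.coe_nonneg s]
              have h8 : (t : ℝ) * (2 * q₂) ≤ t * q := by
                apply mul_le_mul_of_nonneg_left _ ht0
                linarith
              linarith
            have h8 : (t : ℝ) / (2 * q₂) + q₁ * t₁ ≤ (t - t₁) / q₂ := by
              have e1 : (t : ℝ) / (2 * q₂) = (t / 2) / q₂ := by field_simp
              have e2 : q₁ * (t₁ : ℝ) = (q₁ * t₁ * q₂) / q₂ := by field_simp
              rw [e1, e2, ← add_div]
              apply div_le_div_of_nonneg_right _ (by linarith)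
              have : (2 : ℝ) * t₁ * (1 + q₁ * q₂) ≤ t := by linarith [NNReal.coe_nonneg t₁]
              nlinarith
            have h9 : q₁ * ((t₁ : ℝ) - s) ≤ q₁ * t₁ := by
              apply mul_le_mul_of_nonneg_left _ (by linarith)
              linarith [NNReal.coe_nonneg s]
            linarith
        · -- upper bound
          have h4 := (hg₁.le h2).2
          have h5 := (hg₂.le (show T + s₁ ≤ t + s₁ by gcongr)).2
          rw [← hag' T ht₁T le_rfl] at h5
          push_cast at h5
          rw [show (t : ℝ) + s₁ - (T + s₁) = t - T by ring] at h5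
          have h6 := dist_triangle (g₁ s) (g₁ T) (g₂ (t + s₁))
          have h7 : q₁ * ((T : ℝ) - s) ≤ q₁ * (t - s) :=
            mul_le_mul_of_nonneg_left (by linarith) (by linarith)
          have h8 : q₂ * ((t : ℝ) - T) ≤ q₂ * (t - s) :=
            mul_le_mul_of_nonneg_left (by linarith) (by linarith)
          have h9 : q * ((t : ℝ) - s) = 2 * (q₁ * (t - s)) + 2 * (q₂ * (t - s)) := by rw [hq]; ring
          have h10 : 0 ≤ q₁ * ((t : ℝ) - s) := mul_nonneg (by linarith) hst'
          have h11 : 0 ≤ q₂ * ((t : ℝ) - s) := mul_nonneg (by linarith) hst'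
          linarith
      · simp only [if_neg h1, if_neg h2]
        have := hg₂.le (show s + s₁ ≤ t + s₁ by gcongr)
        push_cast at this
        rw [show (t : ℝ) + s₁ - (s + s₁) = t - s by ring] at this
        constructor
        · linarith [this.1]
        · linarith [this.2]
  have h00 : g₁ 0 = α 0 := ha₁ 0 (Or.inl (by simpa using hr))
  refine ⟨_, hQG, ?_, s₁ + s₂, T + 1 + t₂, by positivity, by positivity, ?_⟩
  · intro t ht
    by_cases h1 : t ≤ T
    · simp only [if_pos h1] at ht ⊢
      exact ha₁ t ht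
    · exfalso
      have h1r : (T : ℝ) ≤ t := by exact_mod_cast (not_le.1 h1).le
      have h3 := hQG.far (r := r) (t := t) (by linarith [NNReal.coe_nonneg t₁])
      have h4 := hg₁.far (r := r) (t := t) (by linarith [NNReal.coe_nonneg t₁])
      have h0T : (0 : ℝ≥0) ≤ T := bot_le
      simp only [if_pos h0T, if_neg h1] at h3 ht
      rw [h00] at h3 h4
      rcases ht with ht | ht
      · have := ha₁ t (Or.inl ht)
        rw [this] at h4
        linarith
      · linarith
  · intro t ht
    have h1 : ¬ t ≤ T := not_le.2 (lt_of_lt_of_le (by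
      have : T < T + 1 := by simp
      exact lt_of_lt_of_le this (by simp)) ht)
    simp only [if_neg h1]
    rw [he₂ (t + s₁) ?_, add_assoc]
    calc t₂ ≤ T + 1 + t₂ := by simp
      _ ≤ t := ht
      _ ≤ t + s₁ := by simp

end

end Pool.Agent.V8H67.QR
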