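import Pool.Agent.V8H67.QR.Chain

set_option autoImplicit false

namespace Pool.Agent.V8H67.QR

/-- edge paths inside `P` -/
inductive Rch (P : G3 → Prop) : ℕ → G3 → G3 → Prop
  | refl (g : G3) : P g → Rch P 0 g g
  | step (n : ℕ) (g h h' : G3) : Rch P n g h → St3 h h' → P h' → Rch P (n + 1) g h'

theorem Rch.left {P : G3 → Prop} {n : ℕ} {g h : G3} (H : Rch P n g h) : P g := by
  induction H with
  | refl g hg => exact hg
  | step n g h h' _ _ _ ih => exact ih

theorem Rch.right {P : G3 → Prop} {n : ℕ} {g h : G3} (H : Rch P n g h) : P h := by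
  cases H with
  | refl g hg => exact hg
  | step n g h h' _ _ h3 => exact h3

theorem Rch.trans {P : G3 → Prop} {n m : ℕ} {g h k : G3} (H : Rch P n g h) (H' : Rch P m h k) :
    Rch P (n + m) g k := by
  induction H' with
  | refl h hh => exact H
  | step m h k k' _ h2 h3 ih => exact Rch.step _ _ _ _ (ih H) h2 h3

theorem Rch.symm {P : G3 → Prop} {n : ℕ} {g h : G3} (H : Rch P n g h) : Rch P n h g := by
  induction H with
  | refl g hg => exact Rch.refl g hg
  | step n g h h' h1 h2 h3 ih =>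
    have : Rch P 1 h' h := Rch.step 0 h' h' h (Rch.refl h' h3) h2.symm h1.right
    rw [add_comm]
    exact this.trans ih

theorem Rch.mono {P P' : G3 → Prop} {n : ℕ} {g h : G3} (H : Rch P n g h) (hP : ∀ x, P x → P' x) :
    Rch P' n g h := by
  induction H with
  | refl g hg => exact Rch.refl g (hP _ hg)
  | step n g h h' _ h2 h3 ih => exact Rch.step _ _ _ _ ih h2 (hP _ h3)

theorem Rch.mul {P P' : G3 → Prop} {n : ℕ} {g h : G3} (H : Rch P n g h) (u : G3)
    (hP : ∀ x, P x → P' (x * u)) : Rch P' n (g * u) (h * u) := by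
  induction H with
  | refl g hg => exact Rch.refl _ (hP _ hg)
  | step n g h h' _ h2 h3 ih => exact Rch.step _ _ _ _ ih (h2.mul u) (hP _ h3)

theorem Rch.edge {P : G3 → Prop} {g h : G3} (H : St3 g h) (h1 : P g) (h2 : P h) : Rch P 1 g h :=
  Rch.step 0 g g h (Rch.refl g h1) H h2

theorem Rch.line {P : G3 → Prop} {s : G3} (hs : ∀ g, St3 g (s * g)) (n : ℕ) (g : G3)
    (hP : ∀ i ≤ n, P (s ^ i * g)) : Rch P n g (s ^ n * g) := by
  induction n with
  | zero => simpa using Rch.refl g (by simpa using hP 0 le_rfl)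
  | succ n ih =>
    have := ih (fun i hi => hP i (by omega))
    refine Rch.step _ _ _ _ this ?_ (hP _ le_rfl)
    rw [pow_succ', mul_assoc]
    exact hs _

theorem stA (g : G3) : St3 g (a3 * g) := by unfold St3; simp
theorem stB (g : G3) : St3 g (b3 * g) := by unfold St3; simp
theorem stC (g : G3) : St3 g (c3 * g) := by unfold St3; simp
theorem stD (g : G3) : St3 g (d3 * g) := by unfold St3; simp

theorem ab_pow (i j : ℕ) : a3 ^ i * b3 ^ j = b3 ^ j * a3 ^ i :=
  ((show Commute a3 b3 from ab3).pow_pow i j).eq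

theorem can3' (n : ℕ) : c3 * a3 ^ n = b3 ^ n * c3 := by
  have := can3 n
  simpa using this

theorem dan' (n : ℕ) : d3 * a3 ^ n = c3 ^ n * d3 := by
  have := dan n
  simpa using this

/-- crossing a `c`-edge far away -/
theorem local_c (N : ℕ) (u : G3) (hu : 0 ≤ tot u) :
    Rch (fun x => (N : ℤ) ≤ tot x) (2 * N + 1) (a3 ^ N * u) (a3 ^ N * (c3 * u)) := by
  have h1 : Rch (fun x => (N : ℤ) ≤ tot x) 1 (a3 ^ N * u) (b3 ^ N * (c3 * u)) := by
    have e : b3 ^ N * (c3 * u) = c3 * (a3 ^ N * u) := by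
      rw [← mul_assoc, ← can3', mul_assoc]
    rw [e]
    refine Rch.edge (stC _) ?_ ?_
    · simp; linarith
    · simp; linarith
  have h2 : Rch (fun x => (N : ℤ) ≤ tot x) N (b3 ^ N * (c3 * u)) (a3 ^ N * (b3 ^ N * (c3 * u))) := by
    apply Rch.line stA
    intro i _
    simp
    have : (0 : ℤ) ≤ i := by positivity
    linarith
  have h3 : Rch (fun x => (N : ℤ) ≤ tot x) N (a3 ^ N * (c3 * u)) (b3 ^ N * (a3 ^ N * (c3 * u))) := by
    apply Rch.line stB
    intro i _
    simp
    have : (0 : ℤ) ≤ i := by positivity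
    linarith
  have e : b3 ^ N * (a3 ^ N * (c3 * u)) = a3 ^ N * (b3 ^ N * (c3 * u)) := by
    rw [← mul_assoc, ← ab_pow, mul_assoc]
  rw [e] at h3
  have := (h1.trans h2).trans h3.symm
  rwa [show 1 + N + N = 2 * N + 1 by ring] at this

theorem local_cn (N j : ℕ) (u : G3) (hu : 0 ≤ tot u) :
    Rch (fun x => (N : ℤ) ≤ tot x) (j * (2 * N + 1)) (a3 ^ N * u) (a3 ^ N * (c3 ^ j * u)) := by
  induction j with
  | zero =>
    simp only [pow_zero, one_mul, zero_mul]
    exact Rch.refl _ (by simp; linarith)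
  | succ j ih =>
    have h := local_c N (c3 ^ j * u) (by simp; positivity)
    rw [← mul_assoc c3, ← pow_succ'] at h
    have := ih.trans h
    rwa [show j * (2 * N + 1) + (2 * N + 1) = (j + 1) * (2 * N + 1) by ring] at this

/-- crossing any edge far away -/
theorem local_s (N : ℕ) {s : G3} (hs : s ∈ S3) :
    ∃ n, n ≤ 2 * (N + 1) * (N + 1) ∧
      Rch (fun x => (N : ℤ) ≤ tot x) n (a3 ^ N) (a3 ^ N * s) := by
  rcases hs with h | h | h | h <;> subst h
  · refine ⟨1, by nlinarith, ?_⟩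
    have e : a3 ^ N * a3 = a3 * a3 ^ N := (pow_succ a3 N).symm.trans (pow_succ' a3 N)
    rw [e]
    exact Rch.edge (stA _) (by simp) (by simp)
  · refine ⟨1, by nlinarith, ?_⟩
    have e : a3 ^ N * b3 = b3 * a3 ^ N := by simpa using ab_pow N 1
    rw [e]
    exact Rch.edge (stB _) (by simp) (by simp)
  · refine ⟨2 * N + 1, by nlinarith, ?_⟩
    simpa using local_c N 1 (by simp)
  · refine ⟨1 + N + N * (2 * N + 1), by nlinarith, ?_⟩
    have h1 : Rch (fun x => (N : ℤ) ≤ tot x) 1 (a3 ^ N) (c3 ^ N * d3) := by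
      rw [← dan']
      exact Rch.edge (stD _) (by simp) (by simp)
    have h2 : Rch (fun x => (N : ℤ) ≤ tot x) N (c3 ^ N * d3) (a3 ^ N * (c3 ^ N * d3)) := by
      apply Rch.line stA
      intro i _
      simp
    have h3 := local_cn N N d3 (by simp)
    exact (h1.trans h2).trans h3.symm

/-- lower bound for the norm in the flat -/
theorem nm_flat (i j : ℤ) : i.natAbs + j.natAbs ≤ nm (b3 ^ i * a3 ^ j) := by
  have h := D2_le {(0 : ℤ), -1} 1 (b3 ^ i * a3 ^ j) 1
  have e : b3 ^ i * a3 ^ j = io (b2 ^ i * a2 ^ j) := by simp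
  rw [mul_one, mul_one, inv_one, mul_one, e, Pr_io, Pr_one, ← e] at h
  unfold D2 at h
  rw [Finset.sum_pair (by norm_num)] at h
  have x1 : X (b2 ^ i * a2 ^ j * c2 ^ (-(0 : ℤ))) = j := by
    rw [neg_zero, mul_assoc, X_bn, X_an]
    simp
  have x2 : X (b2 ^ i * a2 ^ j * c2 ^ (-(-1 : ℤ))) = i := by
    rw [neg_neg, zpow_one, mul_assoc, X_bn, X_an]
    have := X_c 1
    simp at this
    simp [this]
  rw [x1, x2] at h
  simp only [one_mul, X_cn', sub_zero, lv_mul, lv_bn', lv_an', lv_one, add_zero, abs_zero,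
    Int.abs_eq_natAbs] at h
  omega

/-- from one end of the `a`-line to the other -/
theorem turn (N : ℕ) : Rch (fun x => N ≤ nm x) (4 * N) (a3 ^ N) (a3 ^ (-(N : ℤ))) := by
  have h1 : Rch (fun x => N ≤ nm x) N (a3 ^ N) (b3 ^ N * a3 ^ N) := by
    apply Rch.line stB
    intro i _
    have := nm_flat i N
    simp at this
    omega
  have h2 : Rch (fun x => N ≤ nm x) N (a3 ^ (-(N : ℤ))) (b3 ^ N * a3 ^ (-(N : ℤ))) := by
    apply Rch.line stB
    intro i _
    have := nm_flat i (-N)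
    simp only [zpow_natCast, Int.natAbs_neg, Int.natAbs_natCast] at this
    omega
  have h3 : Rch (fun x => N ≤ nm x) (2 * N) (b3 ^ N * a3 ^ (-(N : ℤ))) (b3 ^ N * a3 ^ N) := by
    have e : b3 ^ N * a3 ^ N = a3 ^ (2 * N) * (b3 ^ N * a3 ^ (-(N : ℤ))) := by
      rw [← mul_assoc, ab_pow, mul_assoc]
      congr 1
      rw [← zpow_natCast, ← zpow_natCast, ← _root_.zpow_add]
      congr 1
      push_cast; ring
    rw [e]
    apply Rch.line stA
    intro i _
    have e2 : a3 ^ i * (b3 ^ N * a3 ^ (-(N : ℤ))) = b3 ^ (N : ℤ) * a3 ^ ((i : ℤ) - N) := by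
      rw [← mul_assoc, ab_pow, mul_assoc, sub_eq_add_neg, _root_.zpow_add, zpow_natCast, zpow_natCast]
    rw [e2]
    have := nm_flat N ((i : ℤ) - N)
    simp only [Int.natAbs_natCast] at this
    omega
  have := h1.trans (h3.symm.trans h2.symm)
  rwa [show N + (2 * N + N) = 4 * N by ring] at this

end Pool.Agent.V8H67.QR
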