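import Pool.Agent.V8H67.QR.Height

set_option autoImplicit false

namespace Pool.Agent.V8H67.QR

open scoped NNReal ENNReal

section
variable {G : Type} [Group G] (S : Set G)

/-- points of the edges -/
structure Pt where
  /-- the initial vertex -/
  g : G
  /-- the generator -/
  s : S
  /-- the position -/
  t : Set.Icc (0 : ℝ) 1

variable {S}

/-- the end points of the edge -/
def Pt.E (x : Pt S) : Bool → G
  | false => x.g
  | true => x.g * x.s

/-- the distances to the end points of the edge -/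
def Pt.w (x : Pt S) : Bool → ℝ
  | false => x.t
  | true => 1 - x.t

omit [Group G] in
theorem Pt.w_nonneg (x : Pt S) (i : Bool) : 0 ≤ x.w i := by
  cases i
  · exact x.t.2.1
  · have := x.t.2.2
    simp only [Pt.w]
    linarith

/-- the length of the way through the end points `i`, `j` -/
noncomputable def way (x y : Pt S) (i j : Bool) : ℝ := x.w i + wnorm S ((x.E i)⁻¹ * y.E j) + y.w j

/-- the distance through end points -/
noncomputable def D' (x y : Pt S) : ℝ := min (min (way x y false false) (way x y false true))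
  (min (way x y true false) (way x y true true))

theorem D'_le (x y : Pt S) (i j : Bool) : D' x y ≤ way x y i j := by
  unfold D'
  cases i <;> cases j <;> simp

theorem D'_eq (x y : Pt S) : ∃ i j, D' x y = way x y i j := by
  unfold D'
  rcases min_choice (min (way x y false false) (way x y false true))
    (min (way x y true false) (way x y true true)) with h | h <;> rw [h]
  · rcases min_choice (way x y false false) (way x y false true) with h | h <;> rw [h] <;>
      exact ⟨_, _, rfl⟩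
  · rcases min_choice (way x y true false) (way x y true true) with h | h <;> rw [h] <;>
      exact ⟨_, _, rfl⟩

theorem le_D' {x y : Pt S} {a : ℝ} (h : ∀ i j, a ≤ way x y i j) : a ≤ D' x y := by
  obtain ⟨i, j, e⟩ := D'_eq x y
  rw [e]; exact h i j

open Classical in
/-- the distance -/
noncomputable def D (x y : Pt S) : ℝ :=
  if x.g = y.g ∧ x.s = y.s then |(x.t : ℝ) - y.t| else D' x y

variable (hS : Subgroup.closure S = ⊤) (h1 : (1 : G) ∉ S)

include hS

theorem way_comm (x y : Pt S) (i j : Bool) : way x y i j = way y x j i := by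
  unfold way
  rw [← wnorm_inv hS, mul_inv_rev, inv_inv]
  ring

theorem D'_comm (x y : Pt S) : D' x y = D' y x := by
  apply le_antisymm
  · apply le_D'
    intro i j
    rw [way_comm hS]
    exact D'_le _ _ _ _
  · apply le_D'
    intro i j
    rw [way_comm hS]
    exact D'_le _ _ _ _

theorem D_comm (x y : Pt S) : D x y = D y x := by
  unfold D
  by_cases h : x.g = y.g ∧ x.s = y.s
  · rw [if_pos h, if_pos ⟨h.1.symm, h.2.symm⟩, abs_sub_comm]
  · rw [if_neg h, if_neg (fun h' => h ⟨h'.1.symm, h'.2.symm⟩), D'_comm hS]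

theorem wd_tri (a b c : G) : wnorm S (a⁻¹ * c) ≤ wnorm S (a⁻¹ * b) + wnorm S (b⁻¹ * c) := by
  have := wnorm_mul hS (a⁻¹ * b) (b⁻¹ * c)
  rwa [show a⁻¹ * b * (b⁻¹ * c) = a⁻¹ * c by group] at this

theorem EE_le (y : Pt S) (j k : Bool) : (wnorm S ((y.E j)⁻¹ * y.E k) : ℝ) ≤ y.w j + y.w k := by
  have h0 := y.t.2.1
  have h1 := y.t.2.2
  have hs : (wnorm S (y.s : G) : ℝ) ≤ 1 := by exact_mod_cast wnorm_of y.s.2
  have hs' : (wnorm S ((y.s : G)⁻¹) : ℝ) ≤ 1 := by rw [wnorm_inv hS]; exact hs
  cases j <;> cases k <;> simp only [Pt.E, Pt.w]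
  · rw [inv_mul_cancel, wnorm_one]; push_cast; linarith
  · rw [inv_mul_cancel_left]; linarith
  · rw [mul_inv_rev, inv_mul_cancel_right]; linarith
  · rw [inv_mul_cancel, wnorm_one]; push_cast; linarith

theorem D'_tri (x y z : Pt S) : D' x z ≤ D' x y + D' y z := by
  obtain ⟨i, j, e1⟩ := D'_eq x y
  obtain ⟨k, l, e2⟩ := D'_eq y z
  rw [e1, e2]
  refine (D'_le x z i l).trans ?_
  have h2 := EE_le hS y j k
  have h3 : (wnorm S ((x.E i)⁻¹ * z.E l) : ℝ) ≤ wnorm S ((x.E i)⁻¹ * y.E j) +
      wnorm S ((y.E j)⁻¹ * y.E k) + wnorm S ((y.E k)⁻¹ * z.E l) := by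
    have h4 := wd_tri hS (x.E i) (y.E j) (z.E l)
    have h5 := wd_tri hS (y.E j) (y.E k) (z.E l)
    have : wnorm S ((x.E i)⁻¹ * z.E l) ≤ wnorm S ((x.E i)⁻¹ * y.E j) +
      wnorm S ((y.E j)⁻¹ * y.E k) + wnorm S ((y.E k)⁻¹ * z.E l) := by omega
    exact_mod_cast this
  unfold way
  linarith

omit hS [Group G] in
theorem same_w {x y : Pt S} (i : Bool) : x.w i ≤ |(x.t : ℝ) - y.t| + y.w i := by
  have := le_abs_self ((x.t : ℝ) - y.t)
  have := neg_abs_le ((x.t : ℝ) - y.t)
  cases i <;> simp only [Pt.w] <;> linarith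

omit hS in
theorem same_E {x y : Pt S} (h : x.g = y.g ∧ x.s = y.s) (i : Bool) : x.E i = y.E i := by
  cases i <;> simp only [Pt.E, h.1, h.2]

omit hS in
theorem same_tri {x y z : Pt S} (h : x.g = y.g ∧ x.s = y.s) : D' x z ≤ |(x.t : ℝ) - y.t| + D' y z := by
  obtain ⟨i, j, e⟩ := D'_eq y z
  rw [e]
  refine (D'_le x z i j).trans ?_
  unfold way
  rw [same_E h]
  have := same_w (x := x) (y := y) i
  linarith

theorem wnorm_zero {g : G} (h : wnorm S g = 0) : g = 1 := by
  obtain ⟨l, h1, -, h3⟩ := wnorm_spec hS g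
  rw [h] at h1
  rw [← h3, List.length_eq_zero_iff.1 h1]
  rfl

include h1

theorem wnorm_gen (s : S) : wnorm S (s : G) = 1 := by
  have h2 := wnorm_of s.2
  rcases Nat.eq_zero_or_pos (wnorm S (s : G)) with h | h
  · exact absurd (wnorm_zero hS h ▸ s.2) h1
  · omega

theorem abs_le_D' {x z : Pt S} (h : x.g = z.g ∧ x.s = z.s) : |(x.t : ℝ) - z.t| ≤ D' x z := by
  apply le_D'
  intro i l
  unfold way
  rw [same_E h]
  have hx0 := x.t.2.1
  have hx1 := x.t.2.2
  have hz0 := z.t.2.1
  have hz1 := z.t.2.2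
  have hs : (wnorm S (z.s : G) : ℝ) = 1 := by exact_mod_cast wnorm_gen hS h1 z.s
  have hs' : (wnorm S ((z.s : G)⁻¹) : ℝ) = 1 := by rw [wnorm_inv hS]; exact hs
  rw [abs_le]
  cases i <;> cases l <;> simp only [Pt.E, Pt.w]
  · rw [inv_mul_cancel, wnorm_one]; push_cast; constructor <;> linarith
  · rw [inv_mul_cancel_left, hs]; constructor <;> linarith
  · rw [mul_inv_rev, inv_mul_cancel_right, hs']; constructor <;> linarith
  · rw [inv_mul_cancel, wnorm_one]; push_cast; constructor <;> linarith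

theorem D_tri (x y z : Pt S) : D x z ≤ D x y + D y z := by
  unfold D
  by_cases a : x.g = y.g ∧ x.s = y.s
  · by_cases b : y.g = z.g ∧ y.s = z.s
    · rw [if_pos a, if_pos b, if_pos ⟨a.1.trans b.1, a.2.trans b.2⟩]
      exact abs_sub_le _ _ _
    · have c : ¬ (x.g = z.g ∧ x.s = z.s) := fun c => b ⟨a.1.symm.trans c.1, a.2.symm.trans c.2⟩
      rw [if_pos a, if_neg b, if_neg c]
      exact same_tri a
  · by_cases b : y.g = z.g ∧ y.s = z.s
    · have c : ¬ (x.g = z.g ∧ x.s = z.s) := fun c => a ⟨c.1.trans b.1.symm, c.2.trans b.2.symm⟩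
      rw [if_neg a, if_pos b, if_neg c, D'_comm hS x z, D'_comm hS x y, abs_sub_comm, add_comm]
      exact same_tri ⟨b.1.symm, b.2.symm⟩
    · by_cases c : x.g = z.g ∧ x.s = z.s
      · rw [if_neg a, if_neg b, if_pos c]
        exact (abs_le_D' hS h1 c).trans (D'_tri hS x y z)
      · rw [if_neg a, if_neg b, if_neg c]
        exact D'_tri hS x y z

/-- the pseudometric -/
noncomputable abbrev pm : PseudoMetricSpace (Pt S) where
  dist := D
  dist_self x := by simp [D]
  dist_comm := D_comm hS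
  dist_triangle := D_tri hS h1

end

end Pool.Agent.V8H67.QR
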