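import Pool.Agent.V8H67.QR.Real

set_option autoImplicit false

namespace Pool.Agent.V8H67.QR

open scoped NNReal ENNReal

section
variable {G : Type} [Group G] {S : Set G} (hS : Subgroup.closure S = ⊤) (h1 : (1 : G) ∉ S)

/-- the vertex `g` -/
def vtx (s0 : S) (g : G) : Pt S := ⟨g, s0, ⟨0, by simp⟩⟩

include hS h1

theorem D_v (s0 : S) (g : G) (y : Pt S) : D (vtx s0 g) y =
    min ((wnorm S (g⁻¹ * y.g) : ℝ) + y.t) ((wnorm S (g⁻¹ * (y.g * y.s)) : ℝ) + (1 - y.t)) := by
  have hy0 := y.t.2.1
  have hy1 := y.t.2.2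
  unfold D
  by_cases a : (vtx s0 g).g = y.g ∧ (vtx s0 g).s = y.s
  · rw [if_pos a]
    have hg : g = y.g := a.1
    have e1 : ((vtx s0 y.g).t : ℝ) = 0 := rfl
    rw [hg, inv_mul_cancel, inv_mul_cancel_left, wnorm_one, wnorm_gen hS h1, e1, zero_sub, abs_neg,
      abs_of_nonneg hy0, min_eq_left]
    · push_cast; ring
    · push_cast; linarith
  · rw [if_neg a]
    have hw0 : (vtx s0 g).w false = 0 := rfl
    have hw1 : (vtx s0 g).w true = 1 := by simp [Pt.w, vtx]
    have hE0 : (vtx s0 g).E false = g := rfl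
    have hE1 : (vtx s0 g).E true = g * s0 := rfl
    have key : ∀ j, way (vtx s0 g) y false j ≤ way (vtx s0 g) y true j := by
      intro j
      unfold way
      rw [hw0, hw1, hE0, hE1]
      have h2 := wd_tri hS g (g * s0) (y.E j)
      rw [inv_mul_cancel_left, wnorm_gen hS h1] at h2
      have h3 : (wnorm S (g⁻¹ * y.E j) : ℝ) ≤ 1 + wnorm S ((g * s0)⁻¹ * y.E j) := by exact_mod_cast h2
      linarith
    have e0 : way (vtx s0 g) y false false = (wnorm S (g⁻¹ * y.g) : ℝ) + y.t := by
      unfold way; rw [hw0, hE0, zero_add]; rfl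
    have e1 : way (vtx s0 g) y false true = (wnorm S (g⁻¹ * (y.g * y.s)) : ℝ) + (1 - y.t) := by
      unfold way; rw [hw0, hE0, zero_add]; rfl
    unfold D'
    rw [← e0, ← e1]
    apply min_eq_left
    apply min_le_min (key false) (key true)

/-- THE CAYLEY GRAPH EXISTS. -/
theorem exists_cayleyGraph (hne : S.Nonempty) :
    ∃ (X : Type) (_ : MetricSpace X) (ι : G → X), IsCayleyGraph S ι := by
  let := pm hS h1
  obtain ⟨s00, hs00⟩ := hne
  set s0 : S := ⟨s00, hs00⟩ with hs0
  have hdist : ∀ x y : Pt S, dist (SeparationQuotient.mk x) (SeparationQuotient.mk y) = D x y :=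
    fun x y => SeparationQuotient.dist_mk x y
  set ι : G → SeparationQuotient (Pt S) := fun g => SeparationQuotient.mk (vtx s0 g) with hι
  have hvv : ∀ g h, dist (ι g) (ι h) = wnorm S (g⁻¹ * h) := by
    intro g h
    simp only [hι]
    rw [hdist, D_v hS h1]
    have e0 : ((vtx s0 h).t : ℝ) = 0 := rfl
    have e1 : (vtx s0 h).g = h := rfl
    have e2 : (vtx s0 h).s = s0 := rfl
    rw [e0, e1, e2, add_zero, sub_zero]
    apply min_eq_left
    have h2 := wd_tri hS g (h * s0) h
    rw [mul_inv_rev, inv_mul_cancel_right, wnorm_inv hS, wnorm_gen hS h1] at h2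
    exact_mod_cast h2
  have hv0 : ∀ x : Pt S, dist (ι x.g) (SeparationQuotient.mk x) = x.t := by
    intro x
    simp only [hι]
    rw [hdist, D_v hS h1, inv_mul_cancel, inv_mul_cancel_left, wnorm_one, wnorm_gen hS h1]
    have := x.t.2.1
    have := x.t.2.2
    rw [min_eq_left]
    · push_cast; ring
    · push_cast; linarith
  have hv1 : ∀ x : Pt S, dist (ι (x.g * x.s)) (SeparationQuotient.mk x) = 1 - x.t := by
    intro x
    simp only [hι]
    rw [hdist, D_v hS h1, inv_mul_cancel, mul_inv_rev, inv_mul_cancel_right, wnorm_inv hS,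
      wnorm_gen hS h1, wnorm_one]
    have := x.t.2.1
    have := x.t.2.2
    rw [min_eq_right]
    · push_cast; ring
    · push_cast; linarith
  -- paths along edges
  have seg : ∀ (g : G) (s : S) (t t' : Set.Icc (0 : ℝ) 1), (t : ℝ) ≤ t' →
      PathAvoid ∅ ((t' : ℝ) - t) (SeparationQuotient.mk (⟨g, s, t⟩ : Pt S))
        (SeparationQuotient.mk ⟨g, s, t'⟩) := by
    intro g s t t' htt
    refine ⟨by linarith, fun u => SeparationQuotient.mk ⟨g, s, Set.projIcc 0 1 zero_le_one (t + u)⟩,
      ?_, ?_, ?_, fun _ _ _ h => h⟩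
    · simp
    · simp
    · intro u u' _ huu _
      rw [hdist]
      unfold D
      rw [if_pos ⟨rfl, rfl⟩]
      have h2 := Set.abs_projIcc_sub_projIcc (a := (0 : ℝ)) (b := 1) (c := t + u) (d := t + u')
        zero_le_one
      refine h2.trans ?_
      rw [show (t : ℝ) + u - (t + u') = -(u' - u) by ring, abs_neg, abs_of_nonneg (by linarith)]
  have z0 : ∀ (g : G) (s : S), SeparationQuotient.mk (⟨g, s, ⟨0, by simp⟩⟩ : Pt S) = ι g := by
    intro g s
    have := hv0 ⟨g, s, ⟨0, by simp⟩⟩
    simp only at this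
    exact (dist_eq_zero.1 this).symm
  have z1 : ∀ (g : G) (s : S), SeparationQuotient.mk (⟨g, s, ⟨1, by simp⟩⟩ : Pt S) = ι (g * s) := by
    intro g s
    have := hv1 ⟨g, s, ⟨1, by simp⟩⟩
    simp only [sub_self] at this
    exact (dist_eq_zero.1 this).symm
  have toEnd : ∀ (x : Pt S) (i : Bool), PathAvoid ∅ (x.w i) (SeparationQuotient.mk x) (ι (x.E i)) := by
    rintro ⟨g, s, t⟩ i
    cases i
    · have := seg g s ⟨0, by simp⟩ t t.2.1
      rw [z0] at this
      simpa [Pt.w, Pt.E] using this.symm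
    · have := seg g s t ⟨1, by simp⟩ t.2.2
      rw [z1] at this
      simpa [Pt.w, Pt.E] using this
  have edge : ∀ (g : G) (s : S), PathAvoid ∅ 1 (ι g) (ι (g * s)) := by
    intro g s
    have := seg g s ⟨0, by simp⟩ ⟨1, by simp⟩ (by simp)
    rw [z0, z1] at this
    simpa using this
  have words : ∀ (l : List G) (g : G), (∀ x ∈ l, x ∈ S ∨ x⁻¹ ∈ S) →
      PathAvoid ∅ l.length (ι g) (ι (g * l.prod)) := by
    intro l
    induction l with
    | nil =>
      intro g _
      simp only [List.length_nil, Nat.cast_zero, List.prod_nil, mul_one]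
      exact PathAvoid.refl (by simp)
    | cons a l ih =>
      intro g hl
      have ih := ih (g * a) (fun x hx => hl x (List.mem_cons_of_mem _ hx))
      have h2 : PathAvoid ∅ 1 (ι g) (ι (g * a)) := by
        rcases hl a (List.mem_cons_self ..) with h | h
        · exact edge g ⟨a, h⟩
        · have := (edge (g * a) ⟨a⁻¹, h⟩).symm
          simpa using this
      have := h2.trans ih
      rw [List.length_cons, List.prod_cons, ← mul_assoc]
      push_cast
      rwa [add_comm (l.length : ℝ) 1]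
  have verts : ∀ g h : G, PathAvoid ∅ (wnorm S (g⁻¹ * h)) (ι g) (ι h) := by
    intro g h
    obtain ⟨l, e1, e2, e3⟩ := wnorm_spec hS (g⁻¹ * h)
    have := words l g e2
    rw [e1, e3, mul_inv_cancel_left] at this
    exact this
  have paths : ∀ x y : SeparationQuotient (Pt S), PathAvoid ∅ (dist x y) x y := by
    intro x y
    obtain ⟨x, rfl⟩ := SeparationQuotient.surjective_mk x
    obtain ⟨y, rfl⟩ := SeparationQuotient.surjective_mk y
    rw [hdist]
    unfold D
    by_cases a : x.g = y.g ∧ x.s = y.s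
    · rw [if_pos a]
      obtain ⟨g, s, t⟩ := x
      obtain ⟨g', s', t'⟩ := y
      simp only at a
      obtain ⟨rfl, rfl⟩ := a
      rcases le_total (t : ℝ) t' with h | h
      · rw [abs_sub_comm, abs_of_nonneg (by linarith)]
        exact seg g s t t' h
      · rw [abs_of_nonneg (by linarith)]
        exact (seg g s t' t h).symm
    · rw [if_neg a]
      obtain ⟨i, j, e⟩ := D'_eq x y
      rw [e]
      exact ((toEnd x i).trans (verts _ _)).trans (toEnd y j).symm
  refine ⟨SeparationQuotient (Pt S), inferInstance, ι, hvv, ?_, ?_⟩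
  · intro x
    obtain ⟨x, rfl⟩ := SeparationQuotient.surjective_mk x
    refine ⟨x.g, x.s, x.s.2, ?_⟩
    rw [dist_comm (SeparationQuotient.mk x), hv0, hv1]
    ring
  · intro x y
    obtain ⟨h0, c, c1, c2, c3, -⟩ := paths x y
    refine ⟨c, c1, c2, ?_⟩
    intro s t hs hst ht
    apply le_antisymm (c3 s t hs hst ht)
    have e1 := c3 0 s le_rfl hs (hst.trans ht)
    have e2 := c3 t (dist x y) (hs.trans hst) ht le_rfl
    rw [c1] at e1
    rw [c2] at e2
    have e3 := dist_triangle x (c s) y
    have e4 := dist_triangle (c s) (c t) y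
    linarith

end

end Pool.Agent.V8H67.QR
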