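import Pool.Agent.V8H67.QR.Lower2

set_option autoImplicit false

namespace Pool.Agent.V8H67.QR

/-! ### lower bounds for distances -/

/-- the distance of the coordinates -/
def D2 (I : Finset ℤ) (x y : G2) : ℤ :=
  ∑ m ∈ I, |X (x * c2 ^ (-m)) - X (y * c2 ^ (-m))| + |lv x - lv y|

theorem D2_self (I : Finset ℤ) (x : G2) : D2 I x x = 0 := by simp [D2]

theorem D2_comm (I : Finset ℤ) (x y : G2) : D2 I x y = D2 I y x := by
  unfold D2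
  rw [abs_sub_comm (lv x)]
  congr 1
  apply Finset.sum_congr rfl
  intro m _
  rw [abs_sub_comm]

theorem D2_tri (I : Finset ℤ) (x y z : G2) : D2 I x z ≤ D2 I x y + D2 I y z := by
  unfold D2
  have h1 := abs_sub_le (lv x) (lv y) (lv z)
  have h2 : ∑ m ∈ I, |X (x * c2 ^ (-m)) - X (z * c2 ^ (-m))| ≤
      ∑ m ∈ I, |X (x * c2 ^ (-m)) - X (y * c2 ^ (-m))| +
        ∑ m ∈ I, |X (y * c2 ^ (-m)) - X (z * c2 ^ (-m))| := by
    rw [← Finset.sum_add_distrib]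
    exact Finset.sum_le_sum (fun m _ => abs_sub_le _ _ _)
  linarith

theorem sum_ind (I : Finset ℤ) (k : ℤ) : ∑ m ∈ I, |(if k - m = 0 then (1 : ℤ) else 0)| ≤ 1 := by
  have : ∀ m : ℤ, |(if k - m = 0 then (1 : ℤ) else 0)| = if k = m then 1 else 0 := by
    intro m
    by_cases h : k = m
    · simp [h]
    · rw [if_neg (by omega), if_neg h]; simp
  simp only [this, Finset.sum_ite_eq]
  split_ifs <;> simp

theorem D2_a (I : Finset ℤ) (x : G2) : D2 I (a2 * x) x ≤ 1 := by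
  unfold D2
  have h : ∀ m : ℤ, X (a2 * x * c2 ^ (-m)) - X (x * c2 ^ (-m)) = if lv x - m = 0 then 1 else 0 := by
    intro m
    rw [mul_assoc, X_a, lv_mul, lv_cn', ← sub_eq_add_neg]
    ring
  simp only [h, lv_mul, lv_a1, zero_add, sub_self, abs_zero, add_zero]
  exact sum_ind I _

theorem D2_b (I : Finset ℤ) (x : G2) : D2 I (b2 * x) x ≤ 1 := by
  unfold D2
  have h : ∀ m : ℤ, X (b2 * x * c2 ^ (-m)) - X (x * c2 ^ (-m)) =
      if (lv x - 1) - m = 0 then 1 else 0 := by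
    intro m
    rw [mul_assoc, X_b, lv_mul, lv_cn']
    by_cases h : lv x + -m = 1
    · rw [if_pos h, if_pos (by omega)]; ring
    · rw [if_neg h, if_neg (by omega)]; ring
  simp only [h, lv_mul, lv_b1, zero_add, sub_self, abs_zero, add_zero]
  exact sum_ind I _

theorem D2_c (I : Finset ℤ) (x : G2) : D2 I (c2 * x) x ≤ 1 := by
  unfold D2
  have h : ∀ m : ℤ, X (c2 * x * c2 ^ (-m)) - X (x * c2 ^ (-m)) = 0 := by
    intro m
    rw [mul_assoc, X_c]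
    ring
  simp only [h]
  simp

theorem D2_St (I : Finset ℤ) {x y : G2} (h : St2 x y) : D2 I y x ≤ 1 := by
  rcases h with h | h | h | h | h | h | h <;> subst h
  · rw [D2_self]; norm_num
  · exact D2_a I x
  · rw [D2_comm]; exact D2_a I y
  · exact D2_b I x
  · rw [D2_comm]; exact D2_b I y
  · exact D2_c I x
  · rw [D2_comm]; exact D2_c I y

theorem D2_le (I : Finset ℤ) (u x y : G3) : D2 I (Pr (x * u)) (Pr (y * u)) ≤ nm (x * y⁻¹) := by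
  have hst : ∀ s ∈ S3, ∀ g : G3, St3 g (s * g) := by
    intro s hs g
    rcases hs with h | h | h | h <;> subst h <;> unfold St3 <;> simp
  have := le_wnorm closure_S3 (fun x y => D2 I (Pr (x * u)) (Pr (y * u)))
    (fun g => (D2_self I _).le) (fun x y z => D2_tri I _ _ _)
    (fun s hs g => D2_St I ((hst s hs g).mul u).pr)
    (fun s hs g => by
      show D2 I (Pr (g * u)) (Pr (s * g * u)) ≤ 1
      rw [D2_comm]
      exact D2_St I ((hst s hs g).mul u).pr) (x * y⁻¹) y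
  simp only [inv_mul_cancel_right] at this
  exact this

/-- the point with the coordinates `i, D, n` -/
def pt (i D n : ℕ) : G2 := b2 ^ (i : ℤ) * a2 ^ (D : ℤ) * c2 ^ (n : ℤ)

@[simp] theorem lv_pt (i D n : ℕ) : lv (pt i D n) = n := by
  rw [pt, lv_mul, lv_mul, lv_bn', lv_an', lv_cn']; ring

theorem X_pt (i D n : ℕ) (m : ℤ) : X (pt i D n * c2 ^ (-m)) =
    (if (n : ℤ) - m = 0 then (D : ℤ) else 0) + if (n : ℤ) - m = 1 then (i : ℤ) else 0 := by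
  have e : pt i D n * c2 ^ (-m) = b2 ^ (i : ℤ) * (a2 ^ (D : ℤ) * c2 ^ ((n : ℤ) - m)) := by
    rw [pt, sub_eq_add_neg, _root_.zpow_add]; group
  rw [e, X_bn, X_an, X_cn']
  simp only [lv_an, lv_cn', zero_add]

theorem Pr_inv_d : Pr d3⁻¹ = 1 := by
  have := Pr_d d3⁻¹
  rw [mul_inv_cancel, Pr_one] at this
  exact this.symm

theorem Pr_pt (i D n : ℕ) : Pr (io (pt i D n) * d3 * d3⁻¹) = pt i D n := by simp

theorem Pr_st (s : ℕ) : Pr (a3 ^ s * d3⁻¹) = pt 0 0 s := by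
  rw [Pr_an s _ (by simp), Pr_inv_d]
  simp [pt]

/-- lower bound for points of the same level -/
theorem low_same (i D i' D' n : ℕ) : |(i : ℤ) - i'| + |(D : ℤ) - D'| ≤
    nm ((io (pt i D n) * d3) * (io (pt i' D' n) * d3)⁻¹) := by
  refine le_trans ?_ (D2_le {(n : ℤ), (n : ℤ) - 1} d3⁻¹ _ _)
  rw [Pr_pt, Pr_pt]
  unfold D2
  rw [Finset.sum_pair (by omega)]
  simp only [X_pt, lv_pt]
  simp
  rw [add_comm]

/-- lower bound for points of successive levels -/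
theorem low_next (i D i' D' n : ℕ) : (D : ℤ) + |(i : ℤ) - D'| + i' ≤
    nm ((io (pt i D (n + 1)) * d3) * (io (pt i' D' n) * d3)⁻¹) := by
  refine le_trans ?_ (D2_le {(n : ℤ) + 1, (n : ℤ), (n : ℤ) - 1} d3⁻¹ _ _)
  rw [Pr_pt, Pr_pt]
  unfold D2
  rw [Finset.sum_insert (by simp; omega), Finset.sum_pair (by omega)]
  simp only [X_pt, lv_pt]
  have e1 : ((n + 1 : ℕ) : ℤ) - ((n : ℤ) + 1) = 0 := by push_cast; ring
  have e2 : ((n + 1 : ℕ) : ℤ) - (n : ℤ) = 1 := by push_cast; ring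
  have e3 : ((n + 1 : ℕ) : ℤ) - ((n : ℤ) - 1) = 2 := by push_cast; ring
  have e4 : (n : ℤ) - ((n : ℤ) + 1) = -1 := by ring
  have e5 : (n : ℤ) - (n : ℤ) = 0 := by ring
  have e6 : (n : ℤ) - ((n : ℤ) - 1) = 1 := by ring
  simp only [e1, e2, e3, e4, e5, e6]
  simp
  linarith

/-- lower bound for points of distant levels -/
theorem low_far (i D i' D' n n' : ℕ) (h : n' + 2 ≤ n) : (D : ℤ) + i + D' + i' ≤
    nm ((io (pt i D n) * d3) * (io (pt i' D' n') * d3)⁻¹) := by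
  refine le_trans ?_ (D2_le {(n : ℤ), (n : ℤ) - 1, (n' : ℤ), (n' : ℤ) - 1} d3⁻¹ _ _)
  rw [Pr_pt, Pr_pt]
  unfold D2
  rw [Finset.sum_insert (by simp; omega), Finset.sum_insert (by simp; omega),
    Finset.sum_pair (by omega)]
  simp only [X_pt, lv_pt]
  have e1 : (n : ℤ) - n = 0 := by ring
  have e2 : (n : ℤ) - ((n : ℤ) - 1) = 1 := by ring
  have e5 : (n' : ℤ) - (n' : ℤ) = 0 := by ring
  have e6 : (n' : ℤ) - ((n' : ℤ) - 1) = 1 := by ring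
  simp only [e1, e2, e5, e6]
  rw [if_neg (show ¬ (n : ℤ) - n' = 0 by omega), if_neg (show ¬ (n : ℤ) - n' = 1 by omega),
    if_neg (show ¬ (n : ℤ) - (n' - 1) = 0 by omega), if_neg (show ¬ (n : ℤ) - (n' - 1) = 1 by omega),
    if_neg (show ¬ (n' : ℤ) - n = 0 by omega), if_neg (show ¬ (n' : ℤ) - n = 1 by omega),
    if_neg (show ¬ (n' : ℤ) - (n - 1) = 0 by omega), if_neg (show ¬ (n' : ℤ) - (n - 1) = 1 by omega)]
  simp
  have := abs_nonneg ((n : ℤ) - n')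
  linarith

/-- lower bound for points of the initial part -/
theorem low_start (s i D n : ℕ) : (D : ℤ) + i + |(n : ℤ) - s| ≤
    nm ((io (pt i D n) * d3) * (a3 ^ s)⁻¹) := by
  refine le_trans ?_ (D2_le {(n : ℤ), (n : ℤ) - 1} d3⁻¹ _ _)
  rw [Pr_pt, Pr_st]
  unfold D2
  rw [Finset.sum_pair (by omega)]
  simp only [X_pt, lv_pt]
  simp

/-! ### upper bounds for distances -/

theorem ab_comm (i j : ℤ) : a3 ^ i * b3 ^ j = b3 ^ j * a3 ^ i :=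
  ((show Commute a3 b3 from ab3).zpow_zpow i j).eq

theorem can3 (n : ℤ) : c3 * a3 ^ n = b3 ^ n * c3 := by
  have := congrArg io (can n)
  simpa using this

theorem up_same (i D i' D' n : ℕ) : (nm ((io (pt i' D' n) * d3) * (io (pt i D n) * d3)⁻¹) : ℤ) ≤
    |(i' : ℤ) - i| + |(D' : ℤ) - D| := by
  have e : (io (pt i' D' n) * d3) * (io (pt i D n) * d3)⁻¹ =
      b3 ^ ((i' : ℤ) - i) * a3 ^ ((D' : ℤ) - D) := by
    simp only [pt, map_mul, map_zpow, io_a, io_b, io_c, mul_inv_rev, sub_eq_add_neg,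
      _root_.zpow_add, zpow_neg]
    have h := ab_comm (-(D : ℤ)) (-(i : ℤ))
    rw [zpow_neg, zpow_neg] at h
    have h2 := ab_comm (D' : ℤ) (-(i : ℤ))
    rw [zpow_neg] at h2
    calc b3 ^ (i' : ℤ) * a3 ^ (D' : ℤ) * c3 ^ (n : ℤ) * d3 * (d3⁻¹ * ((c3 ^ (n : ℤ))⁻¹ *
          ((a3 ^ (D : ℤ))⁻¹ * (b3 ^ (i : ℤ))⁻¹)))
        = b3 ^ (i' : ℤ) * (a3 ^ (D' : ℤ) * ((a3 ^ (D : ℤ))⁻¹ * (b3 ^ (i : ℤ))⁻¹)) := by group
      _ = b3 ^ (i' : ℤ) * ((a3 ^ (D' : ℤ) * (b3 ^ (i : ℤ))⁻¹) * (a3 ^ (D : ℤ))⁻¹) := by rw [h]; group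
      _ = _ := by rw [h2]; group
  rw [e]
  have h1 := nm_mul (b3 ^ ((i' : ℤ) - i)) (a3 ^ ((D' : ℤ) - D))
  have h2 := nm_b ((i' : ℤ) - i)
  have h3 := nm_a ((D' : ℤ) - D)
  rw [Int.abs_eq_natAbs, Int.abs_eq_natAbs]
  omega

theorem up_next (i D i' D' n : ℕ) :
    (nm ((io (pt i' D' n) * d3) * (io (pt i D (n + 1)) * d3)⁻¹) : ℤ) ≤
    i' + |(D' : ℤ) - i| + 1 + D := by
  have e : (io (pt i' D' n) * d3) * (io (pt i D (n + 1)) * d3)⁻¹ =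
      b3 ^ (i' : ℤ) * a3 ^ ((D' : ℤ) - i) * c3 ^ (-1 : ℤ) * a3 ^ (-(D : ℤ)) := by
    simp only [pt, map_mul, map_zpow, io_a, io_b, io_c, mul_inv_rev]
    push_cast
    have h := ab_comm (-(D : ℤ)) (-(i : ℤ))
    have h2 : c3 ^ (-1 : ℤ) * b3 ^ (-(i : ℤ)) = a3 ^ (-(i : ℤ)) * c3 ^ (-1 : ℤ) := by
      have := can3 (-(i : ℤ))
      rw [zpow_neg_one]
      have h3 : c3⁻¹ * (c3 * a3 ^ (-(i : ℤ))) * c3⁻¹ = c3⁻¹ * (b3 ^ (-(i : ℤ)) * c3) * c3⁻¹ := by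
        rw [this]
      calc c3⁻¹ * b3 ^ (-(i : ℤ)) = c3⁻¹ * (b3 ^ (-(i : ℤ)) * c3) * c3⁻¹ := by group
        _ = c3⁻¹ * (c3 * a3 ^ (-(i : ℤ))) * c3⁻¹ := h3.symm
        _ = _ := by group
    calc b3 ^ (i' : ℤ) * a3 ^ (D' : ℤ) * c3 ^ (n : ℤ) * d3 * (d3⁻¹ * ((c3 ^ ((n : ℤ) + 1))⁻¹ *
          ((a3 ^ (D : ℤ))⁻¹ * (b3 ^ (i : ℤ))⁻¹)))
        = b3 ^ (i' : ℤ) * a3 ^ (D' : ℤ) * (c3 ^ (-1 : ℤ) * (a3 ^ (-(D : ℤ)) * b3 ^ (-(i : ℤ)))) := by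
          group
      _ = b3 ^ (i' : ℤ) * a3 ^ (D' : ℤ) * ((c3 ^ (-1 : ℤ) * b3 ^ (-(i : ℤ))) * a3 ^ (-(D : ℤ))) := by
          rw [h]; group
      _ = _ := by rw [h2]; group
  rw [e]
  have h1 := nm_mul (b3 ^ (i' : ℤ) * a3 ^ ((D' : ℤ) - i) * c3 ^ (-1 : ℤ)) (a3 ^ (-(D : ℤ)))
  have h2 := nm_mul (b3 ^ (i' : ℤ) * a3 ^ ((D' : ℤ) - i)) (c3 ^ (-1 : ℤ))
  have h3 := nm_mul (b3 ^ (i' : ℤ)) (a3 ^ ((D' : ℤ) - i))
  have h4 := nm_b (i' : ℤ)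
  have h5 := nm_a ((D' : ℤ) - i)
  have h6 := nm_c (-1)
  have h7 := nm_a (-(D : ℤ))
  rw [Int.abs_eq_natAbs]
  omega

end Pool.Agent.V8H67.QR
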