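import Pool.Agent.V8H67.QR.Rch
import Pool.Agent.V8H67.QR.Dv

set_option autoImplicit false

namespace Pool.Agent.V8H67.QR

open scoped NNReal ENNReal

theorem tot_le_nm (g : G3) : tot g ≤ nm g := by
  have h1 := le_wnorm closure_S3 (fun x y => tot x - tot y) (by simp) (by intros; linarith)
    (fun s hs g => by rcases hs with h | h | h | h <;> subst h <;> simp)
    (fun s hs g => by rcases hs with h | h | h | h <;> subst h <;> simp) g 1
  simp at h1
  exact h1

section
variable {X : Type} [MetricSpace X]

theorem PathAvoid.len {A : Set X} {L L' : ℝ} {x y : X} (h : PathAvoid A L x y) (hL : L ≤ L') :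
    PathAvoid A L' x y := by
  have hy : PathAvoid A (L' - L) y y := by
    obtain ⟨h0, c, h1, h2, h3, h4⟩ := h
    refine ⟨by linarith, fun _ => y, rfl, rfl, fun s t _ hst _ => by simpa using hst, fun _ _ _ => ?_⟩
    rw [← h2]
    exact h4 L h0 le_rfl
  have := h.trans hy
  rwa [add_sub_cancel] at this

theorem PathAvoid.refl {A : Set X} {x : X} (h : x ∉ A) : PathAvoid A 0 x x :=
  ⟨le_rfl, fun _ => x, rfl, rfl, fun s t _ hst _ => by simpa using hst, fun _ _ _ => h⟩

variable {e : G3 → X} (he : ∀ g h, dist (e g) (e h) = nm (g * h⁻¹)) (hX : IsGeodesic X)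
include he hX

theorem path_of_rch {c : X} {ρ : ℝ} {n : ℕ} {g h : G3}
    (H : Rch (fun v => ρ + 1 ≤ dist c (e v)) n g h) :
    PathAvoid (Metric.ball c ρ) n (e g) (e h) := by
  induction H with
  | refl g hg =>
    simp only [Nat.cast_zero]
    apply PathAvoid.refl
    rw [Metric.mem_ball, dist_comm]
    linarith
  | step n g h h' _ h2 h3 ih =>
    push_cast
    apply ih.trans
    have h4 : dist (e h) (e h') ≤ 1 := by
      rw [dist_comm, he]
      exact_mod_cast h2.nm
    apply (path_of_geo hX (e h) (e h') ?_).len h4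
    intro z hz hz'
    rw [Metric.mem_ball, dist_comm] at hz'
    have := dist_triangle c z (e h')
    have := dist_nonneg (x := e h) (y := z)
    linarith

variable (hn : ∀ x, ∃ g, dist (e g) x ≤ 1)

omit hX in
theorem dist_an (g : G3) (i : ℤ) : dist (e (a3 ^ i * g)) (e g) = i.natAbs := by
  rw [he, mul_inv_cancel_right, nm_a_eq]

omit hX in
/-- one of the two half lines avoids the ball -/
theorem side {c : X} {r ρ : ℝ} {g : G3} (hρ : ρ ≤ r / 2 - 2) (hg : r - 1 ≤ dist c (e g)) :
    (∀ i : ℕ, ρ + 1 ≤ dist c (e (a3 ^ i * g))) ∨ (∀ i : ℕ, ρ + 1 ≤ dist c (e (a3 ^ (-(i : ℤ)) * g))) := by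
  by_contra hc
  rw [not_or, not_forall, not_forall] at hc
  obtain ⟨⟨i, hi⟩, ⟨j, hj⟩⟩ := hc
  rw [not_le] at hi hj
  have h1 := dist_an he g i
  have h2 := dist_an he g (-j)
  have h3 : dist (e (a3 ^ i * g)) (e (a3 ^ (-(j : ℤ)) * g)) = i + j := by
    rw [he]
    have e1 : a3 ^ i * g * (a3 ^ (-(j : ℤ)) * g)⁻¹ = a3 ^ ((i : ℤ) + j) := by
      rw [_root_.zpow_add, zpow_natCast]; group
    rw [e1, nm_a_eq]
    have : ((i : ℤ) + j).natAbs = i + j := by omega
    rw [this]; push_cast; ring
  rw [zpow_natCast] at h1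
  simp only [Int.natAbs_natCast, Int.natAbs_neg] at h1 h2
  have h4 := dist_triangle c (e (a3 ^ i * g)) (e g)
  have h5 := dist_triangle c (e (a3 ^ (-(j : ℤ)) * g)) (e g)
  have h6 := dist_triangle (e (a3 ^ i * g)) c (e (a3 ^ (-(j : ℤ)) * g))
  rw [dist_comm (e (a3 ^ i * g)) c] at h6
  linarith

/-- escaping from the ball -/
theorem escape {c : X} {r ρ : ℝ} {g : G3} {N : ℕ} (hρ : ρ ≤ r / 2 - 2) (hg : r - 1 ≤ dist c (e g))
    (hN : ρ + 1 + dist c (e g) ≤ N) :
    PathAvoid (Metric.ball c ρ) (5 * N) (e g) (e (a3 ^ N * g)) := by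
  rcases side he hρ hg with h | h
  · have h1 : Rch (fun v => ρ + 1 ≤ dist c (e v)) N g (a3 ^ N * g) :=
      Rch.line stA N g (fun i _ => h i)
    have := path_of_rch he hX h1
    apply this.len
    have : (0 : ℝ) ≤ N := by positivity
    linarith
  · have h1 : Rch (fun v => ρ + 1 ≤ dist c (e v)) N (a3 ^ (-(N : ℤ)) * g)
        (a3 ^ N * (a3 ^ (-(N : ℤ)) * g)) := by
      apply Rch.line stA
      intro i hi
      have e1 : a3 ^ i * (a3 ^ (-(N : ℤ)) * g) = a3 ^ (-((N - i : ℕ) : ℤ)) * g := by
        rw [← mul_assoc, ← zpow_natCast, ← _root_.zpow_add]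
        congr 2
        omega
      rw [e1]
      exact h _
    have e2 : a3 ^ N * (a3 ^ (-(N : ℤ)) * g) = g := by
      rw [← mul_assoc, ← zpow_natCast, ← _root_.zpow_add]
      simp
    rw [e2] at h1
    have h2 : Rch (fun v => ρ + 1 ≤ dist c (e v)) (4 * N) (a3 ^ N * g) (a3 ^ (-(N : ℤ)) * g) := by
      apply (turn N).mul g
      intro x hx
      have h3 : dist (e (x * g)) (e g) = nm x := by rw [he, mul_inv_cancel_right]
      have h4 := dist_triangle (e (x * g)) c (e g)
      rw [dist_comm (e (x * g)) c] at h4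
      have h5 : (N : ℝ) ≤ nm x := by exact_mod_cast hx
      linarith
    have h6 := path_of_rch he hX (h1.symm.trans h2.symm)
    apply h6.len
    push_cast
    linarith

/-- far paths along a geodesic -/
theorem far_path {c : X} {ρ : ℝ} {g h : G3} {N k : ℕ} (hk : nm (h * g⁻¹) ≤ k)
    (hN : ρ + 1 + dist c (e g) + k ≤ N) :
    PathAvoid (Metric.ball c ρ) (k * (2 * (N + 1) * (N + 1))) (e (a3 ^ N * g)) (e (a3 ^ N * h)) := by
  obtain ⟨q, q0, q1, q2⟩ := path_of_nm g h hk
  have hd : ∀ i ≤ k, dist c (e (q i)) ≤ dist c (e g) + k := by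
    intro i hi
    have h1 := lip_nm q2 (Nat.zero_le i)
    rw [q0] at h1
    have h2 : dist (e (q i)) (e g) = nm (q i * g⁻¹) := he _ _
    have h3 : (nm (q i * g⁻¹) : ℝ) ≤ k := by
      have : nm (q i * g⁻¹) ≤ k := by omega
      exact_mod_cast this
    have h4 := dist_triangle c (e g) (e (q i))
    rw [dist_comm (e g)] at h4
    linarith
  have edge : ∀ u : G3, dist c (e u) ≤ dist c (e g) + k → ∀ s ∈ S3,
      PathAvoid (Metric.ball c ρ) (2 * (N + 1) * (N + 1)) (e (a3 ^ N * u)) (e (a3 ^ N * (s * u))) := by
    intro u hu s hs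
    obtain ⟨n, hn1, hn2⟩ := local_s N hs
    have h1 : Rch (fun v => ρ + 1 ≤ dist c (e v)) n (a3 ^ N * u) (a3 ^ N * s * u) := by
      apply hn2.mul u
      intro x hx
      have h3 : dist (e (x * u)) (e u) = nm x := by rw [he, mul_inv_cancel_right]
      have h4 := dist_triangle (e (x * u)) c (e u)
      rw [dist_comm (e (x * u)) c] at h4
      have h5 : (N : ℤ) ≤ nm x := le_trans hx (tot_le_nm x)
      have h6 : (N : ℝ) ≤ nm x := by exact_mod_cast h5
      linarith
    have h2 := path_of_rch he hX h1
    rw [mul_assoc] at h2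
    apply h2.len
    exact_mod_cast hn1
  have key : ∀ i ≤ k, PathAvoid (Metric.ball c ρ) (i * (2 * (N + 1) * (N + 1))) (e (a3 ^ N * g))
      (e (a3 ^ N * q i)) := by
    intro i
    induction i with
    | zero =>
      intro _
      rw [q0]
      simp only [Nat.cast_zero, zero_mul]
      apply PathAvoid.refl
      rw [Metric.mem_ball, dist_comm]
      have h1 := dist_an he g N
      rw [zpow_natCast] at h1
      have h4 := dist_triangle (e (a3 ^ N * g)) c (e g)
      rw [dist_comm (e (a3 ^ N * g)) c] at h4
      simp only [Int.natAbs_natCast] at h1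
      have : (0 : ℝ) ≤ k := by positivity
      linarith
    | succ i ih =>
      intro hi
      have h1 := ih (by omega)
      have h2 : PathAvoid (Metric.ball c ρ) (2 * (N + 1) * (N + 1)) (e (a3 ^ N * q i))
          (e (a3 ^ N * q (i + 1))) := by
        have hdi := hd i (by omega)
        have hdi' := hd (i + 1) hi
        rcases q2 i with h | h | h | h | h | h | h | h | h
        · rw [h]
          apply (PathAvoid.refl _).len (by positivity)
          rw [Metric.mem_ball, dist_comm]
          have h1 := dist_an he (q i) N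
          rw [zpow_natCast] at h1
          have h4 := dist_triangle (e (a3 ^ N * q i)) c (e (q i))
          rw [dist_comm (e (a3 ^ N * q i)) c] at h4
          simp only [Int.natAbs_natCast] at h1
          linarith
        · rw [h]; exact edge _ hdi _ a3_mem
        · have := (edge _ hdi' _ a3_mem).symm; rwa [← h] at this
        · rw [h]; exact edge _ hdi _ b3_mem
        · have := (edge _ hdi' _ b3_mem).symm; rwa [← h] at this
        · rw [h]; exact edge _ hdi _ c3_mem
        · have := (edge _ hdi' _ c3_mem).symm; rwa [← h] at this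
        · rw [h]; exact edge _ hdi _ d3_mem
        · have := (edge _ hdi' _ d3_mem).symm; rwa [← h] at this
      have := h1.trans h2
      apply this.len
      push_cast
      linarith
  have := key k le_rfl
  rwa [q1 k le_rfl] at this

include hn

/-- the upper bound -/
theorem upper {γ δ : ℝ} (hγ : 2 ≤ γ) (hδ : δ ≤ 1 / 2) {x y c : X} {n : ℕ}
    (hpos : 0 < min (dist c x) (dist c y)) (hxy : dist x y ≤ n) :
    PathAvoid (Metric.ball c (δ * min (dist c x) (dist c y) - γ)) (500 * ((n : ℝ) + 1) ^ 3) x y := by
  set r := min (dist c x) (dist c y) with hr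
  have hrx : r ≤ dist c x := min_le_left _ _
  have hry : r ≤ dist c y := min_le_right _ _
  set ρ := δ * r - γ with hρ
  have hρr : ρ ≤ r / 2 - 2 := by
    have : δ * r ≤ 1 / 2 * r := mul_le_mul_of_nonneg_right hδ hpos.le
    linarith
  have hn0 : (0 : ℝ) ≤ n := by positivity
  have hbig : ((n : ℝ) + 1) ≤ (n + 1) ^ 3 := by
    nlinarith [sq_nonneg (n : ℝ), mul_nonneg hn0 hn0, mul_nonneg (mul_nonneg hn0 hn0) hn0]
  rcases lt_or_ge (n : ℝ) r with h | h
  · apply (path_of_geo hX x y ?_).len
    · linarith
    · intro z hz hz'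
      rw [Metric.mem_ball, dist_comm] at hz'
      have h1 := dist_triangle c z x
      have h2 := dist_triangle c z y
      rw [dist_comm z x] at h1
      linarith
  · obtain ⟨g, hg⟩ := hn x
    obtain ⟨h', hh'⟩ := hn y
    have hcx : dist c x ≤ 2 * n := by
      rcases min_choice (dist c x) (dist c y) with h1 | h1
      · rw [← hr] at h1; linarith
      · have := dist_triangle c y x
        rw [dist_comm y x] at this
        rw [← hr] at h1; linarith
    have hcy : dist c y ≤ 2 * n := by
      rcases min_choice (dist c x) (dist c y) with h1 | h1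
      · have := dist_triangle c x y
        rw [← hr] at h1; linarith
      · rw [← hr] at h1; linarith
    have hcg : dist c (e g) ≤ 2 * n + 1 := by
      have := dist_triangle c x (e g)
      rw [dist_comm x] at this
      linarith
    have hch : dist c (e h') ≤ 2 * n + 1 := by
      have := dist_triangle c y (e h')
      rw [dist_comm y] at this
      linarith
    have hcg' : r - 1 ≤ dist c (e g) := by
      have := dist_triangle c (e g) x
      linarith
    have hch' : r - 1 ≤ dist c (e h') := by
      have := dist_triangle c (e h') y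
      linarith
    have hgh : nm (h' * g⁻¹) ≤ n + 2 := by
      have h1 : dist (e h') (e g) = nm (h' * g⁻¹) := he _ _
      have h2 := dist_triangle (e h') y (e g)
      have h3 := dist_triangle y x (e g)
      rw [dist_comm y x, dist_comm x (e g)] at h3
      have : (nm (h' * g⁻¹) : ℝ) ≤ ((n + 2 : ℕ) : ℝ) := by push_cast; linarith
      exact_mod_cast this
    set N : ℕ := 4 * n + 8 with hN
    have hNr : (N : ℝ) = 4 * n + 8 := by rw [hN]; push_cast; ring
    have p1 : PathAvoid (Metric.ball c ρ) 1 x (e g) := by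
      apply (path_of_geo hX x (e g) ?_).len
      · rw [dist_comm]; exact hg
      · intro z hz hz'
        rw [Metric.mem_ball, dist_comm] at hz'
        have h1 := dist_triangle c z x
        rw [dist_comm z x] at h1
        have h2 := dist_nonneg (x := z) (y := e g)
        rw [dist_comm x (e g)] at hz
        linarith
    have p5 : PathAvoid (Metric.ball c ρ) 1 (e h') y := by
      apply (path_of_geo hX (e h') y ?_).len hh'
      intro z hz hz'
      rw [Metric.mem_ball, dist_comm] at hz'
      have h1 := dist_triangle c z y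
      have h2 := dist_nonneg (x := e h') (y := z)
      linarith
    have p2 := escape he hX (N := N) hρr hcg' (by rw [hNr]; linarith)
    have p4 := (escape he hX (N := N) hρr hch' (by rw [hNr]; linarith)).symm
    have p3 := far_path he hX (c := c) (ρ := ρ) (N := N) hgh (by rw [hNr]; push_cast; linarith)
    have p := p1.trans (p2.trans (p3.trans (p4.trans p5)))
    apply p.len
    rw [hNr]
    push_cast
    nlinarith [sq_nonneg (n : ℝ), mul_nonneg hn0 hn0, mul_nonneg (mul_nonneg hn0 hn0) hn0]

end

end Pool.Agent.V8H67.QR
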