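import Pool.Agent.V8H67.QR.Coc3

set_option autoImplicit false

namespace Pool.Agent.V8H67.QR

@[simp] theorem lv_a1 : lv a2 = 0 := by simpa using lv_an' 1
@[simp] theorem lv_b1 : lv b2 = 0 := by simpa using lv_bn' 1
@[simp] theorem lv_c1 : lv c2 = 1 := by simpa using lv_cn' 1

theorem can (n : ℤ) : c2 * a2 ^ n = b2 ^ n * c2 := by
  have h : c2 * a2 * c2⁻¹ = b2 := by rw [ca2]; group
  have h2 : c2 * a2 ^ n * c2⁻¹ = b2 ^ n := by
    rw [← conj_zpow, h]
  rw [← h2]; group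

theorem can' (n : ℤ) (g : G2) : c2 * (a2 ^ n * g) = b2 ^ n * (c2 * g) := by
  rw [← mul_assoc, can, mul_assoc]

/-- an edge of the Cayley graph of `G2`, or nothing -/
def St2 (x y : G2) : Prop :=
  y = x ∨ y = a2 * x ∨ x = a2 * y ∨ y = b2 * x ∨ x = b2 * y ∨ y = c2 * x ∨ x = c2 * y

/-- a move of duration `t` -/
def Mv (x y : G2) (t : ℕ) : Prop :=
  (∃ n : ℤ, n.natAbs ≤ t ∧ (y = a2 ^ n * x ∨ y = b2 ^ n * x)) ∨ (y = c2 * x ∨ x = c2 * y) ∨
    (∃ n : ℤ, n.natAbs ≤ t ∧ y = c2 ^ n * x ∧ x ∉ Subgroup.zpowers c2)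

theorem f_c_le (g : G2) : f g ≤ f (c2 * g) := by
  rw [f_c]; split_ifs <;> simp

theorem f_cn_le (n : ℕ) (g : G2) : f g ≤ f (c2 ^ n * g) := by
  induction n with
  | zero => simp
  | succ n ih => rw [pow_succ', mul_assoc]; exact ih.trans (f_c_le _)

theorem f_cross (n : ℕ) (g : G2) (h0 : f g = 0) (h1 : f (c2 ^ n * g) = 1) :
    ∃ j < n, c2 ^ j * g ∈ Subgroup.zpowers a2 := by
  induction n with
  | zero => simp [h0] at h1
  | succ n ih =>
    by_cases h : f (c2 ^ n * g) = 1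
    · obtain ⟨j, hj, hm⟩ := ih h
      exact ⟨j, by omega, hm⟩
    · rw [pow_succ', mul_assoc, f_c] at h1
      refine ⟨n, by omega, ?_⟩
      by_contra hc
      simp [hc] at h1
      exact h h1

/-- crossing the wall with the number `l` -/
theorem crossing {x y : G2} {t : ℕ} {l : ℤ} (hx : f (x * c2 ^ (-l)) = 0)
    (hy : f (y * c2 ^ (-l)) = 1) (hm : Mv x y t) :
    ∃ (n : ℤ) (j k : ℕ), x = c2 ^ (-(j : ℤ)) * a2 ^ n * c2 ^ l ∧
      y = c2 ^ (k : ℤ) * b2 ^ n * c2 ^ (l + 1) ∧ k ≤ t ∧ (n = 0 → j = 0) := by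
  rcases hm with ⟨n, -, h | h⟩ | (h | h) | ⟨n, hn, h, hc⟩
  · rw [h, mul_assoc, f_an, hx] at hy
    exact absurd hy (by norm_num)
  · rw [h, mul_assoc, f_bn, hx] at hy
    exact absurd hy (by norm_num)
  · rw [h, mul_assoc, f_c, hx] at hy
    have hmem : x * c2 ^ (-l) ∈ Subgroup.zpowers a2 := by
      by_contra hc
      rw [if_neg hc] at hy
      norm_num at hy
    obtain ⟨n, hn⟩ := Subgroup.mem_zpowers_iff.1 hmem
    have hx' : x = a2 ^ n * c2 ^ l := by rw [hn]; group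
    refine ⟨n, 0, 0, by simp [hx'], ?_, by omega, by simp⟩
    rw [h, hx', can', _root_.zpow_add, zpow_one]
    simp
    group
  · have := f_c_le (y * c2 ^ (-l))
    rw [← mul_assoc, ← h, hx, hy] at this
    norm_num at this
  · set g := x * c2 ^ (-l) with hg
    have hxg : x = g * c2 ^ l := by rw [hg]; group
    have hyg : y * c2 ^ (-l) = c2 ^ n * g := by rw [h, hg]; group
    rw [hyg] at hy
    rcases le_or_gt n 0 with hn0 | hn0
    · exfalso
      obtain ⟨m, rfl⟩ : ∃ m : ℕ, n = -m := ⟨(-n).toNat, by omega⟩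
      have := f_cn_le m (c2 ^ (-(m : ℤ)) * g)
      rw [hy, ← zpow_natCast, ← mul_assoc, ← _root_.zpow_add] at this
      simp [hx] at this
    · obtain ⟨m, rfl⟩ : ∃ m : ℕ, n = m := ⟨n.toNat, by omega⟩
      rw [zpow_natCast] at hy
      obtain ⟨j, hj, hmem⟩ := f_cross m g hx hy
      obtain ⟨n, hn'⟩ := Subgroup.mem_zpowers_iff.1 hmem
      have hg' : g = c2 ^ (-(j : ℤ)) * a2 ^ n := by rw [hn']; group
      refine ⟨n, j, m - j - 1, ?_, ?_, ?_, ?_⟩
      · rw [hxg, hg']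
      · have e : ((m - j - 1 : ℕ) : ℤ) = m - j - 1 := by omega
        rw [h, hxg, hg', e]
        have e2 : c2 ^ ((m : ℤ) - j - 1) * b2 ^ n * c2 ^ (l + 1) =
            c2 ^ ((m : ℤ) - j - 1) * (c2 * (a2 ^ n * c2 ^ l)) := by
          rw [can', mul_assoc, add_comm l 1, zpow_one_add]
        rw [e2]
        group
      · omega
      · intro h0
        exfalso
        apply hc
        rw [hxg, hg', h0, zpow_zero, mul_one, ← _root_.zpow_add]
        exact Subgroup.zpow_mem_zpowers _ _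

theorem a_eq_b {n m : ℤ} (h : a2 ^ n = b2 ^ m) : n = 0 := by
  have h1 := X_an n 1
  have h2 := X_bn m 1
  simp only [mul_one, X_one, lv_one] at h1 h2
  rw [h, h2] at h1
  simpa using h1.symm

theorem f_before (n : ℤ) (j : ℕ) (h : n = 0 → j = 0) :
    f (c2 ^ (-(j : ℤ)) * (a2 ^ n * c2)) = 1 := by
  induction j with
  | zero =>
    have := f_cn 1
    simp at this
    simp [this]
  | succ j ih =>
    have hn : n ≠ 0 := fun h0 => by simpa using h h0
    have ih := ih (fun h0 => absurd h0 hn)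
    have e : c2 ^ (-(j : ℤ)) * (a2 ^ n * c2) = c2 * (c2 ^ (-((j + 1 : ℕ) : ℤ)) * (a2 ^ n * c2)) := by
      rw [← mul_assoc c2, ← zpow_one_add]; congr 2; push_cast; ring
    rw [e, f_c] at ih
    have : ¬ c2 ^ (-((j + 1 : ℕ) : ℤ)) * (a2 ^ n * c2) ∈ Subgroup.zpowers a2 := by
      intro hm
      obtain ⟨m, hm⟩ := Subgroup.mem_zpowers_iff.1 hm
      have hl := congrArg lv hm
      have hlc : lv c2 = 1 := by simpa using lv_c 1
      rw [lv_an', lv_cn, lv_an, hlc] at hl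
      have hj : j = 0 := by omega
      subst hj
      have h3 : a2 ^ n * c2 = c2 * a2 ^ m := by
        rw [hm, ← mul_assoc c2, ← zpow_one_add]; simp
      rw [can] at h3
      exact hn (a_eq_b (mul_right_cancel h3))
    rw [if_neg this, add_zero] at ih
    exact ih

/-- Lipschitz functions along paths -/
theorem lip2 (h : G2 → ℤ) (ha : ∀ g, |h (a2 * g) - h g| ≤ 1) (hb : ∀ g, |h (b2 * g) - h g| ≤ 1)
    (hc : ∀ g, |h (c2 * g) - h g| ≤ 1) {z : ℕ → G2} (hz : ∀ m, St2 (z m) (z (m + 1)))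
    {m n : ℕ} (hmn : m ≤ n) : |h (z n) - h (z m)| ≤ n - m := by
  induction n, hmn using Nat.le_induction with
  | base => simp
  | succ n hmn ih =>
    have : |h (z (n + 1)) - h (z n)| ≤ 1 := by
      rcases hz n with e | e | e | e | e | e | e
      · rw [e]; simp
      · rw [e]; exact ha _
      · rw [e, abs_sub_comm]; exact ha _
      · rw [e]; exact hb _
      · rw [e, abs_sub_comm]; exact hb _
      · rw [e]; exact hc _
      · rw [e, abs_sub_comm]; exact hc _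
    rw [abs_le] at this ih ⊢
    push_cast
    constructor <;> linarith [this.1, this.2, ih.1, ih.2]

theorem prevV (V : ℕ → Prop) {m0 T : ℕ} (h0 : V m0) (h : m0 < T) :
    ∃ P, m0 ≤ P ∧ P < T ∧ V P ∧ ∀ k, P < k → k < T → ¬ V k := by
  classical
  refine ⟨Nat.findGreatest V (T - 1), Nat.le_findGreatest (by omega) h0, ?_,
    Nat.findGreatest_spec (by omega) h0, ?_⟩
  · have := Nat.findGreatest_le (P := V) (T - 1)
    omega
  · intro k hk hkT
    exact Nat.findGreatest_is_greatest hk (by omega)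

/-- THE WALLS. -/
theorem walls {z : ℕ → G2} {V : ℕ → Prop} {m0 m1 y : ℕ} (hz : ∀ m, St2 (z m) (z (m + 1)))
    (hm : m0 ≤ m1) (V0 : V m0) (V1 : V m1)
    (hV : ∀ m m', m0 ≤ m → m < m' → m' ≤ m1 → V m → V m' → (∀ k, m < k → k < m' → ¬ V k) →
      Mv (z m) (z m') (m' - m))
    (hs : ∀ l : ℕ, f (z m0 * c2 ^ (-(l : ℤ))) = 0) (he : z m1 = c2 ^ (y : ℤ)) :
    ∃ T : ℕ → ℕ, ∀ l < y, V (T l) ∧ m0 ≤ T l ∧ T l ≤ m1 ∧ ∃ (n : ℤ) (k : ℕ),
      z (T l) = c2 ^ (k : ℤ) * b2 ^ n * c2 ^ ((l : ℤ) + 1) ∧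
      (l + 1 < y → T l + n.natAbs ≤ T (l + 1) ∧ T l + k ≤ T (l + 1)) := by
  classical
  set S : ℕ → Set ℕ := fun l => {m | m0 ≤ m ∧ V m ∧ f (z m * c2 ^ (-(l : ℤ))) = 1} with hS
  have hmem : ∀ l < y, m1 ∈ S l := by
    intro l hl
    refine ⟨hm, V1, ?_⟩
    rw [he, ← _root_.zpow_add, f_cn, if_pos (by omega)]
  have hT : ∀ l < y, sInf (S l) ∈ S l := fun l hl => Nat.sInf_mem ⟨_, hmem l hl⟩
  -- the structure at the crossing
  have key : ∀ l < y, ∃ (P : ℕ) (n : ℤ) (j k : ℕ), m0 ≤ P ∧ P < sInf (S l) ∧ V P ∧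
      z P = c2 ^ (-(j : ℤ)) * a2 ^ n * c2 ^ (l : ℤ) ∧
      z (sInf (S l)) = c2 ^ (k : ℤ) * b2 ^ n * c2 ^ ((l : ℤ) + 1) ∧ (n = 0 → j = 0) := by
    intro l hl
    obtain ⟨h1, h2, h3⟩ := hT l hl
    have hlt : m0 < sInf (S l) := by
      rcases h1.lt_or_eq with h | h
      · exact h
      · rw [← h, hs l] at h3
        exact absurd h3 (by norm_num)
    obtain ⟨P, hP0, hPT, hVP, hmax⟩ := prevV V V0 hlt
    have hmv := hV P _ hP0 hPT (Nat.sInf_le (hmem l hl)) hVP h2 hmax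
    have hfP : f (z P * c2 ^ (-(l : ℤ))) = 0 := by
      rcases f_01 (z P * c2 ^ (-(l : ℤ))) with h | h
      · exact h
      · exact absurd (Nat.sInf_le (show P ∈ S l from ⟨hP0, hVP, h⟩)) (by omega)
    obtain ⟨n, j, k, e1, e2, -, e4⟩ := crossing hfP h3 hmv
    exact ⟨P, n, j, k, hP0, hPT, hVP, e1, e2, e4⟩
  refine ⟨fun l => sInf (S l), ?_⟩
  intro l hl
  obtain ⟨-, n, -, k, -, -, -, -, e2, -⟩ := key l hl
  refine ⟨(hT l hl).2.1, (hT l hl).1, Nat.sInf_le (hmem l hl), n, k, e2, ?_⟩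
  intro hl1
  obtain ⟨P, n1, j, -, hP0, hPT, hVP, e1, -, e4⟩ := key (l + 1) hl1
  have hle : sInf (S l) ≤ P := by
    apply Nat.sInf_le
    refine ⟨hP0, hVP, ?_⟩
    have : z P * c2 ^ (-(l : ℤ)) = c2 ^ (-(j : ℤ)) * (a2 ^ n1 * c2) := by
      rw [e1]; push_cast; group
    rw [this]
    exact f_before n1 j e4
  have hX : |X (z P * c2 ^ (-(l : ℤ))) - X (z (sInf (S l)) * c2 ^ (-(l : ℤ)))| ≤ P - sInf (S l) := by
    apply lip2 (fun g => X (g * c2 ^ (-(l : ℤ)))) _ _ _ hz hle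
    · intro g; simp only [mul_assoc, X_a]; split_ifs <;> simp
    · intro g; simp only [mul_assoc, X_b]; split_ifs <;> simp
    · intro g; simp only [mul_assoc, X_c]; simp
  have hL : |lv (z P) - lv (z (sInf (S l)))| ≤ P - sInf (S l) := by
    apply lip2 lv _ _ _ hz hle
    · intro g; simp
    · intro g; simp
    · intro g; simp
  have hlc : lv c2 = 1 := by simpa using lv_c 1
  have x1 : X (z P * c2 ^ (-(l : ℤ))) = 0 := by
    have : z P * c2 ^ (-(l : ℤ)) = c2 ^ (-(j : ℤ)) * (a2 ^ n1 * c2) := by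
      rw [e1]; push_cast; group
    rw [this, X_cn, X_an, hlc]
    simpa using X_c 1
  have x2 : X (z (sInf (S l)) * c2 ^ (-(l : ℤ))) = n := by
    have : z (sInf (S l)) * c2 ^ (-(l : ℤ)) = c2 ^ (k : ℤ) * (b2 ^ n * c2) := by
      rw [e2]; group
    rw [this, X_cn, X_bn, hlc]
    have := X_c 1
    simp at this
    simp [this]
  rw [x1, x2, zero_sub, abs_neg] at hX
  rw [e1, e2] at hL
  simp only [lv_mul, lv_cn', lv_an', lv_bn'] at hL
  rw [abs_le] at hX hL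
  push_cast at hL
  show sInf (S l) + n.natAbs ≤ sInf (S (l + 1)) ∧ sInf (S l) + k ≤ sInf (S (l + 1))
  constructor <;> omega

end Pool.Agent.V8H67.QR
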